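import Pool.Agent.Work.MP_be705b_al.E.LineF

set_option autoImplicit false
set_option linter.unusedSectionVars false
set_option linter.unusedVariables false

/-!
# MP_be705b_al, elimination: the cases `A1` and `A2`

PROOF of a1_false. `A1 (GG g)`: `G i j = a s_i s_j^2 + b r_i r_j^2`, i.e. the functional of `g_line` with `h = ![a, 0, 0, b]`.
Use `line_false` with `e = ![X, X ^ 2, C b - C a * X ^ 3]`.  `hsp`: if `a f_0 + b f_3 = 0` then
`f = f_1 e_0 + f_2 e_1 + (f_0 / b) e_2` (`f_3 = - a f_0 / b`).  `hq`: for `Q = ∑ q_jk X_j X_k` (`j ≤ k`; BR.sq_add_cr writes `Q` as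
`sq (dg Q) + cr (hat Q)`), `aeval e Q` has the coefficients: `X^0`: `b^2 q_22`; `X^1`: `b q_02`; `X^5`: `- a q_12`; then `X^2`: `q_00`,
`X^3`: `q_01`, `X^4`: `q_11` (after the others are zero).  Here `dg Q = ![q_00, q_11, q_22]`, `hat Q = ![q_12, q_02, q_01]`.

PROOF of a2_false. `A2 (GG g)`: `h = ![b, a, 0, 0]` (`a ≠ 0`) in `g_line`.  `e = ![X ^ 2, X ^ 3, C a - C b * X]`.  `hsp`: if
`b f_0 + a f_1 = 0` then `f = f_2 e_0 + f_3 e_1 + (f_0 / a) e_2`.  `hq`: coefficients of `aeval e Q`: `X^0`: `a^2 q_22`; then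
`X^2`: `a q_02`, `X^3`: `a q_12` , then `X^4`: `q_00`, `X^5`: `q_01`, `X^6`: `q_11`.
-/

namespace Pool.Agent.BE

open MvPolynomial Submodule Module Pool.Agent.BR

variable {K : Type*} [Field K]

theorem poly4 {f : Polynomial K} (hf : f.natDegree ≤ 3) :
    f = Polynomial.C (f.coeff 0) + Polynomial.C (f.coeff 1) * Polynomial.X +
      Polynomial.C (f.coeff 2) * Polynomial.X ^ 2 + Polynomial.C (f.coeff 3) * Polynomial.X ^ 3 := by
  conv_lhs => rw [f.as_sum_range_C_mul_X_pow' (show f.natDegree < 4 by omega)]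
  simp [Finset.sum_range_succ]

theorem aeval_quad {A : Type*} [CommRing A] [Algebra K A] {Q : Pol K} (hQ : Q ∈ H K 2) (e : Fin 3 → A) :
    aeval e Q = algebraMap K A (dg Q 0) * e 0 ^ 2 + algebraMap K A (dg Q 1) * e 1 ^ 2 +
      algebraMap K A (dg Q 2) * e 2 ^ 2 + (algebraMap K A (hat Q 0) * (e 1 * e 2) +
      algebraMap K A (hat Q 1) * (e 0 * e 2) + algebraMap K A (hat Q 2) * (e 0 * e 1)) := by
  conv_lhs => rw [← sq_add_cr hQ]
  simp only [BR.sq, cr, map_add, map_mul, aeval_C, aeval_X, map_pow]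

theorem quad_zero {Q : Pol K} (hQ : Q ∈ H K 2) (h0 : dg Q 0 = 0) (h1 : dg Q 1 = 0) (h2 : dg Q 2 = 0)
    (h3 : hat Q 0 = 0) (h4 : hat Q 1 = 0) (h5 : hat Q 2 = 0) : Q = 0 := by
  refine quad_ext hQ (zero_mem _) ?_ ?_
  · funext i
    have : dg (0 : Pol K) i = 0 := by fin_cases i <;> simp [dg]
    rw [this]
    fin_cases i
    exacts [h0, h1, h2]
  · funext i
    have : hat (0 : Pol K) i = 0 := by fin_cases i <;> simp [hat]
    rw [this]
    fin_cases i
    exacts [h3, h4, h5]

theorem a1_false {v : Fin 8 → Pol K} (hv : QV v) {g : Pol K →ₗ[K] K} (hg : Cut v g) (h : A1 (GG g)) : False := by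
  obtain ⟨s, r, a, b, hsr, ha, hb, hG⟩ := h
  have hh : ∀ w ∈ cubics K, g w = ∑ k : Fin 4, (![a, 0, 0, b] : Fin 4 → K) k * (rs s r w).coeff k := by
    intro w hw
    refine g_line (h := ![a, 0, 0, b]) (fun i j => ?_) hw
    rw [hG]
    simp
  refine line_false hv hg hsr hh ![Polynomial.X, Polynomial.X ^ 2, Polynomial.C b - Polynomial.C a * Polynomial.X ^ 3]
    ?_ ?_ ?_ ?_ ?_
  · intro j
    fin_cases j
    · simp
    · simp
    · show (Polynomial.C b - Polynomial.C a * Polynomial.X ^ 3).natDegree ≤ 3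
      compute_degree
  · intro j
    fin_cases j
    · simp [Fin.sum_univ_four, Polynomial.coeff_X]
    · simp [Fin.sum_univ_four, Polynomial.coeff_X_pow]
    · simp [Fin.sum_univ_four, Polynomial.coeff_X_pow, Polynomial.coeff_C]
      ring
  · rw [Fintype.linearIndependent_iff]
    intro c hc
    have h1 := congrArg (fun f => Polynomial.coeff f 1) hc
    have h2 := congrArg (fun f => Polynomial.coeff f 2) hc
    have h3 := congrArg (fun f => Polynomial.coeff f 0) hc
    simp [Fin.sum_univ_three, Polynomial.coeff_X, Polynomial.coeff_X_pow, Polynomial.coeff_C] at h1 h2 h3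
    intro i
    fin_cases i
    · exact h1
    · exact h2
    · exact h3.resolve_right hb
  · intro f hf hf0
    simp [Fin.sum_univ_four] at hf0
    rw [mem_span_range_iff_exists_fun]
    refine ⟨![f.coeff 1, f.coeff 2, f.coeff 0 / b], ?_⟩
    conv_rhs => rw [poly4 hf]
    have h3 : f.coeff 3 = - (f.coeff 0 / b) * a := by
      field_simp
      linear_combination hf0
    rw [h3]
    have h4 : f.coeff 0 = f.coeff 0 / b * b := by field_simp
    simp only [Fin.sum_univ_three, Matrix.cons_val_zero, Matrix.cons_val_one, Matrix.cons_val_two, Matrix.head_cons, Matrix.tail_cons, Matrix.cons_val, Polynomial.smul_eq_C_mul]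
    rw [mul_sub, ← Polynomial.C_mul, ← h4]
    simp only [Polynomial.C_mul, Polynomial.C_neg]
    ring
  · intro Q hQ hQe
    rw [aeval_quad hQ] at hQe
    simp only [Matrix.cons_val_zero, Matrix.cons_val_one, Matrix.cons_val_two, Matrix.head_cons, Matrix.tail_cons, Matrix.cons_val, Polynomial.algebraMap_eq] at hQe
    have e : Polynomial.C (b ^ 2 * dg Q 2) + Polynomial.C (b * hat Q 1) * Polynomial.X +
        Polynomial.C (dg Q 0 + b * hat Q 0) * Polynomial.X ^ 2 +
        Polynomial.C (hat Q 2 - 2 * a * b * dg Q 2) * Polynomial.X ^ 3 +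
        Polynomial.C (dg Q 1 - a * hat Q 1) * Polynomial.X ^ 4 +
        Polynomial.C (- a * hat Q 0) * Polynomial.X ^ 5 + Polynomial.C (a ^ 2 * dg Q 2) * Polynomial.X ^ 6 =
          (0 : Polynomial K) := by
      rw [← hQe]
      simp only [map_add, map_sub, map_mul, map_pow, map_neg, Polynomial.C_ofNat]
      ring
    have c0 := congrArg (fun f => Polynomial.coeff f 0) e
    have c1 := congrArg (fun f => Polynomial.coeff f 1) e
    have c2 := congrArg (fun f => Polynomial.coeff f 2) e
    have c3 := congrArg (fun f => Polynomial.coeff f 3) e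
    have c4 := congrArg (fun f => Polynomial.coeff f 4) e
    have c5 := congrArg (fun f => Polynomial.coeff f 5) e
    simp only [Polynomial.coeff_add, Polynomial.coeff_C_mul, Polynomial.coeff_X_pow, Polynomial.coeff_X, Polynomial.coeff_C, Polynomial.coeff_zero] at c0 c1 c2 c3 c4 c5
    norm_num at c0 c1 c2 c3 c4 c5
    have d2 : dg Q 2 = 0 := c0.resolve_left hb
    have d4 : hat Q 1 = 0 := c1.resolve_left hb
    have d3 : hat Q 0 = 0 := c5.resolve_left ha
    rw [d3] at c2
    rw [d2] at c3
    rw [d4] at c4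
    norm_num at c2 c3 c4
    exact quad_zero hQ c2 c4 d2 d3 d4 c3

theorem a2_false {v : Fin 8 → Pol K} (hv : QV v) {g : Pol K →ₗ[K] K} (hg : Cut v g) (h : A2 (GG g)) : False := by
  obtain ⟨s, r, a, b, hsr, ha, hG⟩ := h
  have hh : ∀ w ∈ cubics K, g w = ∑ k : Fin 4, (![b, a, 0, 0] : Fin 4 → K) k * (rs s r w).coeff k := by
    intro w hw
    refine g_line (h := ![b, a, 0, 0]) (fun i j => ?_) hw
    rw [hG]
    simp
    ring
  refine line_false hv hg hsr hh ![Polynomial.X ^ 2, Polynomial.X ^ 3, Polynomial.C a - Polynomial.C b * Polynomial.X]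
    ?_ ?_ ?_ ?_ ?_
  · intro j
    fin_cases j
    · simp
    · simp
    · show (Polynomial.C a - Polynomial.C b * Polynomial.X).natDegree ≤ 3
      compute_degree
      norm_num
  · intro j
    fin_cases j
    · simp [Fin.sum_univ_four, Polynomial.coeff_X_pow]
    · simp [Fin.sum_univ_four, Polynomial.coeff_X_pow]
    · simp [Fin.sum_univ_four, Polynomial.coeff_X, Polynomial.coeff_C]
      ring
  · rw [Fintype.linearIndependent_iff]
    intro c hc
    have h1 := congrArg (fun f => Polynomial.coeff f 2) hc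
    have h2 := congrArg (fun f => Polynomial.coeff f 3) hc
    have h3 := congrArg (fun f => Polynomial.coeff f 0) hc
    simp [Fin.sum_univ_three, Polynomial.coeff_X, Polynomial.coeff_X_pow, Polynomial.coeff_C] at h1 h2 h3
    intro i
    fin_cases i
    · exact h1
    · exact h2
    · exact h3.resolve_right ha
  · intro f hf hf0
    simp [Fin.sum_univ_four] at hf0
    rw [mem_span_range_iff_exists_fun]
    refine ⟨![f.coeff 2, f.coeff 3, f.coeff 0 / a], ?_⟩
    conv_rhs => rw [poly4 hf]
    have h3 : f.coeff 1 = - (f.coeff 0 / a) * b := by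
      field_simp
      linear_combination hf0
    rw [h3]
    have h4 : f.coeff 0 = f.coeff 0 / a * a := by field_simp
    simp only [Fin.sum_univ_three, Matrix.cons_val_zero, Matrix.cons_val_one, Matrix.cons_val_two, Matrix.head_cons, Matrix.tail_cons, Polynomial.smul_eq_C_mul]
    rw [mul_sub, ← Polynomial.C_mul, ← h4]
    simp only [Polynomial.C_mul, Polynomial.C_neg]
    ring
  · intro Q hQ hQe
    rw [aeval_quad hQ] at hQe
    simp only [Matrix.cons_val_zero, Matrix.cons_val_one, Matrix.cons_val_two, Matrix.head_cons, Matrix.tail_cons, Polynomial.algebraMap_eq] at hQe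
    have e : Polynomial.C (a ^ 2 * dg Q 2) + Polynomial.C (- 2 * a * b * dg Q 2) * Polynomial.X +
        Polynomial.C (b ^ 2 * dg Q 2 + a * hat Q 1) * Polynomial.X ^ 2 +
        Polynomial.C (a * hat Q 0 - b * hat Q 1) * Polynomial.X ^ 3 +
        Polynomial.C (dg Q 0 - b * hat Q 0) * Polynomial.X ^ 4 +
        Polynomial.C (hat Q 2) * Polynomial.X ^ 5 + Polynomial.C (dg Q 1) * Polynomial.X ^ 6 =
          (0 : Polynomial K) := by
      rw [← hQe]
      simp only [map_add, map_sub, map_mul, map_pow, map_neg, Polynomial.C_ofNat]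
      ring
    have c0 := congrArg (fun f => Polynomial.coeff f 0) e
    have c2 := congrArg (fun f => Polynomial.coeff f 2) e
    have c3 := congrArg (fun f => Polynomial.coeff f 3) e
    have c4 := congrArg (fun f => Polynomial.coeff f 4) e
    have c5 := congrArg (fun f => Polynomial.coeff f 5) e
    have c6 := congrArg (fun f => Polynomial.coeff f 6) e
    simp only [Polynomial.coeff_add, Polynomial.coeff_C_mul, Polynomial.coeff_X_pow, Polynomial.coeff_X, Polynomial.coeff_C, Polynomial.coeff_zero] at c0 c2 c3 c4 c5 c6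
    norm_num at c0 c2 c3 c4 c5 c6
    have d2 : dg Q 2 = 0 := c0.resolve_left ha
    rw [d2, mul_zero, zero_add] at c2
    have d4 : hat Q 1 = 0 := (mul_eq_zero.1 c2).resolve_left ha
    rw [d4, mul_zero, sub_zero] at c3
    have d3 : hat Q 0 = 0 := (mul_eq_zero.1 c3).resolve_left ha
    rw [d3, mul_zero, sub_zero] at c4
    exact quad_zero hQ c4 c6 d2 d3 d4 c5

end Pool.Agent.BE
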