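import Pool.Agent.Work.MP_be705b_al.E.Defs

set_option autoImplicit false
set_option linter.unusedSectionVars false
set_option linter.unusedVariables false

/-!
# MP_be705b_al, elimination: four polynomials in three variables are algebraically dependent

PROOF of alg_dep. The four polynomials `f i ∈ K[x, y, z]` are algebraically dependent over `K` (transcendence degree 3; Mathlib:
`MvPolynomial.trdeg_of_isDomain`, `AlgebraicIndependent...`, or by counting: polynomials in 4 variables of degree at most `n`
against polynomials in 3 variables of degree at most `D n`).  So there is `P ≠ 0` with `aeval f P = 0`; choose one of minimal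
total degree.  If `P = X 0 * P'`, then `f 0 * aeval f P' = 0`, so `aeval f P' = 0` (domain, `f 0 ≠ 0`), `P' ≠ 0` and
`P'.totalDegree < P.totalDegree`, a contradiction.

PROOF of X_dvd. The kernel of the substitution `X 0 ↦ 0`, `X 1 ↦ X 0`, `X 2 ↦ X 1`, `X 3 ↦ X 2` is the ideal of `X 0`:
e.g. the map `MvPolynomial (Fin 4) K → MvPolynomial (Fin 4) K`, `X 0 ↦ 0`, `X i ↦ X i` for `i ≠ 0` factors through it
(compose with `rename Fin.succ`), and `P - (image of P)` is divisible by `X 0` (induction on `P`).
-/

namespace Pool.Agent.BE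

open MvPolynomial Submodule Module Pool.Agent.BR

variable {K : Type*} [Field K]

theorem alg_dep (f : Fin 4 → Pol K) (h0 : f 0 ≠ 0) :
    ∃ P : MvPolynomial (Fin 4) K, aeval f P = 0 ∧ ¬ (X 0 ∣ P) := by
  classical
  have hdep : ∃ P : MvPolynomial (Fin 4) K, P ≠ 0 ∧ aeval f P = 0 := by
    by_contra hcon
    push Not at hcon
    have hind : AlgebraicIndependent K f := by
      rw [algebraicIndependent_iff]
      intro p hp
      by_contra hne
      exact hcon p hne hp
    have h1 := hind.lift_cardinalMk_le_trdeg
    have h2 : Algebra.trdeg K (Pol K) = Cardinal.lift (Cardinal.mk (Fin 3)) := MvPolynomial.trdeg_of_isDomain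
    rw [h2] at h1
    simp only [Cardinal.mk_fin, Cardinal.lift_natCast] at h1
    have h3 : (4 : ℕ) ≤ 3 := by exact_mod_cast h1
    omega
  -- minimal total degree
  let S : Set ℕ := {n | ∃ P : MvPolynomial (Fin 4) K, P ≠ 0 ∧ aeval f P = 0 ∧ P.totalDegree = n}
  have hS : S.Nonempty := by
    obtain ⟨P, h1, h2⟩ := hdep
    exact ⟨P.totalDegree, P, h1, h2, rfl⟩
  obtain ⟨P, hP0, hPz, hPd⟩ := Nat.sInf_mem hS
  refine ⟨P, hPz, ?_⟩
  rintro ⟨Q, rfl⟩
  have hQ0 : Q ≠ 0 := by
    rintro rfl
    exact hP0 (mul_zero _)
  have hQz : aeval f Q = 0 := by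
    rw [map_mul, aeval_X] at hPz
    exact (mul_eq_zero.mp hPz).resolve_left h0
  have hd : (X 0 * Q : MvPolynomial (Fin 4) K).totalDegree = 1 + Q.totalDegree := by
    rw [totalDegree_mul_of_isDomain (X_ne_zero 0) hQ0, totalDegree_X]
  have h4 : sInf S ≤ Q.totalDegree := Nat.sInf_le ⟨Q, hQ0, hQz, rfl⟩
  rw [← hPd, hd] at h4
  omega

theorem X_dvd {P : MvPolynomial (Fin 4) K} (h : aeval (![0, X 0, X 1, X 2] : Fin 4 → Pol K) P = 0) : X 0 ∣ P := by
  have key : ∀ P : MvPolynomial (Fin 4) K, (X 0 : MvPolynomial (Fin 4) K) ∣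
      P - rename Fin.succ (aeval (![0, X 0, X 1, X 2] : Fin 4 → Pol K) P) := by
    intro P
    induction P using MvPolynomial.induction_on with
    | C a =>
      have : (C a : MvPolynomial (Fin 4) K) -
          rename Fin.succ (aeval (![0, X 0, X 1, X 2] : Fin 4 → Pol K) (C a)) = 0 := by
        rw [aeval_C, MvPolynomial.algebraMap_eq, rename_C, sub_self]
      rw [this]
      exact dvd_zero _
    | add p q hp hq =>
      have : (p + q) - rename Fin.succ (aeval (![0, X 0, X 1, X 2] : Fin 4 → Pol K) (p + q)) =
          (p - rename Fin.succ (aeval (![0, X 0, X 1, X 2] : Fin 4 → Pol K) p)) +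
          (q - rename Fin.succ (aeval (![0, X 0, X 1, X 2] : Fin 4 → Pol K) q)) := by
        rw [map_add, map_add]
        ring
      rw [this]
      exact dvd_add hp hq
    | mul_X p i hp =>
      have hX : (X 0 : MvPolynomial (Fin 4) K) ∣
          X i - rename Fin.succ (aeval (![0, X 0, X 1, X 2] : Fin 4 → Pol K)
            (X i : MvPolynomial (Fin 4) K)) := by
        rw [aeval_X]
        fin_cases i
        · simp
        · simp
        · simp
        · simp
      have : (p * X i) - rename Fin.succ (aeval (![0, X 0, X 1, X 2] : Fin 4 → Pol K) (p * X i)) =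
          (p - rename Fin.succ (aeval (![0, X 0, X 1, X 2] : Fin 4 → Pol K) p)) * X i +
          rename Fin.succ (aeval (![0, X 0, X 1, X 2] : Fin 4 → Pol K) p) *
            (X i - rename Fin.succ (aeval (![0, X 0, X 1, X 2] : Fin 4 → Pol K)
              (X i : MvPolynomial (Fin 4) K))) := by
        rw [map_mul, map_mul]
        ring
      rw [this]
      exact dvd_add (Dvd.dvd.mul_right hp _) (Dvd.dvd.mul_left hX _)
  have h1 := key P
  rw [h, map_zero, sub_zero] at h1
  exact h1

end Pool.Agent.BE
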