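import Pool.Agent.Work.MP_be705b_al.E.RelQ

set_option autoImplicit false
set_option linter.unusedSectionVars false
set_option linter.unusedVariables false

/-!
# MP_be705b_al, elimination: relations of degree two, diagonal terms

Write `D a = ∑ i, Ln ν (u i) a * Ln ν (u' i) a`.

PROOF of diag_zero. `0 = ∑ i, ((∑ j, p j * Ln ν (u i) j) * Ln ν (u' i) a + Ln ν (u i) a * (∑ j, p j * Ln ν (u' i) j))
 = ∑ j, p j * ∑ i, (Ln ν (u i) j * Ln ν (u' i) a + Ln ν (u i) a * Ln ν (u' i) j) = 2 * p a * D a` by relQ.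

PROOF of form_zero. `Q = ∑ i, lin (Ln ν (u i)) * lin (Ln ν (u' i)) ∈ H K 2`; its cross coefficients are zero by relQ and its
diagonal coefficients are the `D a` (BR.quad_ext).
-/

namespace Pool.Agent.BE

open MvPolynomial Submodule Module Pool.Agent.BR

variable {K : Type*} [Field K]

theorem diag_zero {n : ℕ} {u u' : Fin n → Pol K} (hu : ∀ i, u i ∈ cubics K) (hu' : ∀ i, u' i ∈ cubics K)
    (h : ∑ i, u i * u' i = 0) {ν p : Fin 3 → K} (h2 : (2 : K) ≠ 0) (hp : ∀ i, ∑ j, p j * Ln ν (u i) j = 0)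
    (hp' : ∀ i, ∑ j, p j * Ln ν (u' i) j = 0) {a : Fin 3} (ha : p a ≠ 0) :
    ∑ i, Ln ν (u i) a * Ln ν (u' i) a = 0 := by
  have hq := (relQ hu hu' h ν).1
  have h0 : ∑ i, ((∑ j, p j * Ln ν (u i) j) * Ln ν (u' i) a +
      Ln ν (u i) a * (∑ j, p j * Ln ν (u' i) j)) = 0 := by
    refine Finset.sum_eq_zero fun i _ => ?_
    rw [hp i, hp' i, zero_mul, mul_zero, add_zero]
  have h1 : ∑ i, ((∑ j, p j * Ln ν (u i) j) * Ln ν (u' i) a +
      Ln ν (u i) a * (∑ j, p j * Ln ν (u' i) j)) =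
      ∑ j, p j * ∑ i, (Ln ν (u i) j * Ln ν (u' i) a + Ln ν (u i) a * Ln ν (u' i) j) := by
    simp only [Finset.mul_sum, Finset.sum_mul]
    rw [Finset.sum_comm]
    refine Finset.sum_congr rfl fun i _ => ?_
    rw [← Finset.sum_add_distrib]
    refine Finset.sum_congr rfl fun j _ => ?_
    ring
  rw [h1, Finset.sum_eq_single a] at h0
  · have h3 : ∑ i, (Ln ν (u i) a * Ln ν (u' i) a + Ln ν (u i) a * Ln ν (u' i) a) =
        2 * ∑ i, Ln ν (u i) a * Ln ν (u' i) a := by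
      rw [Finset.mul_sum]
      exact Finset.sum_congr rfl fun i _ => (two_mul _).symm
    rw [h3] at h0
    exact ((mul_eq_zero.1 h0).resolve_left ha |> mul_eq_zero.1).resolve_left h2
  · intro j _ hj
    rw [hq j a hj, mul_zero]
  · intro h4
    exact absurd (Finset.mem_univ a) h4

private theorem lin_mul_lin (a b : Fin 3 → K) : lin a * lin b =
    C (a 0 * b 0) * X 0 ^ 2 + C (a 1 * b 1) * X 1 ^ 2 + C (a 2 * b 2) * X 2 ^ 2 +
      C (a 0 * b 1 + a 1 * b 0) * (X 0 * X 1) + C (a 0 * b 2 + a 2 * b 0) * (X 0 * X 2) +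
      C (a 1 * b 2 + a 2 * b 1) * (X 1 * X 2) := by
  simp only [lin, map_mul, map_add]
  ring

theorem form_zero {n : ℕ} {u u' : Fin n → Pol K} (hu : ∀ i, u i ∈ cubics K) (hu' : ∀ i, u' i ∈ cubics K)
    (h : ∑ i, u i * u' i = 0) {ν : Fin 3 → K} (hD : ∀ a, ∑ i, Ln ν (u i) a * Ln ν (u' i) a = 0) :
    ∑ i, lin (Ln ν (u i)) * lin (Ln ν (u' i)) = 0 := by
  have hq := (relQ hu hu' h ν).1
  simp only [lin_mul_lin, Finset.sum_add_distrib, ← Finset.sum_mul, ← map_sum]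
  have e01 := hq 0 1 (by decide)
  have e02 := hq 0 2 (by decide)
  have e12 := hq 1 2 (by decide)
  rw [Finset.sum_add_distrib] at e01 e02 e12
  rw [hD 0, hD 1, hD 2, e01, e02, e12]
  simp

end Pool.Agent.BE
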