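import Pool.Agent.Work.MP_be705b_al.E.T3
import Pool.Agent.Work.MP_be705b_al.E.RelP

set_option autoImplicit false
set_option linter.unusedSectionVars false
set_option linter.unusedVariables false

/-!
# MP_be705b_al, elimination: base points, definition
-/

namespace Pool.Agent.BE

open MvPolynomial Submodule Module Pool.Agent.BR

variable {K : Type*} [Field K]

/-- `U v` consists of the elements of `cubics K` which vanish at `p` -/
def BPt (v : Fin 8 → Pol K) (p : Fin 3 → K) : Prop := ∀ u, u ∈ U v ↔ u ∈ cubics K ∧ eval p u = 0

end Pool.Agent.BE
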