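import Pool.Agent.Work.MP_be705b_al.E.Exp

set_option autoImplicit false
set_option linter.unusedSectionVars false
set_option linter.unusedVariables false

/-!
# MP_be705b_al, elimination: restriction to a line

PROOF of line_onto. As `s, r` are linearly independent there are linear forms `σ, τ ∈ H K 1` with `σ (s) = 1`, `σ (r) = 0`,
`τ (s) = 0`, `τ (r) = 1`, so `rs s r σ = 1`, `rs s r τ = X`, and a nonzero linear form `l` with `l (s) = l (r) = 0`, so `rs s r l = 0`.
`w' = ∑ k, C (c k) * σ ^ (3 - k) * τ ^ k ∈ H K 3` has `rs s r w' = ∑ k, c k X^k`.  If `l = lin a`, `a i ≠ 0`, then with the product `q`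
of the two other variables, `cf 1 1 1 (l * q) = a i ≠ 0`, so `w = w' - C t * l * q` is in `cubics K` (BR.mem_cubics) for a suitable
`t`, and `rs s r w = rs s r w'`.
-/

namespace Pool.Agent.BE

open MvPolynomial Submodule Module Pool.Agent.BR

variable {K : Type*} [Field K]

theorem rs_X (s r : Fin 3 → K) (i : Fin 3) :
    rs s r (X i : Pol K) = Polynomial.C (s i) + Polynomial.C (r i) * Polynomial.X := by
  simp [rs]

theorem rs_C (s r : Fin 3 → K) (c : K) : rs s r (C c : Pol K) = Polynomial.C c := by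
  simp [rs]

theorem rs_natDegree (s r : Fin 3 → K) {d : ℕ} {f : Pol K} (hf : f ∈ H K d) : (rs s r f).natDegree ≤ d := by
  rw [f.as_sum, map_sum]
  apply Polynomial.natDegree_sum_le_of_forall_le
  intro m hm
  have hd : m.degree = d := by
    by_contra hcon
    exact (mem_support_iff.1 hm) (IsHomogeneous.coeff_eq_zero hf hcon)
  rw [rs, aeval_monomial]
  have h1 : (algebraMap K (Polynomial K) (coeff m f)).natDegree = 0 := by
    rw [Polynomial.algebraMap_apply]
    simp
  refine Polynomial.natDegree_mul_le.trans ?_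
  rw [h1, zero_add, Finsupp.prod_fintype _ _ (fun i => pow_zero _)]
  refine (Polynomial.natDegree_prod_le _ _).trans ?_
  have h2 : ∀ i : Fin 3, ((Polynomial.C (s i) + Polynomial.C (r i) * Polynomial.X) ^ m i : Polynomial K).natDegree
      ≤ m i := by
    intro i
    refine Polynomial.natDegree_pow_le.trans ?_
    have h3 : (Polynomial.C (s i) + Polynomial.C (r i) * Polynomial.X : Polynomial K).natDegree ≤ 1 := by
      rw [add_comm]
      exact Polynomial.natDegree_linear_le
    calc m i * (Polynomial.C (s i) + Polynomial.C (r i) * Polynomial.X : Polynomial K).natDegree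
        ≤ m i * 1 := Nat.mul_le_mul_left _ h3
      _ = m i := Nat.mul_one _
  calc ∑ i : Fin 3, ((Polynomial.C (s i) + Polynomial.C (r i) * Polynomial.X) ^ m i : Polynomial K).natDegree
      ≤ ∑ i : Fin 3, m i := Finset.sum_le_sum fun i _ => h2 i
    _ = m.degree := by rw [Finsupp.degree_eq_sum]
    _ ≤ d := hd.le

private theorem coeff_form (a b c e : K) :
    (Polynomial.C a + Polynomial.C b * Polynomial.X + Polynomial.C c * Polynomial.X ^ 2 +
      Polynomial.C e * Polynomial.X ^ 3 : Polynomial K).coeff 0 = a ∧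
    (Polynomial.C a + Polynomial.C b * Polynomial.X + Polynomial.C c * Polynomial.X ^ 2 +
      Polynomial.C e * Polynomial.X ^ 3 : Polynomial K).coeff 1 = b ∧
    (Polynomial.C a + Polynomial.C b * Polynomial.X + Polynomial.C c * Polynomial.X ^ 2 +
      Polynomial.C e * Polynomial.X ^ 3 : Polynomial K).coeff 2 = c ∧
    (Polynomial.C a + Polynomial.C b * Polynomial.X + Polynomial.C c * Polynomial.X ^ 2 +
      Polynomial.C e * Polynomial.X ^ 3 : Polynomial K).coeff 3 = e := by
  refine ⟨?_, ?_, ?_, ?_⟩ <;>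
    simp [Polynomial.coeff_X, Polynomial.coeff_X_pow, Polynomial.coeff_C]

theorem rs_XX (s r : Fin 3 → K) (i j : Fin 3) : (rs s r (X i * X j ^ 2 : Pol K)).coeff 0 = s i * s j ^ 2 ∧
    (rs s r (X i * X j ^ 2 : Pol K)).coeff 1 = r i * s j ^ 2 + 2 * (s i * s j * r j) ∧
    (rs s r (X i * X j ^ 2 : Pol K)).coeff 2 = s i * r j ^ 2 + 2 * (r i * s j * r j) ∧
    (rs s r (X i * X j ^ 2 : Pol K)).coeff 3 = r i * r j ^ 2 := by
  have h : rs s r (X i * X j ^ 2 : Pol K) = Polynomial.C (s i * s j ^ 2) +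
      Polynomial.C (r i * s j ^ 2 + 2 * (s i * s j * r j)) * Polynomial.X +
      Polynomial.C (s i * r j ^ 2 + 2 * (r i * s j * r j)) * Polynomial.X ^ 2 +
      Polynomial.C (r i * r j ^ 2) * Polynomial.X ^ 3 := by
    rw [map_mul, map_pow, rs_X, rs_X]
    simp only [map_add, map_mul, map_pow, map_ofNat]
    ring
  rw [h]
  exact coeff_form _ _ _ _

private theorem rs_lin (s r a : Fin 3 → K) :
    rs s r (lin a) = Polynomial.C (∑ i, a i * s i) + Polynomial.C (∑ i, a i * r i) * Polynomial.X := by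
  rw [lin]
  simp only [map_add, map_mul, rs_X, rs_C, Fin.sum_univ_three]
  ring

/-- dual vectors -/
private theorem dual_exists {s r : Fin 3 → K} (hsr : LinearIndependent K ![s, r]) (x y : K) :
    ∃ a : Fin 3 → K, ∑ i, a i * s i = x ∧ ∑ i, a i * r i = y := by
  obtain ⟨g, hg⟩ := LinearMap.exists_leftInverse_of_injective (Fintype.linearCombination K (![s, r] : Fin 2 → Fin 3 → K))
    (LinearMap.ker_eq_bot.2 (linearIndependent_iff_injective_fintypeLinearCombination.1 hsr))
  have hgs : g s = Pi.single 0 1 := by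
    have h1 := DFunLike.congr_fun hg (Pi.single 0 1)
    rw [LinearMap.comp_apply, Fintype.linearCombination_apply_single, LinearMap.id_apply] at h1
    simpa using h1
  have hgr : g r = Pi.single 1 1 := by
    have h1 := DFunLike.congr_fun hg (Pi.single 1 1)
    rw [LinearMap.comp_apply, Fintype.linearCombination_apply_single, LinearMap.id_apply] at h1
    simpa using h1
  let φ : (Fin 3 → K) →ₗ[K] K := x • (LinearMap.proj 0 ∘ₗ g) + y • (LinearMap.proj 1 ∘ₗ g)
  have hsum : ∀ u : Fin 3 → K, ∑ i, φ (Pi.single i 1) * u i = φ u := by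
    intro u
    conv_rhs => rw [pi_eq_sum_univ' u, map_sum]
    refine Finset.sum_congr rfl fun i _ => ?_
    rw [map_smul, smul_eq_mul, mul_comm]
  refine ⟨fun i => φ (Pi.single i 1), ?_, ?_⟩
  · rw [hsum]
    simp [φ, hgs]
  · rw [hsum]
    simp [φ, hgr]

theorem line_onto {s r : Fin 3 → K} (hsr : LinearIndependent K ![s, r]) (c : Fin 4 → K) :
    ∃ w ∈ cubics K, ∀ k : Fin 4, (rs s r w).coeff k = c k := by
  obtain ⟨σ, hσs, hσr⟩ := dual_exists hsr 1 0
  obtain ⟨τ, hτs, hτr⟩ := dual_exists hsr 0 1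
  have eσ : rs s r (lin σ) = 1 := by rw [rs_lin, hσs, hσr]; simp
  have eτ : rs s r (lin τ) = Polynomial.X := by rw [rs_lin, hτs, hτr]; simp
  -- a nonzero linear form vanishing at both points
  obtain ⟨a, ha0, has, har⟩ : ∃ a : Fin 3 → K, a ≠ 0 ∧ ∑ i, a i * s i = 0 ∧ ∑ i, a i * r i = 0 := by
    let f : (Fin 3 → K) →ₗ[K] (Fin 2 → K) :=
      LinearMap.pi ![∑ i, s i • LinearMap.proj i, ∑ i, r i • LinearMap.proj i]
    have hker : 0 < finrank K ↥(LinearMap.ker f) := by
      have h1 := LinearMap.finrank_range_add_finrank_ker f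
      have h2 : finrank K ↥(LinearMap.range f) ≤ finrank K (Fin 2 → K) := Submodule.finrank_le _
      rw [Module.finrank_fin_fun] at h2
      rw [Module.finrank_fin_fun] at h1
      omega
    have : Nontrivial ↥(LinearMap.ker f) := Module.finrank_pos_iff.1 hker
    obtain ⟨⟨w, hw⟩, hw0⟩ := exists_ne (0 : ↥(LinearMap.ker f))
    refine ⟨w, fun h => hw0 (Subtype.ext h), ?_, ?_⟩
    · have h := congrFun (LinearMap.mem_ker.1 hw) 0
      simp only [f, LinearMap.pi_apply, Matrix.cons_val_zero, LinearMap.sum_apply, LinearMap.smul_apply,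
        LinearMap.proj_apply, smul_eq_mul, Pi.zero_apply] at h
      rw [← h]
      exact Finset.sum_congr rfl fun i _ => mul_comm _ _
    · have h := congrFun (LinearMap.mem_ker.1 hw) 1
      simp only [f, LinearMap.pi_apply, Matrix.cons_val_one, Matrix.cons_val_fin_one, LinearMap.sum_apply,
        LinearMap.smul_apply, LinearMap.proj_apply, smul_eq_mul, Pi.zero_apply] at h
      rw [← h]
      exact Finset.sum_congr rfl fun i _ => mul_comm _ _
  have el : rs s r (lin a) = 0 := by rw [rs_lin, has, har]; simp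
  -- a quadric `q` with `cf 1 1 1 (lin a * q) ≠ 0`
  obtain ⟨q, hq, hcf⟩ : ∃ q ∈ H K 2, cf 1 1 1 (lin a * q) ≠ 0 := by
    obtain ⟨i, hi⟩ := Function.ne_iff.1 ha0
    rw [Pi.zero_apply] at hi
    have hX : ∀ i j : Fin 3, (X i * X j : Pol K) ∈ H K 2 := fun i j =>
      mul_mem_H (a := 1) (b := 1) (isHomogeneous_X _ _) (isHomogeneous_X _ _)
    have e0 : cf 1 1 1 (lin a * (X 1 * X 2) : Pol K) = a 0 := by
      rw [lin_mul]
      simp only [map_add, cf_C_mul]
      have h0 : (X 0 * (X 1 * X 2) : Pol K) = X 0 ^ 1 * X 1 ^ 1 * X 2 ^ 1 := by ring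
      have h1 : (X 1 * (X 1 * X 2) : Pol K) = X 0 ^ 0 * X 1 ^ 2 * X 2 ^ 1 := by ring
      have h2 : (X 2 * (X 1 * X 2) : Pol K) = X 0 ^ 0 * X 1 ^ 1 * X 2 ^ 2 := by ring
      rw [h0, h1, h2, cf_mono, cf_mono, cf_mono]
      norm_num
    have e1 : cf 1 1 1 (lin a * (X 0 * X 2) : Pol K) = a 1 := by
      rw [lin_mul]
      simp only [map_add, cf_C_mul]
      have h0 : (X 0 * (X 0 * X 2) : Pol K) = X 0 ^ 2 * X 1 ^ 0 * X 2 ^ 1 := by ring
      have h1 : (X 1 * (X 0 * X 2) : Pol K) = X 0 ^ 1 * X 1 ^ 1 * X 2 ^ 1 := by ring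
      have h2 : (X 2 * (X 0 * X 2) : Pol K) = X 0 ^ 1 * X 1 ^ 0 * X 2 ^ 2 := by ring
      rw [h0, h1, h2, cf_mono, cf_mono, cf_mono]
      norm_num
    have e2 : cf 1 1 1 (lin a * (X 0 * X 1) : Pol K) = a 2 := by
      rw [lin_mul]
      simp only [map_add, cf_C_mul]
      have h0 : (X 0 * (X 0 * X 1) : Pol K) = X 0 ^ 2 * X 1 ^ 1 * X 2 ^ 0 := by ring
      have h1 : (X 1 * (X 0 * X 1) : Pol K) = X 0 ^ 1 * X 1 ^ 2 * X 2 ^ 0 := by ring
      have h2 : (X 2 * (X 0 * X 1) : Pol K) = X 0 ^ 1 * X 1 ^ 1 * X 2 ^ 1 := by ring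
      rw [h0, h1, h2, cf_mono, cf_mono, cf_mono]
      norm_num
    fin_cases i
    · exact ⟨X 1 * X 2, hX 1 2, by rw [e0]; exact hi⟩
    · exact ⟨X 0 * X 2, hX 0 2, by rw [e1]; exact hi⟩
    · exact ⟨X 0 * X 1, hX 0 1, by rw [e2]; exact hi⟩
  set w' : Pol K := C (c 0) * lin σ ^ 3 + C (c 1) * (lin σ ^ 2 * lin τ) + C (c 2) * (lin σ * lin τ ^ 2) +
    C (c 3) * lin τ ^ 3 with hw'
  have hw3 : w' ∈ H K 3 := by
    have hs := lin_mem (K := K) σ
    have ht := lin_mem (K := K) τ
    have m3 : ∀ f g h : Pol K, f ∈ H K 1 → g ∈ H K 1 → h ∈ H K 1 → f * g * h ∈ H K 3 := fun f g h hf hg hh =>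
      mul_mem_H (a := 2) (b := 1) (mul_mem_H (a := 1) (b := 1) hf hg) hh
    have hc : ∀ (k : K) (f : Pol K), f ∈ H K 3 → C k * f ∈ H K 3 := fun k f hf => by
      rw [← smul_eq_C_mul]
      exact smul_mem _ _ hf
    rw [hw']
    refine add_mem (add_mem (add_mem ?_ ?_) ?_) ?_
    · refine hc _ _ ?_
      have := m3 _ _ _ hs hs hs
      have e : lin σ ^ 3 = lin σ * lin σ * lin σ := by ring
      rw [e]
      exact this
    · refine hc _ _ ?_
      have := m3 _ _ _ hs hs ht
      have e : lin σ ^ 2 * lin τ = lin σ * lin σ * lin τ := by ring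
      rw [e]
      exact this
    · refine hc _ _ ?_
      have := m3 _ _ _ hs ht ht
      have e : lin σ * lin τ ^ 2 = lin σ * lin τ * lin τ := by ring
      rw [e]
      exact this
    · refine hc _ _ ?_
      have := m3 _ _ _ ht ht ht
      have e : lin τ ^ 3 = lin τ * lin τ * lin τ := by ring
      rw [e]
      exact this
  have ew : rs s r w' = Polynomial.C (c 0) + Polynomial.C (c 1) * Polynomial.X +
      Polynomial.C (c 2) * Polynomial.X ^ 2 + Polynomial.C (c 3) * Polynomial.X ^ 3 := by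
    rw [hw']
    simp only [map_add, map_mul, map_pow, rs_C, eσ, eτ]
    ring
  set t : K := cf 1 1 1 w' / cf 1 1 1 (lin a * q) with ht
  refine ⟨w' - C t * (lin a * q), ?_, ?_⟩
  · rw [mem_cubics]
    constructor
    · refine sub_mem hw3 ?_
      rw [← smul_eq_C_mul]
      exact smul_mem _ _ (mul_mem_H (a := 1) (b := 2) (lin_mem a) hq)
    · rw [map_sub, cf_C_mul, ht, div_mul_cancel₀ _ hcf, sub_self]
  · have e : rs s r (w' - C t * (lin a * q)) = rs s r w' := by
      rw [map_sub, map_mul, map_mul, el]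
      simp
    intro k
    rw [e, ew]
    obtain ⟨h0, h1, h2, h3⟩ := coeff_form (c 0) (c 1) (c 2) (c 3)
    fin_cases k
    · exact h0
    · exact h1
    · exact h2
    · exact h3

/-- a functional given on the monomials by its restriction to a line -/
theorem g_line {g : Pol K →ₗ[K] K} {s r : Fin 3 → K} {h : Fin 4 → K}
    (hG : ∀ i j, GG g i j = h 0 * (s i * s j ^ 2) + h 1 * (r i * s j ^ 2 + 2 * (s i * s j * r j)) +
      h 2 * (s i * r j ^ 2 + 2 * (r i * s j * r j)) + h 3 * (r i * r j ^ 2)) {w : Pol K} (hw : w ∈ cubics K) :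
    g w = ∑ k : Fin 4, h k * (rs s r w).coeff k := by
  have h1 : ∀ i j, GG g i j = ∑ k : Fin 4, h k * (rs s r (X i * X j ^ 2 : Pol K)).coeff k := by
    intro i j
    obtain ⟨a0, a1, a2, a3⟩ := rs_XX s r i j
    rw [hG, Fin.sum_univ_four]
    simp only [Fin.val_zero, Fin.val_one, Fin.val_two]
    have e3 : ((3 : Fin 4) : ℕ) = 3 := rfl
    rw [e3, a0, a1, a2, a3]
  rw [g_expand hw g]
  have h2 : ∀ k : Fin 4, (rs s r w).coeff k =
      ∑ i, ∑ j, cm i j w * (rs s r (X i * X j ^ 2 : Pol K)).coeff k := by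
    intro k
    conv_lhs => rw [cubics_expand hw, map_sum, Polynomial.finsetSum_coeff]
    refine Finset.sum_congr rfl fun i _ => ?_
    rw [map_sum, Polynomial.finsetSum_coeff]
    refine Finset.sum_congr rfl fun j _ => ?_
    rw [map_mul, rs_C, Polynomial.coeff_C_mul]
  simp only [h1, h2, Finset.mul_sum]
  calc ∑ i, ∑ j, ∑ k, cm i j w * (h k * (rs s r (X i * X j ^ 2 : Pol K)).coeff k)
      = ∑ i, ∑ k : Fin 4, ∑ j, cm i j w * (h k * (rs s r (X i * X j ^ 2 : Pol K)).coeff k) :=
        Finset.sum_congr rfl fun i _ => Finset.sum_comm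
    _ = ∑ k : Fin 4, ∑ i, ∑ j, cm i j w * (h k * (rs s r (X i * X j ^ 2 : Pol K)).coeff k) := Finset.sum_comm
    _ = ∑ k : Fin 4, ∑ i, ∑ j, h k * (cm i j w * (rs s r (X i * X j ^ 2 : Pol K)).coeff k) :=
        Finset.sum_congr rfl fun k _ => Finset.sum_congr rfl fun i _ => Finset.sum_congr rfl fun j _ => by ring

end Pool.Agent.BE
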