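import Pool.Agent.Work.MP_be705b_al.E.BDefs
import Pool.Agent.Work.MP_be705b_al.E.Line

/-!
# MP_be705b_al, elimination: base points, relations of degree two

PROOF of brel. `ν j = p j ^ 2`.  For `w ∈ cubics K`: `eval p w = ∑ i, p i * Ln ν w i` (cubics_expand).  So the hypotheses of diag_zero hold and
`D a = 0` for `p a ≠ 0`.  Let `p a = 0` and `e = Pi.single a 1`.  For `w ∈ cubics K` the coefficient of `X` in `rs p e w` is `Ln ν w a`
(cubics_expand: `X i * X j ^ 2` restricts to `(p i + [i = a] X) (p j + [j = a] X) ^ 2`; the coefficient of `X` is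
`[i = a] p j ^ 2 + 2 [j = a] p i p j`, and `[j = a] p j = 0`), the constant coefficient is `eval p w`.  For `w, w' ∈ U v` the constant
coefficients are zero, so the coefficient of `X ^ 2` in `rs p e (w * w')` is `Ln ν w a * Ln ν w' a`.  Sum over the relation: `D a = 0`.
Now form_zero.

PROOF of mem_of. For `l, a : Fin 3 → K`: `lin l * sq a ∈ cubics K`, `eval p (lin l * sq a) = dot l p * ∑ a j p j ^ 2`,
`Ln ν (lin l * sq a) = (dot a ν) • l`.
-/

set_option autoImplicit false
set_option linter.unusedSectionVars false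
set_option linter.unusedVariables false

/-!
# MP_be705b_al, elimination: base points, relations of degree two

PROOF of brel. `ν j = p j ^ 2`.  For `w ∈ cubics K`: `eval p w = ∑ i, p i * Ln ν w i` (cubics_expand).  So the hypotheses of diag_zero hold and
`D a = 0` for `p a ≠ 0`.  Let `p a = 0` and `e = Pi.single a 1`.  For `w ∈ cubics K` the coefficient of `X` in `rs p e w` is `Ln ν w a`
(cubics_expand: `X i * X j ^ 2` restricts to `(p i + [i = a] X) (p j + [j = a] X) ^ 2`; the coefficient of `X` is
`[i = a] p j ^ 2 + 2 [j = a] p i p j`, and `[j = a] p j = 0`), the constant coefficient is `eval p w`.  For `w, w' ∈ U v` the constant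
coefficients are zero, so the coefficient of `X ^ 2` in `rs p e (w * w')` is `Ln ν w a * Ln ν w' a`.  Sum over the relation: `D a = 0`.
Now form_zero.

PROOF of mem_of. For `l, a : Fin 3 → K`: `lin l * sq a ∈ cubics K`, `eval p (lin l * sq a) = dot l p * ∑ a j p j ^ 2`,
`Ln ν (lin l * sq a) = (dot a ν) • l`.
-/

namespace Pool.Agent.BE

open MvPolynomial Submodule Module Pool.Agent.BR

variable {K : Type*} [Field K]

private theorem rs_coeff_expand (s r : Fin 3 → K) {w : Pol K} (hw : w ∈ cubics K) (k : ℕ) :
    (rs s r w).coeff k = ∑ i, ∑ j, cm i j w * (rs s r (X i * X j ^ 2 : Pol K)).coeff k := by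
  conv_lhs => rw [cubics_expand hw]
  rw [map_sum, Polynomial.finsetSum_coeff]
  refine Finset.sum_congr rfl fun i _ => ?_
  rw [map_sum, Polynomial.finsetSum_coeff]
  refine Finset.sum_congr rfl fun j _ => ?_
  rw [map_mul, rs_C, Polynomial.coeff_C_mul]

private theorem eval_cubic (p : Fin 3 → K) {w : Pol K} (hw : w ∈ cubics K) :
    ∑ j, p j * Ln (fun j => p j ^ 2) w j = eval p w := by
  conv_rhs => rw [cubics_expand hw]
  rw [map_sum]
  refine Finset.sum_congr rfl fun i _ => ?_
  rw [map_sum, Ln_apply, Finset.mul_sum]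
  refine Finset.sum_congr rfl fun j _ => ?_
  rw [map_mul, map_mul, map_pow, eval_C, eval_X, eval_X]
  ring

theorem brel {v : Fin 8 → Pol K} (hv : QV v) {p : Fin 3 → K} (hp : BPt v p) (h2 : (2 : K) ≠ 0) :
    Rel0 v (Ln fun j => p j ^ 2) := by
  intro u' hu' hrel
  have hcu : ∀ i, v i ∈ cubics K := hv.mem
  have hcu' : ∀ i, u' i ∈ cubics K := fun i => ((hp _).1 (hu' i)).1
  have he : ∀ i, eval p (v i) = 0 := fun i => ((hp _).1 (v_mem v i)).2
  have he' : ∀ i, eval p (u' i) = 0 := fun i => ((hp _).1 (hu' i)).2
  refine form_zero hcu hcu' hrel fun a => ?_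
  by_cases ha : p a = 0
  · -- restriction to the line through `p` and the coordinate point
    set e : Fin 3 → K := Pi.single a 1 with hedef
    have h0 : ∀ w : Pol K, w ∈ cubics K → (rs p e w).coeff 0 = eval p w := by
      intro w hw
      rw [rs_coeff_expand p e hw, ← eval_cubic p hw]
      refine Finset.sum_congr rfl fun i _ => ?_
      rw [Ln_apply, Finset.mul_sum]
      refine Finset.sum_congr rfl fun j _ => ?_
      rw [(rs_XX p e i j).1]
      ring
    have h1 : ∀ w : Pol K, w ∈ cubics K → (rs p e w).coeff 1 = Ln (fun j => p j ^ 2) w a := by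
      intro w hw
      rw [rs_coeff_expand p e hw, Ln_apply, Finset.sum_eq_single a]
      · refine Finset.sum_congr rfl fun j _ => ?_
        rw [(rs_XX p e a j).2.1, ha, hedef, Pi.single_eq_same]
        ring
      · intro i _ hia
        refine Finset.sum_eq_zero fun j _ => ?_
        rw [(rs_XX p e i j).2.1, hedef, Pi.single_eq_of_ne hia]
        by_cases hj : j = a
        · rw [hj, ha]; ring
        · rw [Pi.single_eq_of_ne hj]; ring
      · intro h
        exact absurd (Finset.mem_univ a) h
    have h3 : ∑ i, (rs p e (v i) * rs p e (u' i)).coeff 2 = 0 := by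
      rw [← Polynomial.finsetSum_coeff]
      have : ∑ i, rs p e (v i) * rs p e (u' i) = rs p e (∑ i, v i * u' i) := by
        rw [map_sum]
        exact Finset.sum_congr rfl fun i _ => (map_mul _ _ _).symm
      rw [this, hrel, map_zero, Polynomial.coeff_zero]
    rw [← h3]
    refine Finset.sum_congr rfl fun i _ => ?_
    have hcoef : ∀ f g : Polynomial K, f.coeff 0 = 0 → g.coeff 0 = 0 →
        (f * g).coeff 2 = f.coeff 1 * g.coeff 1 := by
      intro f g hf hg
      rw [Polynomial.coeff_mul]
      simp [Finset.Nat.antidiagonal_succ, hf, hg]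
    rw [hcoef _ _ (by rw [h0 _ (hcu i), he i]) (by rw [h0 _ (hcu' i), he' i]), h1 _ (hcu i), h1 _ (hcu' i)]
  · exact diag_zero hcu hcu' hrel h2 (fun i => by rw [eval_cubic p (hcu i), he i])
      (fun i => by rw [eval_cubic p (hcu' i), he' i]) ha

theorem mem_of (p l a : Fin 3 → K) : lin l * BR.sq a ∈ cubics K ∧
    eval p (lin l * BR.sq a) = dot l p * dot a (fun j => p j ^ 2) ∧
    Ln (fun j => p j ^ 2) (lin l * BR.sq a) = dot a (fun j => p j ^ 2) • l := by
  have hexp : lin l * BR.sq a = ∑ i, ∑ j, (l i * a j) • (X i * X j ^ 2 : Pol K) := by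
    simp only [smul_eq_C_mul, Fin.sum_univ_three, lin, BR.sq, map_mul]
    ring
  refine ⟨?_, ?_, ?_⟩
  · have h := Submodule.mul_mem_mul (sq_mem_N a) (lin_mem l)
    rw [N_mul_H1, mul_comm] at h
    exact h
  · simp only [lin, BR.sq, dot, map_mul, map_add, map_pow, eval_C, eval_X]
  · funext k
    rw [Ln_apply, Pi.smul_apply, smul_eq_mul]
    have hcm : ∀ j, cm k j (lin l * BR.sq a) = l k * a j := by
      intro j
      rw [hexp, map_sum, Finset.sum_eq_single k]
      · rw [map_sum, Finset.sum_eq_single j]
        · rw [map_smul, cm_XX, if_pos ⟨rfl, rfl⟩, smul_eq_mul, mul_one]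
        · intro b _ hb
          rw [map_smul, cm_XX, if_neg fun h => hb h.2.symm, smul_zero]
        · intro h
          exact absurd (Finset.mem_univ j) h
      · intro b _ hb
        rw [map_sum]
        refine Finset.sum_eq_zero fun j' _ => ?_
        rw [map_smul, cm_XX, if_neg fun h => hb h.1.symm, smul_zero]
      · intro h
        exact absurd (Finset.mem_univ k) h
    simp only [hcm, Fin.sum_univ_three, dot]
    ring

end Pool.Agent.BE
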