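import Pool.Agent.Work.MP_be705b_al.E.BRel

set_option autoImplicit false
set_option linter.unusedSectionVars false
set_option linter.unusedVariables false

/-!
# MP_be705b_al, elimination: base point with exactly one zero coordinate, characteristic not two

PROOF. Let `a = p_j x_i - p_i x_j` and `u1 = x_i^2 a`, `u2 = x_i^2 x_k`, `u3 = x_i (p_j^2 x_i^2 - p_i^2 x_j^2)`, `u4 = x_i x_k^2`.  All are
`lin l * sq m` with `dot l p * dot m (p^2) = 0` (`p_k = 0`), so they are in `U v` (mem_of, hp).  Identity (`ring`):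
   `2 p_j u1 u2^2 = u3 u2^2 + u4 u1^2`.
With `L = Ln (p^2)`: `L u3 = 0`, `L u4 = 0` (as `p_k = 0`), `L u1 = p_i^2 a`, `L u2 = p_i^2 e_k`.  By `t30` (brel):
`2 p_j p_i^6 (lin a) x_k^2 = 0`, a contradiction.
-/

namespace Pool.Agent.BE

open MvPolynomial Submodule Module Pool.Agent.BR

variable {K : Type*} [Field K]

/-- a vector given by its values at `i`, `j`, `k` -/
private def vec (i j : Fin 3) (a b c : K) : Fin 3 → K := fun t => if t = i then a else if t = j then b else c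

private theorem vec_i (i j : Fin 3) (a b c : K) : vec i j a b c i = a := if_pos rfl

private theorem vec_j {i j : Fin 3} (hij : i ≠ j) (a b c : K) : vec i j a b c j = b := by
  rw [vec, if_neg hij.symm, if_pos rfl]

private theorem vec_k {i j k : Fin 3} (hik : i ≠ k) (hjk : j ≠ k) (a b c : K) : vec i j a b c k = c := by
  rw [vec, if_neg hik.symm, if_neg hjk.symm]

private theorem sum3 {M : Type*} [AddCommMonoid M] (f : Fin 3 → M) {i j k : Fin 3}
    (hij : i ≠ j) (hik : i ≠ k) (hjk : j ≠ k) : f 0 + f 1 + f 2 = f i + f j + f k := by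
  fin_cases i <;> fin_cases j <;> fin_cases k <;> first
    | exact absurd rfl hij
    | exact absurd rfl hik
    | exact absurd rfl hjk
    | (simp only [Fin.zero_eta, Fin.mk_one, Fin.reduceFinMk]; done)
    | (simp only [Fin.zero_eta, Fin.mk_one, Fin.reduceFinMk]; abel)

theorem base2 {v : Fin 8 → Pol K} (hv : QV v) {p : Fin 3 → K} (hp : BPt v p) (h2 : (2 : K) ≠ 0) {i j k : Fin 3}
    (hij : i ≠ j) (hik : i ≠ k) (hjk : j ≠ k) (hi : p i ≠ 0) (hj : p j ≠ 0) (hk : p k = 0) : False := by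
  have hdot : ∀ a b : Fin 3 → K, dot a b = a i * b i + a j * b j + a k * b k := fun a b =>
    sum3 (fun t => a t * b t) hij hik hjk
  have hlin : ∀ a : Fin 3 → K, lin a = C (a i) * X i + C (a j) * X j + C (a k) * X k := fun a =>
    sum3 (fun t => (C (a t) * X t : Pol K)) hij hik hjk
  have hsq : ∀ a : Fin 3 → K, BR.sq a = C (a i) * X i ^ 2 + C (a j) * X j ^ 2 + C (a k) * X k ^ 2 := fun a =>
    sum3 (fun t => (C (a t) * X t ^ 2 : Pol K)) hij hik hjk
  let l : Fin 4 → Fin 3 → K := ![vec i j (p j) (-p i) 0, vec i j 0 0 1, vec i j 1 0 0, vec i j 1 0 0]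
  let m : Fin 4 → Fin 3 → K := ![vec i j 1 0 0, vec i j 1 0 0, vec i j (p j ^ 2) (-p i ^ 2) 0, vec i j 0 0 1]
  let u : Fin 4 → Pol K := fun t => lin (l t) * BR.sq (m t)
  have hu : ∀ t, u t ∈ U v := by
    intro t
    rw [hp]
    refine ⟨(mem_of p (l t) (m t)).1, ?_⟩
    show eval p (lin (l t) * BR.sq (m t)) = 0
    rw [(mem_of p (l t) (m t)).2.1, hdot, hdot]
    fin_cases t <;> simp [l, m, vec_i, vec_j hij, vec_k hik hjk, hk, -mul_eq_zero] <;> ring_nf
  let P : MvPolynomial (Fin 4) K := C (2 * p j) * (X 0 * X 1 ^ 2) - (X 2 * X 1 ^ 2 + X 3 * X 0 ^ 2)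
  have hP : aeval u P = 0 := by
    have e : ∀ k : K, algebraMap K (Pol K) k = C k := fun _ => rfl
    simp only [P, u, l, m, map_sub, map_add, map_mul, map_pow, aeval_X, aeval_C, hlin, hsq, e,
      Matrix.cons_val, vec_i, vec_j hij, vec_k hik hjk, map_neg, map_zero, map_one]
    simp only [map_ofNat]
    ring
  have h4 := t30 hv (brel hv hp h2) hu hP
  have hL : ∀ t, lin (Ln (fun j => p j ^ 2) (u t)) = C (dot (m t) (fun j => p j ^ 2)) * lin (l t) := by
    intro t
    rw [(mem_of p (l t) (m t)).2.2, lin_smul]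
  have e : ∀ k : K, algebraMap K (Pol K) k = C k := fun _ => rfl
  simp only [hL, P, map_sub, map_add, map_mul, map_pow, aeval_X, aeval_C, e] at h4
  have d0 : dot (m 0) (fun j => p j ^ 2) = p i ^ 2 := by
    rw [hdot]; simp [m, vec_i, vec_j hij, vec_k hik hjk]
  have d1 : dot (m 1) (fun j => p j ^ 2) = p i ^ 2 := by
    rw [hdot]; simp [m, vec_i, vec_j hij, vec_k hik hjk]
  have d2 : dot (m 2) (fun j => p j ^ 2) = 0 := by
    rw [hdot]; simp [m, vec_i, vec_j hij, vec_k hik hjk]; ring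
  have d3 : dot (m 3) (fun j => p j ^ 2) = 0 := by
    rw [hdot]; simp [m, vec_i, vec_j hij, vec_k hik hjk, hk]
  rw [d0, d1, d2, d3] at h4
  simp only [C_0, zero_mul, add_zero, sub_zero] at h4
  have hC : ∀ k : K, k ≠ 0 → (C k : Pol K) ≠ 0 := fun k hk => by
    rwa [Ne, C_eq_zero]
  have hl0 : lin (l 0) ≠ 0 := by
    rw [Ne, lin_eq_zero]
    intro h5
    have h6 := congrFun h5 i
    simp only [l, Matrix.cons_val, vec_i, Pi.zero_apply] at h6
    exact hj h6
  have hl1 : lin (l 1) ≠ 0 := by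
    rw [Ne, lin_eq_zero]
    intro h5
    have h6 := congrFun h5 k
    simp only [l, Matrix.cons_val, vec_k hik hjk, Pi.zero_apply] at h6
    exact one_ne_zero h6
  have hp2 : (C (p i) ^ 2 : Pol K) ≠ 0 := pow_ne_zero 2 (hC _ hi)
  have hp2' : (C (p i ^ 2) : Pol K) ≠ 0 := hC _ (pow_ne_zero 2 hi)
  refine absurd h4 ?_
  simp only [map_pow]
  refine mul_ne_zero (mul_ne_zero ?_ (hC _ hj)) (mul_ne_zero (mul_ne_zero hp2 hl0)
    (pow_ne_zero 2 (mul_ne_zero hp2 hl1)))
  exact hC _ h2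

end Pool.Agent.BE
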