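import Pool.Agent.Work.MP_be705b_al.E.BDefs

set_option autoImplicit false
set_option linter.unusedSectionVars false
set_option linter.unusedVariables false

/-!
# MP_be705b_al, elimination: base point `(1, 0, 0)`, any characteristic

PROOF. For `u ∈ cubics K`, `eval ![1,0,0] u` is the coefficient of `x^3` (cf 3 0 0), so `U v` is the space of all `u ∈ cubics K` with
`cf 3 0 0 u = 0`; it contains the monomials `x^2 y, x z^2, x^2 z, x y^2` (BR.mono_mem_cubics, BR.cf_mono).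
Let `lam : Pol K →ₗ[K] Pol K`, `lam w = C (cf 2 1 0 w) * X 0 + C (cf 1 0 2 w) * X 1` and let `J` be the ideal of `X 1 ^ 2`.  For
`w, w' ∈ U v`: `cf 4 2 0 (w * w') = cf 2 1 0 w * cf 2 1 0 w'` (other factorizations of `x^4 y^2` use `x^3`), and
`cf 3 1 2 (w * w') = cf 2 1 0 w * cf 1 0 2 w' + cf 1 0 2 w * cf 2 1 0 w'` (the other factorizations of `x^3 y z^2` use `x^3` or `x y z`).
So for a relation `∑ v i * u' i = 0` the coefficients of `X 0 ^ 2` and of `X 0 * X 1` in `∑ lam (v i) * lam (u' i)` are zero and this sum is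
a multiple of `X 1 ^ 2`.  Apply `t3` to `u = ![x^2 y, x z^2, x^2 z, x y^2]` and `P = X 0 ^ 2 * X 1 - X 2 ^ 2 * X 3`
(`(x^2 y)^2 (x z^2) = x^5 y^2 z^2 = (x^2 z)^2 (x y^2)`): `lam` maps `x^2 y ↦ X 0`, `x z^2 ↦ X 1`, `x^2 z ↦ 0`, `x y^2 ↦ 0`, so
`X 0 ^ 2 * X 1 ∈ J`, i.e. `X 1 ^ 2 ∣ X 0 ^ 2 * X 1`, which is false (compare coefficients: `cf 2 1 0`).
-/

namespace Pool.Agent.BE

open MvPolynomial Submodule Module Pool.Agent.BR

variable {K : Type*} [Field K]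

private theorem ex_le {a b c i j k : ℕ} : ex i j k ≤ ex a b c ↔ i ≤ a ∧ j ≤ b ∧ k ≤ c := by
  rw [Finsupp.le_def]
  constructor
  · intro h
    have h0 := h 0
    have h1 := h 1
    have h2 := h 2
    rw [ex_apply0, ex_apply0] at h0
    rw [ex_apply1, ex_apply1] at h1
    rw [ex_apply2, ex_apply2] at h2
    exact ⟨h0, h1, h2⟩
  · rintro ⟨h0, h1, h2⟩ x
    fin_cases x
    · show ex i j k 0 ≤ ex a b c 0
      rwa [ex_apply0, ex_apply0]
    · show ex i j k 1 ≤ ex a b c 1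
      rwa [ex_apply1, ex_apply1]
    · show ex i j k 2 ≤ ex a b c 2
      rwa [ex_apply2, ex_apply2]

private theorem cf_mm (a b c i j k : ℕ) (f : Pol K) : cf a b c (X 0 ^ i * X 1 ^ j * X 2 ^ k * f) =
    if i ≤ a ∧ j ≤ b ∧ k ≤ c then cf (a - i) (b - j) (c - k) f else 0 := by
  rw [cf_apply, mono_eq, coeff_monomial_mul', one_mul]
  by_cases h : i ≤ a ∧ j ≤ b ∧ k ≤ c
  · rw [if_pos h, if_pos (ex_le.2 h), cf_apply]
    congr 1
    have h1 : ex a b c = ex i j k + ex (a - i) (b - j) (c - k) := by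
      rw [ex_add, Nat.add_sub_cancel' h.1, Nat.add_sub_cancel' h.2.1, Nat.add_sub_cancel' h.2.2]
    rw [h1, add_tsub_cancel_left]
  · rw [if_neg h, if_neg (fun h' => h (ex_le.1 h'))]

private theorem expand {w : Pol K} (hw : w ∈ cubics K) :
    C (cf 3 0 0 w) * (X 0 ^ 3 * X 1 ^ 0 * X 2 ^ 0) + C (cf 2 1 0 w) * (X 0 ^ 2 * X 1 ^ 1 * X 2 ^ 0) +
    C (cf 2 0 1 w) * (X 0 ^ 2 * X 1 ^ 0 * X 2 ^ 1) + C (cf 1 2 0 w) * (X 0 ^ 1 * X 1 ^ 2 * X 2 ^ 0) +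
    C (cf 1 0 2 w) * (X 0 ^ 1 * X 1 ^ 0 * X 2 ^ 2) + C (cf 0 3 0 w) * (X 0 ^ 0 * X 1 ^ 3 * X 2 ^ 0) +
    C (cf 0 2 1 w) * (X 0 ^ 0 * X 1 ^ 2 * X 2 ^ 1) + C (cf 0 1 2 w) * (X 0 ^ 0 * X 1 ^ 1 * X 2 ^ 2) +
    C (cf 0 0 3 w) * (X 0 ^ 0 * X 1 ^ 0 * X 2 ^ 3) = w := by
  have hm := mem_cubics.1 hw
  have hc : ∀ (k : K) {a b c : ℕ}, a + b + c = 3 → C k * (X 0 ^ a * X 1 ^ b * X 2 ^ c : Pol K) ∈ H K 3 := by
    intro k a b c h
    rw [← smul_eq_C_mul]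
    exact smul_mem _ _ (mono_mem' h)
  refine H_ext (d := 3) ?_ hm.1 ?_
  · refine add_mem (add_mem (add_mem (add_mem (add_mem (add_mem (add_mem (add_mem ?_ ?_) ?_) ?_) ?_) ?_) ?_) ?_) ?_
    all_goals exact hc _ (by norm_num)
  · intro a b c habc
    have ha : a ≤ 3 := by omega
    have hb : b ≤ 3 := by omega
    have h1 := hm.2
    obtain rfl : c = 3 - a - b := by omega
    simp only [map_add, cf_C_mul, cf_mono]
    interval_cases a <;> interval_cases b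
    all_goals first
      | omega
      | norm_num [h1]

private theorem cf420_mul {w w' : Pol K} (hw : w ∈ cubics K) (h0 : cf 3 0 0 w = 0) (h0' : cf 3 0 0 w' = 0) :
    cf 4 2 0 (w * w') = cf 2 1 0 w * cf 2 1 0 w' := by
  conv_lhs => rw [← expand hw]
  simp only [add_mul, map_add, mul_assoc (C _) _ w', cf_C_mul, cf_mm, h0, h0']
  norm_num [h0']

private theorem cf312_mul {w w' : Pol K} (hw : w ∈ cubics K) (hw' : w' ∈ cubics K) (h0 : cf 3 0 0 w = 0)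
    (h0' : cf 3 0 0 w' = 0) :
    cf 3 1 2 (w * w') = cf 2 1 0 w * cf 1 0 2 w' + cf 1 0 2 w * cf 2 1 0 w' := by
  have h1 := (mem_cubics.1 hw').2
  conv_lhs => rw [← expand hw]
  simp only [add_mul, map_add, mul_assoc (C _) _ w', cf_C_mul, cf_mm, h0, h0']
  norm_num [h0', h1]

theorem base3 {v : Fin 8 → Pol K} (hv : QV v) (hp : BPt v ![1, 0, 0]) : False := by
  have hev : ∀ u ∈ cubics K, eval ![1, 0, 0] u = cf 3 0 0 u := by
    intro u hu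
    conv_lhs => rw [← expand hu]
    simp
  have hU : ∀ u, u ∈ U v ↔ u ∈ cubics K ∧ cf 3 0 0 u = 0 := by
    intro u
    rw [hp u]
    constructor
    · rintro ⟨h1, h2⟩
      exact ⟨h1, by rw [← hev u h1]; exact h2⟩
    · rintro ⟨h1, h2⟩
      exact ⟨h1, by rw [hev u h1]; exact h2⟩
  let lam : Pol K →ₗ[K] Pol K := (LinearMap.toSpanSingleton K (Pol K) (X 0)).comp (cf 2 1 0) +
    (LinearMap.toSpanSingleton K (Pol K) (X 1)).comp (cf 1 0 2)
  have hlam : ∀ w, lam w = C (cf 2 1 0 w) * X 0 + C (cf 1 0 2 w) * X 1 := by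
    intro w
    rw [← smul_eq_C_mul, ← smul_eq_C_mul]
    rfl
  have h1 := t3 hv.quad lam (Ideal.span {(X 1 ^ 2 : Pol K)}) (fun u' hu' hs => ?_)
    (u := ![X 0 ^ 2 * X 1 ^ 1 * X 2 ^ 0, X 0 ^ 1 * X 1 ^ 0 * X 2 ^ 2, X 0 ^ 2 * X 1 ^ 0 * X 2 ^ 1,
      X 0 ^ 1 * X 1 ^ 2 * X 2 ^ 0]) (fun i => ?_)
    (P := X 0 ^ 2 * X 1 - X 2 ^ 2 * X 3) ?_
  · have h2 : aeval (fun i => lam ((![X 0 ^ 2 * X 1 ^ 1 * X 2 ^ 0, X 0 ^ 1 * X 1 ^ 0 * X 2 ^ 2,
        X 0 ^ 2 * X 1 ^ 0 * X 2 ^ 1, X 0 ^ 1 * X 1 ^ 2 * X 2 ^ 0] : Fin 4 → Pol K) i))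
        (X 0 ^ 2 * X 1 - X 2 ^ 2 * X 3 : MvPolynomial (Fin 4) K) = X 0 ^ 2 * X 1 ^ 1 * X 2 ^ 0 := by
      simp only [map_sub, map_mul, map_pow, aeval_X, hlam]
      simp only [Matrix.cons_val_zero, Matrix.cons_val_one, Matrix.cons_val]
      simp only [cf_mono]
      simp
    rw [h2, Ideal.mem_span_singleton] at h1
    obtain ⟨q, hq⟩ := h1
    have h3 := congrArg (cf 2 1 0) hq
    rw [cf_mono, if_pos ⟨rfl, rfl, rfl⟩] at h3
    have h4 : (X 1 ^ 2 * q : Pol K) = X 0 ^ 0 * X 1 ^ 2 * X 2 ^ 0 * q := by ring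
    rw [h4, cf_mm, if_neg (by omega)] at h3
    exact one_ne_zero h3
  · have hv' : ∀ i, v i ∈ cubics K ∧ cf 3 0 0 (v i) = 0 := fun i => (hU _).1 (v_mem v i)
    have hu2 : ∀ i, u' i ∈ cubics K ∧ cf 3 0 0 (u' i) = 0 := fun i => (hU _).1 (hu' i)
    have e1 : ∑ i, cf 2 1 0 (v i) * cf 2 1 0 (u' i) = 0 := by
      have h := congrArg (cf 4 2 0) hs
      rw [map_sum, map_zero] at h
      rw [← h]
      exact Finset.sum_congr rfl fun i _ => (cf420_mul (hv' i).1 (hv' i).2 (hu2 i).2).symm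
    have e2 : ∑ i, (cf 2 1 0 (v i) * cf 1 0 2 (u' i) + cf 1 0 2 (v i) * cf 2 1 0 (u' i)) = 0 := by
      have h := congrArg (cf 3 1 2) hs
      rw [map_sum, map_zero] at h
      rw [← h]
      exact Finset.sum_congr rfl fun i _ => (cf312_mul (hv' i).1 (hu2 i).1 (hv' i).2 (hu2 i).2).symm
    have e3 : ∑ i, lam (v i) * lam (u' i) =
        C (∑ i, cf 2 1 0 (v i) * cf 2 1 0 (u' i)) * X 0 ^ 2 +
        C (∑ i, (cf 2 1 0 (v i) * cf 1 0 2 (u' i) + cf 1 0 2 (v i) * cf 2 1 0 (u' i))) * (X 0 * X 1) +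
        C (∑ i, cf 1 0 2 (v i) * cf 1 0 2 (u' i)) * X 1 ^ 2 := by
      rw [map_sum, map_sum, map_sum, Finset.sum_mul, Finset.sum_mul, Finset.sum_mul,
        ← Finset.sum_add_distrib, ← Finset.sum_add_distrib]
      refine Finset.sum_congr rfl fun i _ => ?_
      rw [hlam, hlam, map_add, map_mul, map_mul, map_mul, map_mul]
      ring
    rw [e3, e1, e2, map_zero, zero_mul, zero_mul, zero_add, zero_add]
    exact Ideal.mul_mem_left _ _ (Ideal.subset_span rfl)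
  · rw [hU]
    fin_cases i
    · exact ⟨mono_mem_cubics (by norm_num) (by norm_num), by
        show cf 3 0 0 (X 0 ^ 2 * X 1 ^ 1 * X 2 ^ 0 : Pol K) = 0
        rw [cf_mono, if_neg (by omega)]⟩
    · exact ⟨mono_mem_cubics (by norm_num) (by norm_num), by
        show cf 3 0 0 (X 0 ^ 1 * X 1 ^ 0 * X 2 ^ 2 : Pol K) = 0
        rw [cf_mono, if_neg (by omega)]⟩
    · exact ⟨mono_mem_cubics (by norm_num) (by norm_num), by
        show cf 3 0 0 (X 0 ^ 2 * X 1 ^ 0 * X 2 ^ 1 : Pol K) = 0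
        rw [cf_mono, if_neg (by omega)]⟩
    · exact ⟨mono_mem_cubics (by norm_num) (by norm_num), by
        show cf 3 0 0 (X 0 ^ 1 * X 1 ^ 2 * X 2 ^ 0 : Pol K) = 0
        rw [cf_mono, if_neg (by omega)]⟩
  · simp only [map_sub, map_mul, map_pow, aeval_X]
    simp only [Matrix.cons_val_zero, Matrix.cons_val_one, Matrix.cons_val]
    ring

end Pool.Agent.BE
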