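import Pool.Agent.Work.MP_be705b_al.E.Trans
import Pool.Agent.Work.MP_be705b_al.E.Base3

set_option autoImplicit false
set_option linter.unusedSectionVars false
set_option linter.unusedVariables false

/-!
# MP_be705b_al, elimination: base points, reduction to `(1, 0, 0)`

See `Trans.lean` for the proofs of base_vertex and base_char2.
-/

namespace Pool.Agent.BE

open MvPolynomial Submodule Module Pool.Agent.BR

variable {K : Type*} [Field K]

private theorem stab (f : Pol K →ₐ[K] Pol K) (h : ∀ a b : Fin 3, f (X a * X b ^ 2) ∈ cubics K) :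
    ∀ w ∈ cubics K, f w ∈ cubics K := by
  intro w hw
  have h1 : span K (Set.range fun p : Fin 3 × Fin 3 => (X p.1 * X p.2 ^ 2 : Pol K)) ≤
      (cubics K).comap f.toLinearMap := by
    rw [span_le]
    rintro _ ⟨p, rfl⟩
    exact h p.1 p.2
  rw [Pool.Agent.BE.cubics_eq_span] at hw
  exact h1 hw

private theorem ev_eq (f g : Pol K →ₗ[K] K)
    (h : ∀ a b : Fin 3, f (X a * X b ^ 2) = g (X a * X b ^ 2)) : ∀ w ∈ cubics K, f w = g w := by
  intro w hw
  have h1 : span K (Set.range fun p : Fin 3 × Fin 3 => (X p.1 * X p.2 ^ 2 : Pol K)) ≤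
      LinearMap.eqLocus f g := by
    rw [span_le]
    rintro _ ⟨p, rfl⟩
    exact h p.1 p.2
  rw [Pool.Agent.BE.cubics_eq_span] at hw
  exact h1 hw

private theorem e0 (x : Fin 3) (h : x ≠ 0) : (![1, 0, 0] : Fin 3 → K) x = 0 := by
  fin_cases x
  · exact absurd rfl h
  · rfl
  · rfl

theorem base_vertex {v : Fin 8 → Pol K} (hv : QV v) {p : Fin 3 → K} (hp : BPt v p) {i : Fin 3} (hi : p i ≠ 0)
    (h : ∀ j, j ≠ i → p j = 0) : False := by
  set s : Equiv.Perm (Fin 3) := Equiv.swap 0 i with hs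
  let σ : Pol K ≃ₐ[K] Pol K := renameEquiv K s
  have hσX : ∀ a : Fin 3, σ (X a) = X (s a) := fun a => by
    simp [σ]
  have hσX' : ∀ a : Fin 3, σ.symm (X a) = X (s a) := fun a => by
    rw [AlgEquiv.symm_apply_eq, hσX]
    simp [hs]
  have hσ : ∀ w ∈ cubics K, σ w ∈ cubics K := by
    refine stab σ.toAlgHom fun a b => ?_
    show σ (X a * X b ^ 2) ∈ cubics K
    rw [map_mul, map_pow, hσX, hσX]
    exact XX_mem _ _
  have hσ' : ∀ w ∈ cubics K, σ.symm w ∈ cubics K := by
    refine stab σ.symm.toAlgHom fun a b => ?_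
    show σ.symm (X a * X b ^ 2) ∈ cubics K
    rw [map_mul, map_pow, hσX', hσX']
    exact XX_mem _ _
  have hpa : ∀ a, p a = p i * (![1, 0, 0] : Fin 3 → K) (s a) := by
    intro a
    by_cases ha : a = i
    · subst ha
      have : s a = 0 := by simp [hs]
      rw [this]
      simp
    · rw [h a ha, e0 (s a), mul_zero]
      intro h0
      apply ha
      have : s a = s i := by rw [h0]; simp [hs]
      exact s.injective this
  have hev : ∀ w ∈ cubics K, eval p w = p i ^ 3 * eval ![1, 0, 0] (σ w) := by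
    intro w hw
    have := ev_eq (aeval p : Pol K →ₐ[K] K).toLinearMap
      (p i ^ 3 • ((aeval (![1, 0, 0] : Fin 3 → K) : Pol K →ₐ[K] K).toLinearMap.comp
        σ.toAlgHom.toLinearMap)) (fun a b => ?_) w hw
    · simpa [aeval_eq_eval] using this
    · show aeval p (X a * X b ^ 2) = p i ^ 3 • aeval (![1, 0, 0] : Fin 3 → K) (σ (X a * X b ^ 2))
      rw [map_mul σ, map_pow σ, hσX, hσX]
      simp only [map_mul, map_pow, aeval_X, smul_eq_mul]
      rw [hpa a, hpa b]
      ring
  refine base3 (QV.map hv σ hσ) (BPt.map hv hp σ hσ hσ' fun w hw => ?_)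
  rw [hev w hw, mul_eq_zero]
  constructor
  · intro h1
    exact Or.inr h1
  · rintro (h1 | h1)
    · exact absurd h1 (pow_ne_zero 3 hi)
    · exact h1

private theorem exM {p : Fin 3 → K} (hp0 : p ≠ 0) :
    ∃ M N : Matrix (Fin 3) (Fin 3) K, N * M = 1 ∧ M * N = 1 ∧ ∀ i, M i 0 = p i := by
  have key : ∀ M : Matrix (Fin 3) (Fin 3) K, M.det ≠ 0 → (∀ i, M i 0 = p i) →
      ∃ M N : Matrix (Fin 3) (Fin 3) K, N * M = 1 ∧ M * N = 1 ∧ ∀ i, M i 0 = p i := by
    intro M hM h
    have hu : IsUnit M.det := isUnit_iff_ne_zero.2 hM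
    exact ⟨M, M⁻¹, Matrix.nonsing_inv_mul M hu, Matrix.mul_nonsing_inv M hu, h⟩
  by_cases h0 : p 0 = 0
  · by_cases h1 : p 1 = 0
    · have h2 : p 2 ≠ 0 := by
        intro h2
        apply hp0
        ext i
        fin_cases i
        · exact h0
        · exact h1
        · exact h2
      refine key !![p 0, 0, 1; p 1, 1, 0; p 2, 0, 0] ?_ ?_
      · rw [Matrix.det_fin_three]
        simpa using h2
      · intro i
        fin_cases i <;> rfl
    · refine key !![p 0, 1, 0; p 1, 0, 0; p 2, 0, 1] ?_ ?_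
      · rw [Matrix.det_fin_three]
        simpa using h1
      · intro i
        fin_cases i <;> rfl
  · refine key !![p 0, 0, 0; p 1, 1, 0; p 2, 0, 1] ?_ ?_
    · rw [Matrix.det_fin_three]
      simpa using h0
    · intro i
      fin_cases i <;> rfl

private noncomputable def fM (M : Matrix (Fin 3) (Fin 3) K) : Pol K →ₐ[K] Pol K :=
  aeval fun i => lin (M i)

private theorem fM_X (M : Matrix (Fin 3) (Fin 3) K) (i : Fin 3) : fM M (X i) = lin (M i) := by
  rw [fM, aeval_X]

private theorem fM_lin (M : Matrix (Fin 3) (Fin 3) K) (a : Fin 3 → K) :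
    fM M (lin a) = lin (Matrix.vecMul a M) := by
  rw [lin, map_add, map_add, map_mul, map_mul, map_mul, fM_X, fM_X, fM_X]
  simp only [lin, Matrix.vecMul, dotProduct, Fin.sum_univ_three, map_add, map_mul, ← algebraMap_eq,
    AlgHom.commutes]
  ring

private theorem fM_comp {M N : Matrix (Fin 3) (Fin 3) K} (h : N * M = 1) :
    (fM M).comp (fM N) = AlgHom.id K (Pol K) := by
  apply algHom_ext
  intro i
  rw [AlgHom.comp_apply, fM_X, fM_lin, AlgHom.id_apply]
  have h1 : Matrix.vecMul (N i) M = (1 : Matrix (Fin 3) (Fin 3) K) i := by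
    rw [← h]
    ext j
    rfl
  rw [h1]
  fin_cases i <;> simp [lin, Matrix.one_apply]

private theorem fM_stab (h2 : (2 : K) = 0) (M : Matrix (Fin 3) (Fin 3) K) :
    ∀ w ∈ cubics K, fM M w ∈ cubics K := by
  refine stab _ fun a b => ?_
  rw [map_mul, map_pow, fM_X, fM_X, pow_two, mem_cubics]
  constructor
  · exact mul_mem_H (lin_mem _) (mul_mem_H (lin_mem _) (lin_mem _))
  · rw [cf111_lin3, TT]
    linear_combination (M a 0 * M b 1 * M b 2 + M a 1 * M b 0 * M b 2 + M a 2 * M b 0 * M b 1) * h2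

theorem base_char2 {v : Fin 8 → Pol K} (hv : QV v) {p : Fin 3 → K} (hp : BPt v p) (hp0 : p ≠ 0)
    (h2 : (2 : K) = 0) : False := by
  obtain ⟨M, N, h1, h1', hM⟩ := exM hp0
  let σ : Pol K ≃ₐ[K] Pol K := AlgEquiv.ofAlgHom (fM M) (fM N) (fM_comp h1) (fM_comp h1')
  have hσ : ∀ w, σ w = fM M w := fun w => rfl
  have hσ' : ∀ w, σ.symm w = fM N w := fun w => rfl
  have hev : (aeval (![1, 0, 0] : Fin 3 → K) : Pol K →ₐ[K] K).comp (fM M) = aeval p := by
    apply algHom_ext
    intro i
    rw [AlgHom.comp_apply, fM_X, aeval_X, ← hM i]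
    simp [lin]
  refine base3 (QV.map hv σ fun w hw => by rw [hσ]; exact fM_stab h2 M w hw)
    (BPt.map hv hp σ (fun w hw => by rw [hσ]; exact fM_stab h2 M w hw)
      (fun w hw => by rw [hσ']; exact fM_stab h2 N w hw) fun w hw => ?_)
  have h3 := AlgHom.congr_fun hev w
  rw [AlgHom.comp_apply, aeval_eq_eval, aeval_eq_eval] at h3
  rw [hσ]
  have h4 : eval (![1, 0, 0] : Fin 3 → K) (fM M w) = eval p w := h3
  rw [h4]

end Pool.Agent.BE
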