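import Pool.Agent.Work.MP_be705b_al.E.Defs

set_option autoImplicit false
set_option linter.unusedSectionVars false
set_option linter.unusedVariables false

/-!
# MP_be705b_al, elimination: expansion of the elements of `cubics K`

PROOF. The nine monomials of degree 3 other than `x y z` are exactly the `X i * X j ^ 2`, `i, j : Fin 3` (exponent
`single i 1 + single j 2`), pairwise different.  `cubics K` is the span of the monomials of degree 3 with a zero exponent
(definition of `cubics`), so both sides of `cubics_expand` are linear in `w` and agree on these monomials.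
`g_expand` follows by applying `g` (`C c * f = c • f`, `smul_eq_C_mul`).  `XX_mem`: see BR.mono_mem_cubics.
-/

namespace Pool.Agent.BE

open MvPolynomial Submodule Module Pool.Agent.BR

variable {K : Type*} [Field K]

private theorem XX_eq (i j : Fin 3) :
    (X i * X j ^ 2 : Pol K) = monomial (Finsupp.single i 1 + Finsupp.single j 2) 1 := by
  rw [X_pow_eq_monomial, X, monomial_mul, mul_one]

private theorem sgl_inj {i j k l : Fin 3}
    (h : (Finsupp.single i 1 + Finsupp.single j 2 : Fin 3 →₀ ℕ) =
      Finsupp.single k 1 + Finsupp.single l 2) : i = k ∧ j = l := by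
  have h1 : ∀ t, (Finsupp.single i 1 + Finsupp.single j 2 : Fin 3 →₀ ℕ) t =
      (Finsupp.single k 1 + Finsupp.single l 2 : Fin 3 →₀ ℕ) t := fun t => by rw [h]
  simp only [Finsupp.add_apply, Finsupp.single_apply] at h1
  clear h
  revert h1
  revert i j k l
  decide

theorem XX_mem (i j : Fin 3) : (X i * X j ^ 2 : Pol K) ∈ cubics K := by
  apply subset_span
  refine ⟨Finsupp.single i 1 + Finsupp.single j 2, ?_, ?_, XX_eq i j⟩
  · simp
  · have h : ∀ i j : Fin 3, ∃ k : Fin 3, ¬ (i = k) ∧ ¬ (j = k) := by decide
    obtain ⟨k, hk1, hk2⟩ := h i j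
    exact ⟨k, by simp [Finsupp.single_apply, hk1, hk2]⟩

theorem cm_XX (i j k l : Fin 3) : cm k l (X i * X j ^ 2 : Pol K) = if k = i ∧ l = j then 1 else 0 := by
  rw [XX_eq, cm, lcoeff_apply, coeff_monomial]
  by_cases h : k = i ∧ l = j
  · rw [if_pos h, if_pos]
    rw [h.1, h.2]
  · rw [if_neg h, if_neg]
    intro h1
    obtain ⟨h2, h3⟩ := sgl_inj h1
    exact h ⟨h2.symm, h3.symm⟩

private theorem classify (e : Fin 3 →₀ ℕ) (hd : e.degree = 3) (h0 : ∃ i, e i = 0) :
    ∃ i j : Fin 3, e = Finsupp.single i 1 + Finsupp.single j 2 := by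
  have hs : e 0 + e 1 + e 2 = 3 := by
    rw [Finsupp.degree_eq_sum, Fin.sum_univ_three] at hd
    exact hd
  have key : ∀ i j : Fin 3, (∀ t, e t = (Finsupp.single i 1 + Finsupp.single j 2 : Fin 3 →₀ ℕ) t) →
      ∃ i j : Fin 3, e = Finsupp.single i 1 + Finsupp.single j 2 := fun i j h =>
    ⟨i, j, Finsupp.ext h⟩
  obtain ⟨i0, hi0⟩ := h0
  have hex : ∃ i j : Fin 3, e 0 = (if i = 0 then 1 else 0) + (if j = 0 then 2 else 0) ∧
      e 1 = (if i = 1 then 1 else 0) + (if j = 1 then 2 else 0) ∧
      e 2 = (if i = 2 then 1 else 0) + (if j = 2 then 2 else 0) := by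
    have hor : e 0 = 0 ∨ e 1 = 0 ∨ e 2 = 0 := by
      fin_cases i0
      · left; exact hi0
      · right; left; exact hi0
      · right; right; exact hi0
    clear hi0 hd key
    generalize e 0 = a at *
    generalize e 1 = b at *
    generalize e 2 = c at *
    have ha : a ≤ 3 := by omega
    have hb : b ≤ 3 := by omega
    have hc : c = 3 - a - b := by omega
    subst hc
    interval_cases a <;> interval_cases b <;> first | omega | (revert hor; decide) | decide
  obtain ⟨i, j, h1, h2, h3⟩ := hex
  refine ⟨i, j, Finsupp.ext fun t => ?_⟩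
  simp only [Finsupp.add_apply, Finsupp.single_apply]
  fin_cases t
  · exact h1
  · exact h2
  · exact h3

theorem cubics_expand {w : Pol K} (hw : w ∈ cubics K) : w = ∑ i, ∑ j, C (cm i j w) * (X i * X j ^ 2) := by
  induction hw using span_induction with
  | mem x hx =>
    obtain ⟨e, hd, h0, rfl⟩ := hx
    obtain ⟨k, l, rfl⟩ := classify e hd h0
    rw [← XX_eq]
    simp only [cm_XX]
    rw [Finset.sum_eq_single k, Finset.sum_eq_single l]
    · simp
    · intro j _ hj
      rw [if_neg (fun h => hj h.2), C_0, zero_mul]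
    · intro h
      exact absurd (Finset.mem_univ _) h
    · intro i _ hi
      apply Finset.sum_eq_zero
      intro j _
      rw [if_neg (fun h => hi h.1), C_0, zero_mul]
    · intro h
      exact absurd (Finset.mem_univ _) h
  | zero => simp
  | add x y _ _ hx hy =>
    conv_lhs => rw [hx, hy]
    rw [← Finset.sum_add_distrib]
    apply Finset.sum_congr rfl
    intro i _
    rw [← Finset.sum_add_distrib]
    apply Finset.sum_congr rfl
    intro j _
    rw [map_add, C_add, add_mul]
  | smul c x _ hx =>
    conv_lhs => rw [hx]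
    rw [Finset.smul_sum]
    apply Finset.sum_congr rfl
    intro i _
    rw [Finset.smul_sum]
    apply Finset.sum_congr rfl
    intro j _
    rw [map_smul, smul_eq_C_mul, smul_eq_mul, C_mul, mul_assoc]

theorem g_expand {w : Pol K} (hw : w ∈ cubics K) (g : Pol K →ₗ[K] K) :
    g w = ∑ i, ∑ j, cm i j w * GG g i j := by
  conv_lhs => rw [cubics_expand hw]
  rw [map_sum]
  apply Finset.sum_congr rfl
  intro i _
  rw [map_sum]
  apply Finset.sum_congr rfl
  intro j _
  rw [← smul_eq_C_mul, map_smul, smul_eq_mul, GG]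

theorem cubics_eq_span : cubics K = span K (Set.range fun p : Fin 3 × Fin 3 => (X p.1 * X p.2 ^ 2 : Pol K)) := by
  apply le_antisymm
  · intro w hw
    rw [cubics_expand hw]
    apply sum_mem
    intro i _
    apply sum_mem
    intro j _
    rw [← smul_eq_C_mul]
    exact smul_mem _ _ (subset_span ⟨(i, j), rfl⟩)
  · rw [span_le]
    rintro _ ⟨p, rfl⟩
    exact XX_mem _ _

end Pool.Agent.BE
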