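import Pool.Agent.Work.MP_be705b_al.E.Base1
import Pool.Agent.Work.MP_be705b_al.E.Base2
import Pool.Agent.Work.MP_be705b_al.E.Base4
import Pool.Agent.Work.MP_be705b_al.E.Exp

set_option autoImplicit false
set_option linter.unusedSectionVars false
set_option linter.unusedVariables false

/-!
# MP_be705b_al, elimination: base points

PROOF of base. If `2 = 0`: base_char2.  Otherwise by the number of nonzero coordinates of `p`: three: base1, two: base2, one:
base_vertex.

PROOF of bp_false. `BP (GG g)`: `GG g i j = a * (p i * p j ^ 2)`, so `g w = a * eval p w` for `w ∈ cubics K` (g_expand,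
cubics_expand), `a ≠ 0` and `p ≠ 0` because `g ≠ 0` on `cubics K`, so `BPt v p` (Cut.mem).
-/

namespace Pool.Agent.BE

open MvPolynomial Submodule Module Pool.Agent.BR

variable {K : Type*} [Field K]

theorem base {v : Fin 8 → Pol K} (hv : QV v) {p : Fin 3 → K} (hp : BPt v p) (hp0 : p ≠ 0) : False := by
  by_cases h2 : (2 : K) = 0
  · exact base_char2 hv hp hp0 h2
  by_cases h0 : p 0 = 0
  · by_cases h1 : p 1 = 0
    · by_cases h3 : p 2 = 0
      · refine hp0 (funext fun i => ?_)
        fin_cases i
        · exact h0
        · exact h1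
        · exact h3
      · refine base_vertex hv hp h3 fun j hj => ?_
        fin_cases j
        · exact h0
        · exact h1
        · exact absurd rfl hj
    · by_cases h3 : p 2 = 0
      · refine base_vertex hv hp h1 fun j hj => ?_
        fin_cases j
        · exact h0
        · exact absurd rfl hj
        · exact h3
      · exact base2 hv hp h2 (i := 1) (j := 2) (k := 0) (by decide) (by decide) (by decide) h1 h3 h0
  · by_cases h1 : p 1 = 0
    · by_cases h3 : p 2 = 0
      · refine base_vertex hv hp h0 fun j hj => ?_
        fin_cases j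
        · exact absurd rfl hj
        · exact h1
        · exact h3
      · exact base2 hv hp h2 (i := 0) (j := 2) (k := 1) (by decide) (by decide) (by decide) h0 h3 h1
    · by_cases h3 : p 2 = 0
      · exact base2 hv hp h2 (i := 0) (j := 1) (k := 2) (by decide) (by decide) (by decide) h0 h1 h3
      · refine base1 hv hp h2 fun i => ?_
        fin_cases i
        · exact h0
        · exact h1
        · exact h3

theorem bp_false {v : Fin 8 → Pol K} (hv : QV v) {g : Pol K →ₗ[K] K} (hg : Cut v g)
    (h1 : ∃ w ∈ cubics K, g w = 1) (h : BP (GG g)) : False := by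
  obtain ⟨p, a, hpa⟩ := h
  have hev : ∀ w ∈ cubics K, eval p w = ∑ i, ∑ j, cm i j w * (p i * p j ^ 2) := by
    intro w hw
    conv_lhs => rw [cubics_expand hw]
    simp only [map_sum, map_mul, map_pow, eval_C, eval_X]
  have hgw : ∀ w ∈ cubics K, g w = a * eval p w := by
    intro w hw
    rw [g_expand hw, hev w hw, Finset.mul_sum]
    refine Finset.sum_congr rfl fun i _ => ?_
    rw [Finset.mul_sum]
    refine Finset.sum_congr rfl fun j _ => ?_
    rw [hpa]
    ring
  obtain ⟨w, hw, hw1⟩ := h1
  rw [hgw w hw] at hw1
  have ha : a ≠ 0 := by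
    rintro rfl
    rw [zero_mul] at hw1
    exact zero_ne_one hw1
  have hp0 : p ≠ 0 := by
    rintro rfl
    rw [hev w hw] at hw1
    simp at hw1
  refine base hv (p := p) (fun u => ?_) hp0
  rw [hg.mem]
  constructor
  · rintro ⟨h2, h3⟩
    rw [hgw u h2] at h3
    exact ⟨h2, (mul_eq_zero.1 h3).resolve_left ha⟩
  · rintro ⟨h2, h3⟩
    exact ⟨h2, by rw [hgw u h2, h3, mul_zero]⟩

end Pool.Agent.BE
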