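import Pool.Agent.Work.MP_be705b_al.E.BRel

set_option autoImplicit false
set_option linter.unusedSectionVars false
set_option linter.unusedVariables false

/-!
# MP_be705b_al, elimination: base point with nonzero coordinates, characteristic not two

PROOF. Let `(p1, p2, p3) = p`, `a = p2 x - p1 y`, `b = p3 y - p2 z`, `c = p1 z - p3 x` (linear forms which vanish at `p`), and
`U1 = x^2 a`, `U2 = x^2 b`, `U3 = x^2 c`, `V1 = (p2^2 x^2 - p1^2 y^2) x`, `V2 = (p1^2 z^2 - p3^2 x^2) x`, `V3 = (p3^2 y^2 - p2^2 z^2) x`.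
All are products `lin l * sq m` with `dot l p * dot m (p^2) = 0`, so they are in `U v` (mem_of, hp).  Identity (`ring`):
   `2 p2 p3 U1 U2 U3 = p3 V1 U2 U3 + p2 V2 U1 U2 - p1 V3 U1 U3`.
With `L = Ln (p^2)`: `L V_i = 0` and `L U1 = p1^2 a`, `L U2 = p1^2 b`, `L U3 = p1^2 c` (coefficient vectors; mem_of).  By `t30` (brel) applied to
`u = ![U1, U2, U3, V1, V2, V3]` and the polynomial `P` of the identity: `2 p2 p3 p1^6 (lin a)(lin b)(lin c) = 0` in `Pol K`, a
contradiction (domain; `lin a, lin b, lin c ≠ 0`, BR.lin_eq_zero).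
-/

namespace Pool.Agent.BE

open MvPolynomial Submodule Module Pool.Agent.BR

variable {K : Type*} [Field K]

theorem base1 {v : Fin 8 → Pol K} (hv : QV v) {p : Fin 3 → K} (hp : BPt v p) (h2 : (2 : K) ≠ 0)
    (h : ∀ i, p i ≠ 0) : False := by
  have h0 := h 0
  have h1 := h 1
  have h3 := h 2
  let l : Fin 6 → Fin 3 → K := ![![p 1, -p 0, 0], ![0, p 2, -p 1], ![-p 2, 0, p 0], ![1, 0, 0],
    ![1, 0, 0], ![1, 0, 0]]
  let m : Fin 6 → Fin 3 → K := ![![1, 0, 0], ![1, 0, 0], ![1, 0, 0], ![p 1 ^ 2, -p 0 ^ 2, 0],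
    ![-p 2 ^ 2, 0, p 0 ^ 2], ![0, p 2 ^ 2, -p 1 ^ 2]]
  let u : Fin 6 → Pol K := fun i => lin (l i) * BR.sq (m i)
  have hu : ∀ i, u i ∈ U v := by
    intro i
    rw [hp]
    refine ⟨(mem_of p (l i) (m i)).1, ?_⟩
    show eval p (lin (l i) * BR.sq (m i)) = 0
    rw [(mem_of p (l i) (m i)).2.1]
    fin_cases i <;> simp [l, m, dot, -mul_eq_zero] <;> ring_nf
  let P : MvPolynomial (Fin 6) K := C (2 * p 1 * p 2) * (X 0 * X 1 * X 2) -
    (C (p 2) * (X 3 * X 1 * X 2) + C (p 1) * (X 4 * X 0 * X 1) - C (p 0) * (X 5 * X 0 * X 2))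
  have hP : aeval u P = 0 := by
    have e : ∀ k : K, algebraMap K (Pol K) k = C k := fun _ => rfl
    simp only [P, u, l, m, map_sub, map_add, map_mul, aeval_X, aeval_C, lin, BR.sq, e, Matrix.cons_val,
      map_neg, map_zero, map_one, map_pow]
    simp only [map_ofNat]
    ring
  have h4 := t30 hv (brel hv hp h2) hu hP
  have hL : ∀ i, lin (Ln (fun j => p j ^ 2) (u i)) = C (dot (m i) (fun j => p j ^ 2)) * lin (l i) := by
    intro i
    rw [(mem_of p (l i) (m i)).2.2, lin_smul]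
  have e : ∀ k : K, algebraMap K (Pol K) k = C k := fun _ => rfl
  simp only [hL, P, map_sub, map_add, map_mul, aeval_X, aeval_C, e] at h4
  have d0 : dot (m 0) (fun j => p j ^ 2) = p 0 ^ 2 := by simp [m, dot]
  have d1 : dot (m 1) (fun j => p j ^ 2) = p 0 ^ 2 := by simp [m, dot]
  have d2 : dot (m 2) (fun j => p j ^ 2) = p 0 ^ 2 := by simp [m, dot]
  have d3 : dot (m 3) (fun j => p j ^ 2) = 0 := by simp [m, dot]; ring
  have d4 : dot (m 4) (fun j => p j ^ 2) = 0 := by simp [m, dot]; ring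
  have d5 : dot (m 5) (fun j => p j ^ 2) = 0 := by simp [m, dot]; ring
  rw [d0, d1, d2, d3, d4, d5] at h4
  simp only [C_0, zero_mul, mul_zero, add_zero, sub_zero] at h4
  have hC : ∀ k : K, k ≠ 0 → (C k : Pol K) ≠ 0 := fun k hk => by
    rwa [Ne, C_eq_zero]
  have hl0 : lin (l 0) ≠ 0 := by
    rw [Ne, lin_eq_zero]
    intro h5
    exact h1 (congrFun h5 0)
  have hl1 : lin (l 1) ≠ 0 := by
    rw [Ne, lin_eq_zero]
    intro h5
    exact h3 (congrFun h5 1)
  have hl2 : lin (l 2) ≠ 0 := by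
    rw [Ne, lin_eq_zero]
    intro h5
    exact h0 (congrFun h5 2)
  have hp2 : (C (p 0 ^ 2) : Pol K) ≠ 0 := hC _ (pow_ne_zero 2 h0)
  refine absurd h4 ?_
  refine mul_ne_zero (mul_ne_zero (mul_ne_zero (hC _ h2) (hC _ h1)) (hC _ h3))
    (mul_ne_zero (mul_ne_zero (mul_ne_zero hp2 hl0) (mul_ne_zero hp2 hl1)) (mul_ne_zero hp2 hl2))

end Pool.Agent.BE
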