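import Pool.Agent.Work.MP_be705b_al.E.Defs

set_option autoImplicit false
set_option linter.unusedSectionVars false
set_option linter.unusedVariables false

/-!
# MP_be705b_al, elimination: functionals on binary cubics

PROOF. Let `ev (σ, τ)` be `(σ^3, σ^2 τ, σ τ^2, τ^3)`; if `h = ev (σ, τ)` then `G i j = p i * p j ^ 2` for `p = σ s + τ r`, and if
`h = (0, σ'^2...)` see the formulas below.  There is `(q0, q1, q2) ≠ 0` with
  `q0 h0 + q1 h1 + q2 h2 = 0`, `q0 h1 + q1 h2 + q2 h3 = 0`   (two equations, three unknowns).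
 (1) `q2 ≠ 0`.  Let `λ, μ` be the roots of `q0 + q1 X + q2 X^2` (algebraically closed field).
   (1a) `λ ≠ μ`: `h_k = θ λ^k + θ' μ^k` (solve for `k = 0, 1`, the recursion gives `k = 2, 3`).  With `p = s + λ r`, `p' = s + μ r`
     (linearly independent) one gets `G i j = θ p_i p_j^2 + θ' p'_i p'_j^2`: `A1` if `θ θ' ≠ 0`, otherwise `BP`.
   (1b) `λ = μ`: `h_0 = ς`, `h_1 = ς λ + θ`, `h_2 = ς λ^2 + 2 θ λ`, `h_3 = ς λ^3 + 3 θ λ^2` (recursion with
     `q1 = -2 λ q2`, `q0 = λ^2 q2`).  With `p = s + λ r`: `G i j = ς p_i p_j^2 + θ (r_i p_j^2 + 2 p_i p_j r_j)`: `A2` (with point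
     `p`, direction `r`) if `θ ≠ 0`, otherwise `BP`.
 (2) `q2 = 0`, `q1 ≠ 0`: `h_1 = μ h_0`, `h_2 = μ^2 h_0` with `μ = - q0 / q1`; `h = h_0 ev (1, μ) + (h_3 - μ^3 h_0) ev (0, 1)`:
     points `s + μ r` and `r`: `A1` or `BP`.
 (3) `q1 = q2 = 0`, `q0 ≠ 0`: `h_0 = h_1 = 0`, `G i j = h_2 (s_i r_j^2 + 2 r_i s_j r_j) + h_3 r_i r_j^2`: `A2` (point `r`, direction
     `s`) if `h_2 ≠ 0`, otherwise `BP`.
-/

namespace Pool.Agent.BE

open MvPolynomial Submodule Module Pool.Agent.BR

variable {K : Type*} [Field K]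

private theorem bin_li {s r : Fin 3 → K} (hsr : LinearIndependent K ![s, r]) {a b c d : K}
    (hd : a * d - b * c ≠ 0) : LinearIndependent K ![a • s + b • r, c • s + d • r] := by
  rw [LinearIndependent.pair_iff] at hsr ⊢
  intro x y hxy
  have h := hsr (x * a + y * c) (x * b + y * d) (by
    rw [← hxy]; module)
  obtain ⟨h1, h2⟩ := h
  constructor
  · have : (a * d - b * c) * x = 0 := by linear_combination d * h1 - c * h2
    exact (mul_eq_zero.mp this).resolve_left hd
  · have : (a * d - b * c) * y = 0 := by linear_combination a * h2 - b * h1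
    exact (mul_eq_zero.mp this).resolve_left hd

private theorem bin_two {G : Fin 3 → Fin 3 → K} {p q : Fin 3 → K} (hpq : LinearIndependent K ![p, q]) (a b : K)
    (hG : ∀ i j, G i j = a * (p i * p j ^ 2) + b * (q i * q j ^ 2)) : A1 G ∨ A2 G ∨ BP G := by
  by_cases ha : a = 0
  · right; right
    exact ⟨q, b, fun i j => by rw [hG, ha]; ring⟩
  by_cases hb : b = 0
  · right; right
    exact ⟨p, a, fun i j => by rw [hG, hb]; ring⟩
  exact Or.inl ⟨p, q, a, b, hpq, ha, hb, hG⟩

private theorem bin_tan {G : Fin 3 → Fin 3 → K} {p q : Fin 3 → K} (hpq : LinearIndependent K ![p, q]) (a b : K)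
    (hG : ∀ i j, G i j = a * (q i * p j ^ 2 + 2 * (p i * p j * q j)) + b * (p i * p j ^ 2)) :
    A1 G ∨ A2 G ∨ BP G := by
  by_cases ha : a = 0
  · right; right
    exact ⟨p, b, fun i j => by rw [hG, ha]; ring⟩
  exact Or.inr (Or.inl ⟨p, q, a, b, hpq, ha, hG⟩)

private theorem bin_q (h : Fin 4 → K) : ∃ q0 q1 q2 : K, (q0 ≠ 0 ∨ q1 ≠ 0 ∨ q2 ≠ 0) ∧
    q0 * h 0 + q1 * h 1 + q2 * h 2 = 0 ∧ q0 * h 1 + q1 * h 2 + q2 * h 3 = 0 := by
  have hdet : (!![h 0, h 1, h 2; h 1, h 2, h 3; 0, 0, 0] : Matrix (Fin 3) (Fin 3) K).det = 0 := by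
    simp [Matrix.det_fin_three]
  obtain ⟨v, hv, hv0⟩ := Matrix.exists_mulVec_eq_zero_iff.mpr hdet
  refine ⟨v 0, v 1, v 2, ?_, ?_, ?_⟩
  · by_contra hc
    push Not at hc
    apply hv
    funext i
    fin_cases i
    · exact hc.1
    · exact hc.2.1
    · exact hc.2.2
  · have := congrFun hv0 0
    simp [Matrix.mulVec, dotProduct, Fin.sum_univ_three] at this
    linear_combination this
  · have := congrFun hv0 1
    simp [Matrix.mulVec, dotProduct, Fin.sum_univ_three] at this
    linear_combination this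

theorem bin [IsAlgClosed K] {G : Fin 3 → Fin 3 → K} {s r : Fin 3 → K} (hsr : LinearIndependent K ![s, r])
    (h : Fin 4 → K)
    (hG : ∀ i j, G i j = h 0 * (s i * s j ^ 2) + h 1 * (r i * s j ^ 2 + 2 * (s i * s j * r j)) +
      h 2 * (s i * r j ^ 2 + 2 * (r i * s j * r j)) + h 3 * (r i * r j ^ 2)) :
    A1 G ∨ A2 G ∨ BP G := by
  obtain ⟨q0, q1, q2, hq, e1, e2⟩ := bin_q h
  have hli : LinearIndependent K ![s, r] := hsr
  by_cases h2 : q2 = 0
  · subst h2
    by_cases h1 : q1 = 0
    · subst h1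
      have h0 : q0 ≠ 0 := by
        rcases hq with h | h | h
        · exact h
        · exact absurd rfl h
        · exact absurd rfl h
      have z0 : h 0 = 0 := (mul_eq_zero.mp (by linear_combination e1 : q0 * h 0 = 0)).resolve_left h0
      have z1 : h 1 = 0 := (mul_eq_zero.mp (by linear_combination e2 : q0 * h 1 = 0)).resolve_left h0
      have hl : LinearIndependent K ![r, s] := by
        have := bin_li hsr (a := 0) (b := 1) (c := 1) (d := 0) (by simp)
        simpa using this
      refine bin_tan hl (h 2) (h 3) fun i j => ?_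
      rw [hG, z0, z1]; ring
    · obtain ⟨m, hm⟩ : ∃ m, q0 = - q1 * m := ⟨- q0 / q1, by field_simp⟩
      subst hm
      have z1 : h 1 = m * h 0 := mul_left_cancel₀ h1 (by linear_combination e1)
      have z2 : h 2 = m * h 1 := mul_left_cancel₀ h1 (by linear_combination e2)
      have hl : LinearIndependent K ![s + m • r, r] := by
        have := bin_li hsr (a := 1) (b := m) (c := 0) (d := 1) (by simp)
        simpa using this
      refine bin_two hl (h 0) (h 3 - m ^ 3 * h 0) fun i j => ?_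
      simp only [Pi.add_apply, Pi.smul_apply, smul_eq_mul]
      rw [hG, z2, z1]; ring
  · obtain ⟨l, hl⟩ : ∃ l, q2 * l ^ 2 + q1 * l + q0 = 0 := by
      obtain ⟨l, hl⟩ := IsAlgClosed.exists_root
        (Polynomial.C q2 * Polynomial.X ^ 2 + Polynomial.C q1 * Polynomial.X + Polynomial.C q0)
        (by rw [Polynomial.degree_quadratic h2]; decide)
      refine ⟨l, ?_⟩
      have := hl
      simpa [Polynomial.IsRoot] using this
    obtain ⟨m, hm⟩ : ∃ m, q1 = - q2 * (l + m) := ⟨- q1 / q2 - l, by field_simp; ring⟩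
    subst hm
    have hq0 : q0 = q2 * (l * m) := by linear_combination hl
    subst hq0
    have z2 : h 2 = (l + m) * h 1 - l * m * h 0 := mul_left_cancel₀ h2 (by linear_combination e1)
    have z3 : h 3 = (l + m) * h 2 - l * m * h 1 := mul_left_cancel₀ h2 (by linear_combination e2)
    by_cases hlm : m = l
    · subst hlm
      obtain ⟨t, ht⟩ : ∃ t, h 1 = h 0 * m + t := ⟨h 1 - h 0 * m, by ring⟩
      have hl' : LinearIndependent K ![s + m • r, r] := by
        have := bin_li hsr (a := 1) (b := m) (c := 0) (d := 1) (by simp)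
        simpa using this
      refine bin_tan hl' t (h 0) fun i j => ?_
      simp only [Pi.add_apply, Pi.smul_apply, smul_eq_mul]
      rw [hG, z3, z2, ht]; ring
    · have hd : m - l ≠ 0 := sub_ne_zero.mpr hlm
      obtain ⟨t', ht'⟩ : ∃ t', h 1 = l * h 0 + (m - l) * t' := ⟨(h 1 - l * h 0) / (m - l), by field_simp; ring⟩
      have hl' : LinearIndependent K ![s + l • r, s + m • r] := by
        have := bin_li hsr (a := 1) (b := l) (c := 1) (d := m) (by simpa using hd)
        simpa using this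
      refine bin_two hl' (h 0 - t') t' fun i j => ?_
      simp only [Pi.add_apply, Pi.smul_apply, smul_eq_mul]
      rw [hG, z3, z2, ht']; ring

end Pool.Agent.BE
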