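import Pool.Agent.Work.MP_be705b_al.E.Defs

set_option autoImplicit false
set_option linter.unusedSectionVars false
set_option linter.unusedVariables false

/-!
# MP_be705b_al, elimination: the product `U v * U v` is not `H K 6`

PROOF. Write `S d = homogeneousSubmodule (Fin 8) K d`.  `finrank (S 2) = 36`, `finrank (S 3) = 120` (exponents of degree 2, 3 in
8 variables; `homogeneousSubmodule_eq_finsupp_supported` and the cardinality of `{m : Fin 8 →₀ ℕ | m.degree = d}`).
Let `φ = aeval v`.  Suppose `U v * U v = H K 6` (dimension 28, BR.finrank_H6).  The image of `S 2` under `φ` is `U v * U v`, so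
`Q2 = S 2 ⊓ ker φ` has dimension `36 - 28 = 8`.  The image of `S 3` is contained in `H K 9`, of dimension 55 (BR.finrank_H9), so
`Q3 = S 3 ⊓ ker φ` has dimension at least `120 - 55 = 65`.  By `hv.quad` every `F ∈ Q3` lies in the ideal spanned by `Q2`, and
taking the homogeneous component of degree 3 one gets `Q3 ≤ S 1 * Q2` (product of submodules of `MvPolynomial (Fin 8) K`), and
`finrank (S 1 * Q2) ≤ 8 * 8 = 64` (`Submodule.finrank_mul_le`-like, or: the image of the bilinear map / the sum of the eight
subspaces `X i * Q2`).  Contradiction.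
-/

namespace Pool.Agent.BE

open MvPolynomial Submodule Module Pool.Agent.BR

variable {K : Type*} [Field K]

namespace Cnt2

theorem S_eq_span (d : ℕ) : homogeneousSubmodule (Fin 8) K d = span K (Set.range
    (fun m : (Finset.univ : Finset (Fin 8)).finsuppAntidiag d => (monomial m.1 1 : MvPolynomial (Fin 8) K))) := by
  apply le_antisymm
  · intro p hp
    rw [p.as_sum]
    refine sum_mem fun m hm => ?_
    have hd : m.degree = d := by
      have h1 := hp (mem_support_iff.1 hm)
      rw [Finsupp.degree_eq_weight_one]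
      exact h1
    have hm' : m ∈ (Finset.univ : Finset (Fin 8)).finsuppAntidiag d := by
      rw [Finset.mem_finsuppAntidiag]
      refine ⟨?_, Finset.subset_univ _⟩
      rw [← hd, Finsupp.degree_eq_sum]
    have h2 : (monomial m (coeff m p) : MvPolynomial (Fin 8) K) = coeff m p • monomial m 1 := by
      rw [smul_monomial, smul_eq_mul, mul_one]
    rw [h2]
    exact smul_mem _ _ (subset_span ⟨⟨m, hm'⟩, rfl⟩)
  · rw [span_le]
    rintro _ ⟨m, rfl⟩
    have h1 := m.2
    rw [Finset.mem_finsuppAntidiag] at h1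
    refine isHomogeneous_monomial _ ?_
    rw [Finsupp.degree_eq_sum]
    exact h1.1

theorem finrank_S (d : ℕ) : finrank K ↥(homogeneousSubmodule (Fin 8) K d) = (8 + d - 1).choose d := by
  have h1 : LinearIndependent K
      (fun m : (Finset.univ : Finset (Fin 8)).finsuppAntidiag d => (monomial m.1 1 : MvPolynomial (Fin 8) K)) := by
    have h2 := (basisMonomials (Fin 8) K).linearIndependent.comp
      (fun m : (Finset.univ : Finset (Fin 8)).finsuppAntidiag d => m.1) Subtype.val_injective
    have h3 : (fun m : (Finset.univ : Finset (Fin 8)).finsuppAntidiag d => (monomial m.1 1 : MvPolynomial (Fin 8) K)) =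
      (basisMonomials (Fin 8) K) ∘ (fun m => m.1) := by
      ext1 m
      simp
    rw [h3]
    exact h2
  rw [S_eq_span, finrank_span_eq_card h1, Fintype.card_coe, Finset.card_finsuppAntidiag_nat_eq_choose,
    Finset.card_univ, Fintype.card_fin]

instance fin_S (d : ℕ) : Module.Finite K ↥(homogeneousSubmodule (Fin 8) K d) := by
  rw [S_eq_span]
  exact Module.Finite.span_of_finite K (Set.finite_range _)

/-- elements of degree `d` in the kernel -/
noncomputable def Q {A : Type*} [CommRing A] [Algebra K A] (φ : MvPolynomial (Fin 8) K →ₐ[K] A) (d : ℕ) :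
    Submodule K (MvPolynomial (Fin 8) K) :=
  homogeneousSubmodule (Fin 8) K d ⊓ LinearMap.ker φ.toLinearMap

theorem rank_null {A : Type*} [CommRing A] [Algebra K A] (φ : MvPolynomial (Fin 8) K →ₐ[K] A) (d : ℕ) :
    finrank K ↥((homogeneousSubmodule (Fin 8) K d).map φ.toLinearMap) + finrank K ↥(Q φ d) =
      (8 + d - 1).choose d := by
  rw [← finrank_S (K := K) d]
  have h1 := LinearMap.finrank_range_add_finrank_ker
    (φ.toLinearMap.domRestrict (homogeneousSubmodule (Fin 8) K d))
  rw [LinearMap.range_domRestrict] at h1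
  have h2 : Q φ d = (LinearMap.ker (φ.toLinearMap.domRestrict (homogeneousSubmodule (Fin 8) K d))).map
      (homogeneousSubmodule (Fin 8) K d).subtype := by
    ext F
    simp only [Q, mem_inf, LinearMap.mem_ker, Submodule.mem_map, LinearMap.domRestrict_apply,
      Submodule.subtype_apply, Subtype.exists, exists_and_right, exists_eq_right]
    constructor
    · rintro ⟨h3, h4⟩
      exact ⟨h3, h4⟩
    · rintro ⟨h3, h4⟩
      exact ⟨h3, h4⟩
  rw [h2, Submodule.finrank_map_subtype_eq]
  exact h1

theorem hc3 {A : Type*} [CommRing A] [Algebra K A] (φ : MvPolynomial (Fin 8) K →ₐ[K] A)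
    (a q : MvPolynomial (Fin 8) K) (hq : q ∈ Q φ 2) :
    homogeneousComponent 3 (a * q) ∈ homogeneousSubmodule (Fin 8) K 1 * Q φ 2 := by
  have h1 : a * q = ∑ i ∈ Finset.range (a.totalDegree + 1), homogeneousComponent i a * q := by
    rw [← Finset.sum_mul, sum_homogeneousComponent]
  rw [h1, map_sum]
  refine sum_mem fun i _ => ?_
  have h2 : homogeneousComponent i a * q ∈ homogeneousSubmodule (Fin 8) K (i + 2) :=
    homogeneousSubmodule_mul i 2 (mul_mem_mul (homogeneousComponent_mem i a) hq.1)
  rw [homogeneousComponent_of_mem h2]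
  split_ifs with h3
  · have h4 : i = 1 := by omega
    subst h4
    exact mul_mem_mul (homogeneousComponent_mem _ a) hq
  · exact zero_mem _

theorem Q3_le {A : Type*} [CommRing A] [Algebra K A] (φ : MvPolynomial (Fin 8) K →ₐ[K] A)
    (hφ : ∀ F : MvPolynomial (Fin 8) K, φ F = 0 →
      F ∈ Ideal.span {q : MvPolynomial (Fin 8) K | φ q = 0 ∧ q.IsHomogeneous 2}) :
    Q φ 3 ≤ homogeneousSubmodule (Fin 8) K 1 * Q φ 2 := by
  intro F hF
  have h1 := hφ F hF.2
  have h2 : ∀ a, homogeneousComponent 3 (a * F) ∈ homogeneousSubmodule (Fin 8) K 1 * Q φ 2 := by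
    refine Submodule.span_induction (p := fun F _ => ∀ a, homogeneousComponent 3 (a * F) ∈
      homogeneousSubmodule (Fin 8) K 1 * Q φ 2) ?_ ?_ ?_ ?_ h1
    · rintro q ⟨h3, h4⟩ a
      exact hc3 φ a q ⟨h4, h3⟩
    · intro a
      simp
    · intro x y _ _ hx hy a
      rw [mul_add, map_add]
      exact add_mem (hx a) (hy a)
    · intro b x _ hx a
      rw [smul_eq_mul, ← mul_assoc]
      exact hx _
  have h3 := h2 1
  rw [one_mul, homogeneousComponent_of_mem hF.1, if_pos rfl] at h3
  exact h3

theorem finrank_mul_le' {A : Type*} [CommRing A] [Algebra K A] (M N : Submodule K A)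
    [Module.Finite K ↥M] [Module.Finite K ↥N] :
    finrank K ↥(M * N) ≤ finrank K ↥M * finrank K ↥N := by
  classical
  let bM := Module.finBasis K ↥M
  let bN := Module.finBasis K ↥N
  have hM : M = span K (Set.range fun i => (bM i : A)) := by
    have h1 := congrArg (Submodule.map M.subtype) bM.span_eq
    rw [Submodule.map_span, Submodule.map_top, Submodule.range_subtype, ← Set.range_comp] at h1
    exact h1.symm
  have hN : N = span K (Set.range fun i => (bN i : A)) := by
    have h1 := congrArg (Submodule.map N.subtype) bN.span_eq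
    rw [Submodule.map_span, Submodule.map_top, Submodule.range_subtype, ← Set.range_comp] at h1
    exact h1.symm
  have h1 : M * N = span K (Set.range fun p : Fin (finrank K ↥M) × Fin (finrank K ↥N) =>
      (bM p.1 : A) * (bN p.2 : A)) := by
    conv_lhs => rw [hM, hN, Submodule.span_mul_span]
    congr 1
    ext x
    constructor
    · rintro ⟨_, ⟨i, rfl⟩, _, ⟨j, rfl⟩, rfl⟩
      exact ⟨(i, j), rfl⟩
    · rintro ⟨p, rfl⟩
      exact ⟨_, ⟨p.1, rfl⟩, _, ⟨p.2, rfl⟩, rfl⟩
  rw [h1]
  refine (finrank_range_le_card _).trans ?_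
  simp

end Cnt2

theorem cnt2 {v : Fin 8 → Pol K} (hv : QV v) : U v * U v ≠ H K 6 := by
  intro hU
  let φ : MvPolynomial (Fin 8) K →ₐ[K] Pol K := aeval v
  have h1 : (homogeneousSubmodule (Fin 8) K 1).map φ.toLinearMap = U v := by
    rw [homogeneousSubmodule_one_eq_span_X, Submodule.map_span, U]
    congr 1
    rw [← Set.range_comp]
    congr 1
    ext1 i
    simp [φ]
  have h2 : (homogeneousSubmodule (Fin 8) K 2).map φ.toLinearMap = H K 6 := by
    rw [← homogeneousSubmodule_one_pow, Submodule.map_pow, h1, pow_two, hU]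
  have h3 : (homogeneousSubmodule (Fin 8) K 3).map φ.toLinearMap ≤ H K 9 := by
    rw [← homogeneousSubmodule_one_pow, Submodule.map_pow, h1, pow_succ, pow_two, hU]
    exact (mul_le_mul' le_rfl (hv.le.trans cubics_le)).trans (H_mul_le 6 3)
  have r2 := Cnt2.rank_null φ 2
  have r3 := Cnt2.rank_null φ 3
  rw [h2, finrank_H6] at r2
  have h4 : finrank K ↥((homogeneousSubmodule (Fin 8) K 3).map φ.toLinearMap) ≤ 55 := by
    rw [← finrank_H9 (K := K)]
    exact Submodule.finrank_mono h3
  have c2 : (8 + 2 - 1).choose 2 = 36 := by decide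
  have c3 : (8 + 3 - 1).choose 3 = 120 := by decide
  rw [c2] at r2
  rw [c3] at r3
  have hfin : Module.Finite K ↥(Cnt2.Q φ 2) :=
    Submodule.finiteDimensional_of_le (inf_le_left : Cnt2.Q φ 2 ≤ homogeneousSubmodule (Fin 8) K 2)
  have h5 : Cnt2.Q φ 3 ≤ homogeneousSubmodule (Fin 8) K 1 * Cnt2.Q φ 2 :=
    Cnt2.Q3_le φ hv.quad
  have hfin2 : Module.Finite K ↥(homogeneousSubmodule (Fin 8) K 1 * Cnt2.Q φ 2) :=
    Submodule.finiteDimensional_of_le ((mul_le_mul' le_rfl inf_le_left).trans
      (homogeneousSubmodule_mul (σ := Fin 8) (R := K) 1 2))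
  have h6 := (Submodule.finrank_mono h5).trans (Cnt2.finrank_mul_le' _ _)
  have h7 := Cnt2.finrank_S (K := K) 1
  have c1 : (8 + 1 - 1).choose 1 = 8 := by decide
  rw [c1] at h7
  rw [h7] at h6
  omega

end Pool.Agent.BE
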