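import Pool.Agent.Work.MP_be705b_al.E.T3

set_option autoImplicit false
set_option linter.unusedSectionVars false
set_option linter.unusedVariables false

/-!
# MP_be705b_al, elimination: a count in degree four

PROOF. `U v ^ 4 ≤ H K 12` (U v ≤ cubics K, BR.cubics_pow), of dimension 91 (BR.finrank_H12).  Let `ua, ub ∈ U v` with `L ua = a`,
`L ub = b`.  Claim: if `∑ k : Fin 5, C (c k) * (ua ^ (4 - k) * ub ^ k) ∈ U0 * U v ^ 3` then `c = 0`.  Proof of the claim: an element of
`U0 * U v ^ 3` is a finite sum of products `z * y1 * y2 * y3` with `z ∈ U0`, `y ∈ U v`; this gives a relation `P` among finitely many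
elements of `U v`, and `t30` (or: an algebra homomorphism from the range of `aeval v` to `Pol K`, `aeval v F ↦ aeval (lin ∘ L ∘ v) F`,
well defined because of `t30` with `u = v`) gives `∑ c k * lin a ^ (4 - k) * lin b ^ k = 0` because `lin (L z) = lin 0 = 0`.  As `a, b` are
linearly independent, this implies `c = 0`: choose a point where... e.g. compose with a linear substitution mapping `lin a ↦ X 0`,
`lin b ↦ X 1`; or evaluate: `a, b` linearly independent, choose `p, q : Fin 3 → K` with `dot a p = 1`, `dot b p = 0`, `dot a q = 0`,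
`dot b q = 1` and restrict to the line `p + X q` (`rs p q`): `∑ c k X^k = 0`.
So the five elements `ua ^ (4 - k) * ub ^ k` are linearly independent modulo `U0 * U v ^ 3`, all inside `U v ^ 4`, hence
`finrank (U0 * U v ^ 3) + 5 ≤ finrank (U v ^ 4) ≤ 91`.
-/

namespace Pool.Agent.BE

open MvPolynomial Submodule Module Pool.Agent.BR

variable {K : Type*} [Field K]

/-- the graph of the map `aeval v F ↦ aeval (lin ∘ L ∘ v) F` -/
private def RR (v : Fin 8 → Pol K) (L : Pol K →ₗ[K] (Fin 3 → K)) (f g : Pol K) : Prop :=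
  ∃ F : MvPolynomial (Fin 8) K, aeval v F = f ∧ aeval (fun i => lin (L (v i))) F = g

private theorem RR_add {v : Fin 8 → Pol K} {L : Pol K →ₗ[K] (Fin 3 → K)} {f g f' g' : Pol K} (h : RR v L f g)
    (h' : RR v L f' g') : RR v L (f + f') (g + g') := by
  obtain ⟨F, h1, h2⟩ := h
  obtain ⟨F', h1', h2'⟩ := h'
  exact ⟨F + F', by rw [map_add, h1, h1'], by rw [map_add, h2, h2']⟩

private theorem RR_sub {v : Fin 8 → Pol K} {L : Pol K →ₗ[K] (Fin 3 → K)} {f g f' g' : Pol K} (h : RR v L f g)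
    (h' : RR v L f' g') : RR v L (f - f') (g - g') := by
  obtain ⟨F, h1, h2⟩ := h
  obtain ⟨F', h1', h2'⟩ := h'
  exact ⟨F - F', by rw [map_sub, h1, h1'], by rw [map_sub, h2, h2']⟩

private theorem RR_mul {v : Fin 8 → Pol K} {L : Pol K →ₗ[K] (Fin 3 → K)} {f g f' g' : Pol K} (h : RR v L f g)
    (h' : RR v L f' g') : RR v L (f * f') (g * g') := by
  obtain ⟨F, h1, h2⟩ := h
  obtain ⟨F', h1', h2'⟩ := h'
  exact ⟨F * F', by rw [map_mul, h1, h1'], by rw [map_mul, h2, h2']⟩

private theorem RR_C (v : Fin 8 → Pol K) (L : Pol K →ₗ[K] (Fin 3 → K)) (c : K) : RR v L (C c) (C c) := by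
  refine ⟨C c, ?_, ?_⟩
  · rw [aeval_C]; rfl
  · rw [aeval_C]; rfl

private theorem RR_pow {v : Fin 8 → Pol K} {L : Pol K →ₗ[K] (Fin 3 → K)} {f g : Pol K} (h : RR v L f g) (n : ℕ) :
    RR v L (f ^ n) (g ^ n) := by
  obtain ⟨F, h1, h2⟩ := h
  exact ⟨F ^ n, by rw [map_pow, h1], by rw [map_pow, h2]⟩

private theorem RR_sum {v : Fin 8 → Pol K} {L : Pol K →ₗ[K] (Fin 3 → K)} {ι : Type*} (s : Finset ι) {f g : ι → Pol K}
    (h : ∀ i, RR v L (f i) (g i)) : RR v L (∑ i ∈ s, f i) (∑ i ∈ s, g i) := by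
  choose F h1 h2 using h
  exact ⟨∑ i ∈ s, F i, by rw [map_sum]; exact Finset.sum_congr rfl fun i _ => h1 i,
    by rw [map_sum]; exact Finset.sum_congr rfl fun i _ => h2 i⟩

private theorem RR_U {v : Fin 8 → Pol K} (L : Pol K →ₗ[K] (Fin 3 → K)) {u : Pol K} (hu : u ∈ U v) :
    RR v L u (lin (L u)) := by
  obtain ⟨c, hc⟩ := mem_U.1 hu
  refine ⟨∑ i, C (c i) * X i, ?_, ?_⟩
  · rw [map_sum, hc]
    refine Finset.sum_congr rfl fun i _ => ?_
    rw [map_mul, aeval_C, aeval_X]
    rfl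
  · rw [map_sum, hc, ← linL_apply, map_sum, map_sum]
    refine Finset.sum_congr rfl fun i _ => ?_
    rw [map_mul, aeval_C, aeval_X, ← smul_eq_C_mul, map_smul, map_smul, smul_eq_C_mul, linL_apply]
    rfl

private theorem RR_zero {v : Fin 8 → Pol K} (hv : QV v) {L : Pol K →ₗ[K] (Fin 3 → K)} (h : Rel0 v L) {g : Pol K}
    (hg : RR v L 0 g) : g = 0 := by
  obtain ⟨F, h1, h2⟩ := hg
  rw [← h2]
  exact t30 hv h (v_mem v) h1

private theorem RR_upow {v : Fin 8 → Pol K} (L : Pol K →ₗ[K] (Fin 3 → K)) (n : ℕ) {u : Pol K} (hu : u ∈ U v ^ n) :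
    ∃ g, RR v L u g := by
  induction n generalizing u with
  | zero =>
    rw [pow_zero, Submodule.mem_one] at hu
    obtain ⟨c, rfl⟩ := hu
    exact ⟨C c, RR_C v L c⟩
  | succ n ih =>
    rw [pow_succ] at hu
    refine Submodule.mul_induction_on hu ?_ ?_
    · intro m hm k hk
      obtain ⟨g, hg⟩ := ih hm
      exact ⟨_, RR_mul hg (RR_U L hk)⟩
    · rintro x y ⟨g, hg⟩ ⟨g', hg'⟩
      exact ⟨_, RR_add hg hg'⟩

private theorem RR_U0 {v : Fin 8 → Pol K} {L : Pol K →ₗ[K] (Fin 3 → K)} {U0 : Submodule K (Pol K)} (hU0 : U0 ≤ U v)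
    (h0 : ∀ u ∈ U0, L u = 0) (n : ℕ) {x : Pol K} (hx : x ∈ U0 * U v ^ n) : RR v L x 0 := by
  refine Submodule.mul_induction_on hx ?_ ?_
  · intro m hm k hk
    obtain ⟨g, hg⟩ := RR_upow L n hk
    have h1 := RR_U L (hU0 hm)
    rw [h0 m hm, lin_eq_zero.2 rfl] at h1
    have h2 := RR_mul h1 hg
    rwa [zero_mul] at h2
  · intro x y hx hy
    have h2 := RR_add hx hy
    rwa [add_zero] at h2

/-- a functional separating `x` from the line through `y` -/
private theorem exists_fun {x y : Fin 3 → K} (h : x ∉ span K {y}) : ∃ p : Fin 3 → K, dot x p = 1 ∧ dot y p = 0 := by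
  obtain ⟨f, hf1, hf2⟩ := Submodule.exists_dual_map_eq_bot_of_notMem h inferInstance
  have h1 : ∀ z : Fin 3 → K, dot z (fun i => (f x)⁻¹ * f (Pi.single i 1)) = (f x)⁻¹ * f z := by
    intro z
    have h2 : z = z 0 • (Pi.single 0 1 : Fin 3 → K) + z 1 • (Pi.single 1 1 : Fin 3 → K)
        + z 2 • (Pi.single 2 1 : Fin 3 → K) := by
      ext i
      fin_cases i <;> simp
    conv_rhs => rw [h2]
    simp only [dot, map_add, map_smul, smul_eq_mul]
    ring
  refine ⟨fun i => (f x)⁻¹ * f (Pi.single i 1), ?_, ?_⟩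
  · rw [h1, inv_mul_cancel₀ hf1]
  · rw [h1]
    have h3 : f y ∈ (span K {y}).map f := ⟨y, mem_span_singleton_self y, rfl⟩
    rw [hf2, mem_bot] at h3
    rw [h3, mul_zero]

private theorem rs_lin (p q a : Fin 3 → K) :
    rs p q (lin a) = Polynomial.C (dot a p) + Polynomial.C (dot a q) * Polynomial.X := by
  simp only [rs, lin, dot, map_add, map_mul, aeval_X, algHom_C, Polynomial.algebraMap_eq]
  ring

private theorem coeffs {a b : Fin 3 → K} (hab : LinearIndependent K ![a, b]) {c : Fin 5 → K}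
    (h : ∑ k : Fin 5, C (c k) * (lin a ^ (4 - (k : ℕ)) * lin b ^ (k : ℕ)) = (0 : Pol K)) : c = 0 := by
  have hpair := LinearIndependent.pair_iff.1 hab
  have ha : a ∉ span K {b} := by
    intro h1
    obtain ⟨t, ht⟩ := mem_span_singleton.1 h1
    have := hpair 1 (-t) (by rw [one_smul, neg_smul, ht, add_neg_cancel])
    exact one_ne_zero this.1
  have hb : b ∉ span K {a} := by
    intro h1
    obtain ⟨t, ht⟩ := mem_span_singleton.1 h1
    have := hpair (-t) 1 (by rw [one_smul, neg_smul, ht, neg_add_cancel])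
    exact one_ne_zero this.2
  obtain ⟨p, hp1, hp2⟩ := exists_fun ha
  obtain ⟨q, hq1, hq2⟩ := exists_fun hb
  have h2 := congrArg (rs p q) h
  rw [map_sum, map_zero] at h2
  have h3 : ∀ k : Fin 5, rs p q (C (c k) * (lin a ^ (4 - (k : ℕ)) * lin b ^ (k : ℕ))) =
      Polynomial.C (c k) * Polynomial.X ^ (k : ℕ) := by
    intro k
    rw [map_mul, map_mul, map_pow, map_pow, rs_lin, rs_lin, hp1, hq2, hp2, hq1, algHom_C,
      Polynomial.algebraMap_eq]
    simp
  simp only [h3] at h2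
  funext k
  have h4 := congrArg (fun P : Polynomial K => P.coeff (k : ℕ)) h2
  simp only [Polynomial.finsetSum_coeff, Polynomial.coeff_C_mul, Polynomial.coeff_X_pow, Polynomial.coeff_zero] at h4
  rw [Finset.sum_eq_single k] at h4
  · simpa using h4
  · intro j _ hj
    rw [if_neg, mul_zero]
    intro h5
    exact hj (Fin.ext h5.symm)
  · intro h5
    exact absurd (Finset.mem_univ k) h5

theorem cnt4 {v : Fin 8 → Pol K} (hv : QV v) {L : Pol K →ₗ[K] (Fin 3 → K)} (h : Rel0 v L) {a b : Fin 3 → K}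
    (hab : LinearIndependent K ![a, b]) (ha : ∃ u ∈ U v, L u = a) (hb : ∃ u ∈ U v, L u = b)
    {U0 : Submodule K (Pol K)} (hU0 : U0 ≤ U v) (h0 : ∀ u ∈ U0, L u = 0) :
    finrank K ↥(U0 * U v ^ 3) + 5 ≤ 91 := by
  obtain ⟨ua, hua, hLa⟩ := ha
  obtain ⟨ub, hub, hLb⟩ := hb
  set T : (Fin 5 → K) →ₗ[K] Pol K :=
    Fintype.linearCombination K (fun k : Fin 5 => ua ^ (4 - (k : ℕ)) * ub ^ (k : ℕ)) with hT
  have hTa : ∀ c, T c = ∑ k : Fin 5, C (c k) * (ua ^ (4 - (k : ℕ)) * ub ^ (k : ℕ)) := by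
    intro c
    rw [hT, Fintype.linearCombination_apply]
    exact Finset.sum_congr rfl fun k _ => smul_eq_C_mul _ _
  have key : ∀ c, T c ∈ U0 * U v ^ 3 → c = 0 := by
    intro c hc
    have h1 := RR_U0 hU0 h0 3 hc
    have h2 : RR v L (T c) (∑ k : Fin 5, C (c k) * (lin a ^ (4 - (k : ℕ)) * lin b ^ (k : ℕ))) := by
      rw [hTa]
      refine RR_sum _ fun k => RR_mul (RR_C v L _) (RR_mul (RR_pow ?_ _) (RR_pow ?_ _))
      · rw [← hLa]; exact RR_U L hua
      · rw [← hLb]; exact RR_U L hub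
    have h3 := RR_sub h2 h1
    rw [sub_self, sub_zero] at h3
    exact coeffs hab (RR_zero hv h h3)
  have hinj : Function.Injective T := by
    rw [← LinearMap.ker_eq_bot, LinearMap.ker_eq_bot']
    intro c hc
    exact key c (hc ▸ zero_mem _)
  have hle : U v ^ 4 ≤ H K 12 := by
    refine (pow_le_pow_left' hv.le 4).trans ?_
    rw [cubics_pow 2]
  have hX : U0 * U v ^ 3 ≤ H K 12 := by
    refine le_trans ?_ hle
    rw [show (4 : ℕ) = 3 + 1 by norm_num, pow_succ' (U v) 3]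
    exact mul_le_mul_left hU0 _
  have hR : LinearMap.range T ≤ H K 12 := by
    rintro _ ⟨c, rfl⟩
    refine hle ?_
    rw [hTa]
    refine sum_mem fun k _ => ?_
    rw [← smul_eq_C_mul]
    refine smul_mem _ _ ?_
    have h5 : U v ^ (4 - (k : ℕ)) * U v ^ (k : ℕ) = U v ^ 4 := by
      rw [← pow_add]
      congr 1
      have := k.2
      omega
    rw [← h5]
    exact mul_mem_mul (pow_mem_pow _ hua _) (pow_mem_pow _ hub _)
  have : Module.Finite K ↥(U0 * U v ^ 3) := Module.Finite.of_injective _ (inclusion_injective hX)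
  have h6 : Module.Finite K ↥(LinearMap.range T) := Module.Finite.of_injective _ (inclusion_injective hR)
  have h7 := Submodule.finrank_sup_add_finrank_inf_eq (U0 * U v ^ 3) (LinearMap.range T)
  have h8 : (U0 * U v ^ 3) ⊓ LinearMap.range T = ⊥ := by
    rw [eq_bot_iff]
    rintro x ⟨hx1, ⟨c, rfl⟩⟩
    rw [mem_bot, key c hx1, map_zero]
  rw [h8, finrank_bot, add_zero, LinearMap.finrank_range_of_inj hinj, Module.finrank_fin_fun] at h7
  rw [← h7, ← finrank_H12 (K := K)]
  exact Submodule.finrank_mono (sup_le hX hR)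

end Pool.Agent.BE
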