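import Pool.Agent.Work.MP_be705b_al.Forms3
import Pool.Agent.Work.MP_be705b_al.Factor

set_option autoImplicit false
set_option linter.unusedSectionVars false
set_option linter.unusedVariables false

/-!
# MP_be705b_al, elimination: definitions (everything in this file is proved)

* `Quad v`: the ideal of the relations of `v` is generated by its homogeneous elements of degree two.
* `QV v`: `v : Fin 8 → Pol K` is a linearly independent family in `cubics K` with `Quad v`.
* `U v`: the span of `v`.
* `Cut v g`: `U v = cubics K ⊓ ker g`.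
* `Rel0 v L`: quadratic relations `∑ v i * u' i = 0` with `u' i ∈ U v` are mapped to `0` by `L`.
* `Bf c G P i j k l = c * (G i j * G k l) + G i j * P k l + P i j * G k l`.
* `A1 G`, `A2 G`, `BP G`: three types of matrices (two points; a point and a tangent direction; one point).
* `rs s r f = f (s + X r)`, the restriction to a line.
* `cm i j`: coefficient of `x i * x j ^ 2`; `Ln ν w i = ∑ j, ν j * cm i j w`.
-/

namespace Pool.Agent.BE

open MvPolynomial Submodule Module Pool.Agent.BR

variable {K : Type*} [Field K]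

/-- the ideal of the relations of `v` is generated by its homogeneous elements of degree two -/
def Quad {n : ℕ} (v : Fin n → Pol K) : Prop :=
  ∀ F : MvPolynomial (Fin n) K, aeval v F = 0 →
    F ∈ Ideal.span {q : MvPolynomial (Fin n) K | aeval v q = 0 ∧ q.IsHomogeneous 2}

/-- eight linearly independent elements of `cubics K` whose relations are generated by quadrics -/
structure QV (v : Fin 8 → Pol K) : Prop where
  li : LinearIndependent K v
  mem : ∀ i, v i ∈ cubics K
  quad : Quad v

/-- the span of `v` -/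
noncomputable def U (v : Fin 8 → Pol K) : Submodule K (Pol K) := span K (Set.range v)

/-- `g` defines `U v` in `cubics K` -/
def Cut (v : Fin 8 → Pol K) (g : Pol K →ₗ[K] K) : Prop := U v = cubics K ⊓ LinearMap.ker g

/-- quadratic relations are mapped to zero by `L` -/
def Rel0 (v : Fin 8 → Pol K) (L : Pol K →ₗ[K] (Fin 3 → K)) : Prop :=
  ∀ u' : Fin 8 → Pol K, (∀ i, u' i ∈ U v) → ∑ i, v i * u' i = 0 → ∑ i, lin (L (v i)) * lin (L (u' i)) = 0

/-- the bilinear expression of the paper proof -/
def Bf (c : K) (G P : Fin 3 → Fin 3 → K) (i j k l : Fin 3) : K :=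
  c * (G i j * G k l) + G i j * P k l + P i j * G k l

/-- two points -/
def A1 (G : Fin 3 → Fin 3 → K) : Prop :=
  ∃ (s r : Fin 3 → K) (a b : K), LinearIndependent K ![s, r] ∧ a ≠ 0 ∧ b ≠ 0 ∧
    ∀ i j, G i j = a * (s i * s j ^ 2) + b * (r i * r j ^ 2)

/-- a point with a tangent direction -/
def A2 (G : Fin 3 → Fin 3 → K) : Prop :=
  ∃ (s r : Fin 3 → K) (a b : K), LinearIndependent K ![s, r] ∧ a ≠ 0 ∧
    ∀ i j, G i j = a * (r i * s j ^ 2 + 2 * (s i * s j * r j)) + b * (s i * s j ^ 2)

/-- one point -/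
def BP (G : Fin 3 → Fin 3 → K) : Prop :=
  ∃ (p : Fin 3 → K) (a : K), ∀ i j, G i j = a * (p i * p j ^ 2)

/-- the values of `g` on the monomials of `cubics K` -/
noncomputable def GG (g : Pol K →ₗ[K] K) : Fin 3 → Fin 3 → K := fun i j => g (X i * X j ^ 2)

/-- restriction to the line through `s` and `r`, `f ↦ f (s + X r)` -/
noncomputable def rs (s r : Fin 3 → K) : Pol K →ₐ[K] Polynomial K :=
  aeval (fun i => Polynomial.C (s i) + Polynomial.C (r i) * Polynomial.X)

/-- coefficient of `x i * x j ^ 2` -/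
noncomputable def cm (i j : Fin 3) : Pol K →ₗ[K] K :=
  lcoeff K (Finsupp.single i 1 + Finsupp.single j 2)

/-- `Ln ν w i = ∑ j, ν j * cm i j w` -/
noncomputable def Ln (ν : Fin 3 → K) : Pol K →ₗ[K] (Fin 3 → K) :=
  LinearMap.pi fun i => ∑ j, ν j • cm i j

theorem Ln_apply (ν : Fin 3 → K) (w : Pol K) (i : Fin 3) : Ln ν w i = ∑ j, ν j * cm i j w := by
  simp [Ln, LinearMap.sum_apply]

/-- `lin` as a linear map -/
noncomputable def linL : (Fin 3 → K) →ₗ[K] Pol K where
  toFun := lin
  map_add' := lin_add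
  map_smul' k u := by rw [lin_smul, RingHom.id_apply, smul_eq_C_mul]

theorem linL_apply (u : Fin 3 → K) : linL u = lin u := rfl

theorem v_mem (v : Fin 8 → Pol K) (i : Fin 8) : v i ∈ U v := subset_span ⟨i, rfl⟩

theorem mem_U {v : Fin 8 → Pol K} {f : Pol K} : f ∈ U v ↔ ∃ c : Fin 8 → K, f = ∑ i, C (c i) * v i := by
  rw [U, mem_span_range_iff_exists_fun]
  constructor
  · rintro ⟨c, rfl⟩
    exact ⟨c, Finset.sum_congr rfl fun i _ => smul_eq_C_mul _ _⟩
  · rintro ⟨c, rfl⟩
    exact ⟨c, Finset.sum_congr rfl fun i _ => smul_eq_C_mul _ _⟩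

theorem QV.le {v : Fin 8 → Pol K} (h : QV v) : U v ≤ cubics K := by
  rw [U, span_le]
  rintro _ ⟨i, rfl⟩
  exact h.mem i

theorem QV.finrank_U {v : Fin 8 → Pol K} (h : QV v) : finrank K ↥(U v) = 8 := by
  rw [U, finrank_span_eq_card h.li, Fintype.card_fin]

theorem Cut.mem {v : Fin 8 → Pol K} {g : Pol K →ₗ[K] K} (h : Cut v g) {f : Pol K} :
    f ∈ U v ↔ f ∈ cubics K ∧ g f = 0 := by
  rw [h, mem_inf, LinearMap.mem_ker]

end Pool.Agent.BE
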