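import Pool.Agent.Work.MP_be705b_al.E.Defs

set_option autoImplicit false
set_option linter.unusedSectionVars false
set_option linter.unusedVariables false

/-!
# MP_be705b_al, elimination: extension of the field

`v' i = map (algebraMap K L) (v i)`.

PROOF. (a) `LinearIndependent L v'`: linear independence is preserved by field extension (look at the coefficient matrix; or: if
`∑ c i v' i = 0` with `c i ∈ L`, write `c i = ∑ b, r_b (c i) b` in a basis of `L` over `K`: each coordinate gives `∑ r_b (c i) v i = 0`).
(b) `v' i ∈ cubics L`: BR.mem_cubics, `coeff_map`, `IsHomogeneous.map`.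
(c) `Quad v'`: let `F : MvPolynomial (Fin 8) L` with `aeval v' F = 0`.  Take a basis `b` of `L` over `K` and write `F = ∑ b, C b * map F_b`
(finite sum, `F_b : MvPolynomial (Fin 8) K` with the coordinates of the coefficients of `F`).  Then
`0 = aeval v' F = ∑ b, C b * map (aeval v F_b)`, and looking at the coefficients, `aeval v F_b = 0` for all `b`.  So
`F_b ∈ Ideal.span {q | aeval v q = 0 ∧ q.IsHomogeneous 2}`, and `map` sends this ideal into the corresponding one for `v'`
(`Ideal.map_span`, `IsHomogeneous.map`).
-/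

namespace Pool.Agent.BE

open MvPolynomial Submodule Module Pool.Agent.BR

variable {K : Type*} [Field K]

private noncomputable def T {L : Type*} [Field L] [Algebra K L] {σ : Type*} (φ : L →ₗ[K] K)
    (F : MvPolynomial σ L) : MvPolynomial σ K :=
  ∑ m ∈ F.support, monomial m (φ (coeff m F))

private theorem coeff_T {L : Type*} [Field L] [Algebra K L] {σ : Type*} (φ : L →ₗ[K] K)
    (F : MvPolynomial σ L) (m : σ →₀ ℕ) : coeff m (T φ F) = φ (coeff m F) := by
  classical
  rw [T, coeff_sum]
  simp only [coeff_monomial]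
  rw [Finset.sum_ite_eq']
  split_ifs with h
  · rfl
  · rw [notMem_support_iff.1 h, map_zero]

private theorem T_add {L : Type*} [Field L] [Algebra K L] {σ : Type*} (φ : L →ₗ[K] K)
    (F G : MvPolynomial σ L) : T φ (F + G) = T φ F + T φ G := by
  ext m
  rw [coeff_add, coeff_T, coeff_T, coeff_T, coeff_add, map_add]

private theorem T_zero {L : Type*} [Field L] [Algebra K L] {σ : Type*} (φ : L →ₗ[K] K) :
    T φ (0 : MvPolynomial σ L) = 0 := by
  ext m
  rw [coeff_T, coeff_zero, coeff_zero, map_zero]

private theorem T_sum {L : Type*} [Field L] [Algebra K L] {σ ι : Type*} (φ : L →ₗ[K] K)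
    (s : Finset ι) (F : ι → MvPolynomial σ L) : T φ (∑ i ∈ s, F i) = ∑ i ∈ s, T φ (F i) := by
  ext m
  rw [coeff_T, coeff_sum, coeff_sum, map_sum]
  exact Finset.sum_congr rfl fun i _ => (coeff_T _ _ _).symm

private theorem T_C_mul {L : Type*} [Field L] [Algebra K L] {σ : Type*} (φ : L →ₗ[K] K) (c : L)
    (G : MvPolynomial σ K) : T φ (C c * map (algebraMap K L) G) = C (φ c) * G := by
  ext m
  rw [coeff_T, coeff_C_mul, coeff_C_mul, coeff_map, mul_comm, ← Algebra.smul_def, map_smul,
    smul_eq_mul, mul_comm]

private theorem T_monomial {L : Type*} [Field L] [Algebra K L] {σ : Type*} (φ : L →ₗ[K] K) (c : L)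
    (m : σ →₀ ℕ) : T φ (monomial m c) = monomial m (φ c) := by
  classical
  ext m'
  rw [coeff_T, coeff_monomial, coeff_monomial]
  split_ifs
  · rfl
  · exact map_zero _

private theorem T_aeval {L : Type*} [Field L] [Algebra K L] {σ τ : Type*} (φ : L →ₗ[K] K)
    (v : σ → MvPolynomial τ K) (F : MvPolynomial σ L) :
    T φ (aeval (fun i => map (algebraMap K L) (v i)) F) = aeval v (T φ F) := by
  induction F using MvPolynomial.induction_on' with
  | monomial m c =>
    rw [aeval_monomial, T_monomial, aeval_monomial]
    have h : (m.prod fun i k => map (algebraMap K L) (v i) ^ k) =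
        map (algebraMap K L) (m.prod fun i k => v i ^ k) := by
      rw [Finsupp.prod, Finsupp.prod, map_prod]
      exact Finset.prod_congr rfl fun i _ => (map_pow _ _ _).symm
    rw [h]
    exact T_C_mul φ c _
  | add p q hp hq => rw [map_add, T_add, hp, hq, T_add, map_add]

private theorem T_repr {L : Type*} [Field L] [Algebra K L] {σ ι : Type*} (B : Basis ι K L)
    (F : MvPolynomial σ L) : ∃ s : Finset ι,
      F = ∑ j ∈ s, C (B j) * map (algebraMap K L) (T (B.coord j) F) := by
  classical
  refine ⟨F.support.biUnion fun m => (B.repr (coeff m F)).support, ?_⟩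
  ext m
  rw [coeff_sum]
  simp only [coeff_C_mul, coeff_map, coeff_T]
  by_cases hm : m ∈ F.support
  · conv_lhs => rw [← B.linearCombination_repr (coeff m F), Finsupp.linearCombination_apply]
    rw [Finsupp.sum_of_support_subset (B.repr (coeff m F)) (s := F.support.biUnion fun m =>
      (B.repr (coeff m F)).support) ?_ (fun i a => a • B i) (fun _ _ => zero_smul _ _)]
    · apply Finset.sum_congr rfl
      intro j _
      rw [Algebra.smul_def, mul_comm, Basis.coord_apply]
    · intro j hj
      exact Finset.mem_biUnion.2 ⟨m, hm, hj⟩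
  · rw [notMem_support_iff.1 hm]
    simp

theorem ext {L : Type*} [Field L] [Algebra K L] {v : Fin 8 → Pol K} (hv : QV v) :
    QV (fun i => map (algebraMap K L) (v i)) := by
  obtain ⟨ι, B⟩ : ∃ ι : Type _, Nonempty (Basis ι K L) := ⟨_, ⟨Basis.ofVectorSpace K L⟩⟩
  obtain ⟨B⟩ := B
  refine ⟨?_, ?_, ?_⟩
  · rw [Fintype.linearIndependent_iff]
    intro c hc i
    rw [← B.forall_coord_eq_zero_iff]
    intro j
    have h := congrArg (T (B.coord j)) hc
    rw [T_sum, T_zero] at h
    have h' : ∑ i, B.coord j (c i) • v i = 0 := by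
      rw [← h]
      apply Finset.sum_congr rfl
      intro i _
      rw [smul_eq_C_mul, smul_eq_C_mul, T_C_mul]
    exact Fintype.linearIndependent_iff.1 hv.li _ h' i
  · intro i
    have h := mem_cubics.1 (hv.mem i)
    refine mem_cubics.2 ⟨?_, ?_⟩
    · exact IsHomogeneous.map h.1 _
    · have h2 := h.2
      rw [cf_apply] at h2 ⊢
      rw [coeff_map, h2, map_zero]
  · intro F hF
    obtain ⟨s, hs⟩ := T_repr B F
    rw [hs]
    apply Ideal.sum_mem
    intro j _
    apply Ideal.mul_mem_left
    have h1 : aeval v (T (B.coord j) F) = 0 := by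
      rw [← T_aeval, hF, T_zero]
    have h2 := hv.quad _ h1
    have h3 := Ideal.mem_map_of_mem (map (algebraMap K L)) h2
    rw [Ideal.map_span] at h3
    refine Ideal.span_mono ?_ h3
    rintro _ ⟨q, ⟨hq1, hq2⟩, rfl⟩
    refine ⟨?_, hq2.map _⟩
    have h4 : aeval (fun i => map (algebraMap K L) (v i)) (map (algebraMap K L) q) =
        map (algebraMap K L) (aeval v q) := by
      rw [aeval_def, aeval_def, eval₂_map, eval₂_comp_left (map (algebraMap K L))]
      congr 1
      ext c
      simp
    rw [h4, hq1, map_zero]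

end Pool.Agent.BE
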