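import Pool.Agent.Work.MP_be705b_al.E.Defs

set_option autoImplicit false
set_option linter.unusedSectionVars false
set_option linter.unusedVariables false

/-!
# MP_be705b_al, elimination: orders for which one variable can be eliminated

PROOF. `v i = t (s.succAbove i)` is linearly independent and in `cubics K`.  `Quad v`: let `F : MvPolynomial (Fin 8) K` with
`aeval v F = 0` and let `F' = rename s.succAbove F`, so `aeval t F' = 0`.  We show by well-founded induction on
`τ.toSyn (τ.degree F')` that `F` is in the ideal `I2` spanned by the quadratic relations of `v`.  If `F ≠ 0` then `F' ≠ 0`, and by `hGB` there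
is `q` with `aeval t q = 0`, `q ≠ 0`, `q` homogeneous of degree 2, `τ.degree q ≤ τ.degree F'`.  `F'` does not involve the variable `s`, so
`τ.degree F' s = 0`, `τ.degree q s = 0` and by `hs` no monomial of `q` involves `s`: `q = rename s.succAbove q0`
(`MvPolynomial.exists_rename_eq_of_vars_subset_range` or similar), `aeval v q0 = 0`, `q0` homogeneous of degree 2.  Put
`m = τ.degree F' - τ.degree q` (no `s`), `c = leadingCoeff F' / leadingCoeff q`, `F1 = F - C c * monomial m0 1 * q0` with
`m = m0.mapDomain s.succAbove`.  Then `aeval v F1 = 0` and either `F1 = 0` or the degree of `rename F1 = F' - monomial m c * q` is smaller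
(`MonomialOrder.degree_sub_lt...`, or a direct argument with supports).  By induction `F1 ∈ I2`, so `F ∈ I2`.
-/

namespace Pool.Agent.BE

open MvPolynomial Submodule Module Pool.Agent.BR

variable {K : Type*} [Field K]

private theorem degree_sub_lt' (τ : MonomialOrder (Fin 9)) {F G : MvPolynomial (Fin 9) K}
    (hd : τ.degree G = τ.degree F) (hc : τ.leadingCoeff G = τ.leadingCoeff F) (h : F - G ≠ 0) :
    τ.toSyn (τ.degree (F - G)) < τ.toSyn (τ.degree F) := by
  have h1 : τ.toSyn (τ.degree (F - G)) ≤ τ.toSyn (τ.degree F) := by
    have h2 := τ.degree_sub_le (f := F) (g := G)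
    rw [hd, max_self] at h2
    exact h2
  refine lt_of_le_of_ne h1 fun h2 => ?_
  have h3 : τ.degree (F - G) = τ.degree F := τ.toSyn.injective h2
  have h4 : coeff (τ.degree (F - G)) (F - G) ≠ 0 := τ.coeff_degree_ne_zero_iff.mpr h
  apply h4
  rw [h3, coeff_sub]
  have h5 : coeff (τ.degree F) G = coeff (τ.degree F) F := by
    have h6 : coeff (τ.degree G) G = coeff (τ.degree F) F := hc
    rwa [hd] at h6
  rw [h5, sub_self]

theorem order {t : Fin 9 → Pol K} (hli : LinearIndependent K t) (ht : ∀ i, t i ∈ cubics K)
    (τ : MonomialOrder (Fin 9)) (s : Fin 9)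
    (hs : ∀ q : MvPolynomial (Fin 9) K, aeval t q = 0 → q.IsHomogeneous 2 → τ.degree q s = 0 →
      ∀ m ∈ q.support, m s = 0)
    (hGB : ∀ F : MvPolynomial (Fin 9) K, aeval t F = 0 → F ≠ 0 →
      ∃ q : MvPolynomial (Fin 9) K, aeval t q = 0 ∧ q ≠ 0 ∧ q.IsHomogeneous 2 ∧ τ.degree q ≤ τ.degree F) :
    QV (fun i => t (s.succAbove i)) := by
  have hinj : Function.Injective (s.succAbove) := Fin.succAbove_right_injective
  refine ⟨hli.comp _ hinj, fun i => ht _, ?_⟩
  have hav : ∀ F : MvPolynomial (Fin 8) K,
      aeval t (rename s.succAbove F) = aeval (fun i => t (s.succAbove i)) F := by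
    intro F
    rw [aeval_rename]
    rfl
  have key : ∀ a : τ.syn, ∀ F : MvPolynomial (Fin 8) K,
      aeval (fun i => t (s.succAbove i)) F = 0 → τ.toSyn (τ.degree (rename s.succAbove F)) = a →
      F ∈ Ideal.span {q : MvPolynomial (Fin 8) K |
        aeval (fun i => t (s.succAbove i)) q = 0 ∧ q.IsHomogeneous 2} := by
    intro a
    induction a using WellFoundedLT.induction with
    | ind a ih =>
      intro F hF ha
      by_cases hF0 : F = 0
      · rw [hF0]
        exact Ideal.zero_mem _
      · have hF'0 : rename s.succAbove F ≠ 0 := by
          intro h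
          exact hF0 (rename_injective _ hinj (by rw [h, map_zero]))
        obtain ⟨q, hq, hq0, hq2, hqF⟩ := hGB (rename s.succAbove F) (by rw [hav, hF]) hF'0
        -- the leading monomial of F'
        have hmem := τ.degree_mem_support hF'0
        rw [support_rename_of_injective hinj, Finset.mem_image] at hmem
        obtain ⟨a0, ha0, ha0'⟩ := hmem
        have hFs : τ.degree (rename s.succAbove F) s = 0 := by
          rw [← ha0']
          apply Finsupp.mapDomain_of_notMem_range
          rintro ⟨i, hi⟩
          exact Fin.succAbove_ne s i hi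
        have hqs : τ.degree q s = 0 := by
          have := hqF s
          rw [hFs] at this
          exact Nat.le_zero.mp this
        have hqm := hs q hq hq2 hqs
        have hvars : (q.vars : Set (Fin 9)) ⊆ Set.range s.succAbove := by
          intro i hi
          have hi' : i ∈ q.vars := hi
          rw [mem_vars_iff_mem_support] at hi'
          obtain ⟨d, hd, hid⟩ := hi'
          have his : i ≠ s := by
            rintro rfl
            exact (Finsupp.mem_support_iff.mp hid) (hqm d hd)
          obtain ⟨j, hj⟩ := Fin.exists_succAbove_eq his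
          exact ⟨j, hj⟩
        obtain ⟨q0, rfl⟩ := exists_rename_eq_of_vars_subset_range q s.succAbove hinj hvars
        have hq00 : aeval (fun i => t (s.succAbove i)) q0 = 0 := by rw [← hav, hq]
        have hq02 : q0.IsHomogeneous 2 := (IsHomogeneous.rename_isHomogeneous_iff hinj).mp hq2
        have hmemq := τ.degree_mem_support hq0
        rw [support_rename_of_injective hinj, Finset.mem_image] at hmemq
        obtain ⟨b0, hb0, hb0'⟩ := hmemq
        have hba : b0 ≤ a0 := by
          intro i
          have h1 := hqF (s.succAbove i)
          rw [← ha0', ← hb0', Finsupp.mapDomain_apply hinj, Finsupp.mapDomain_apply hinj] at h1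
          exact h1
        set L := τ.leadingCoeff (rename s.succAbove F) with hL
        set l := τ.leadingCoeff (rename s.succAbove q0) with hl
        have hL0 : L ≠ 0 := τ.leadingCoeff_ne_zero_iff.mpr hF'0
        have hl0 : l ≠ 0 := τ.leadingCoeff_ne_zero_iff.mpr hq0
        have hLl : L / l ≠ 0 := div_ne_zero hL0 hl0
        set F1 := F - monomial (a0 - b0) (L / l) * q0 with hF1
        have hren : rename s.succAbove F1 = rename s.succAbove F -
            monomial (Finsupp.mapDomain s.succAbove (a0 - b0)) (L / l) * rename s.succAbove q0 := by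
          rw [hF1, map_sub, map_mul, rename_monomial]
        have hav1 : aeval (fun i => t (s.succAbove i)) F1 = 0 := by
          rw [hF1, map_sub, map_mul, hq00, hF, mul_zero, sub_zero]
        have hmono : monomial (Finsupp.mapDomain s.succAbove (a0 - b0)) (L / l) ≠
            (0 : MvPolynomial (Fin 9) K) := by
          rw [Ne, monomial_eq_zero]
          exact hLl
        have hdeg : τ.degree (monomial (Finsupp.mapDomain s.succAbove (a0 - b0)) (L / l) *
            rename s.succAbove q0) = τ.degree (rename s.succAbove F) := by
          classical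
          rw [τ.degree_mul hmono hq0, τ.degree_monomial, if_neg hLl, ← ha0', ← hb0',
            ← Finsupp.mapDomain_add, tsub_add_cancel_of_le hba]
        have hlc : τ.leadingCoeff (monomial (Finsupp.mapDomain s.succAbove (a0 - b0)) (L / l) *
            rename s.succAbove q0) = τ.leadingCoeff (rename s.succAbove F) := by
          rw [τ.leadingCoeff_mul, τ.leadingCoeff_monomial, ← hl, ← hL, div_mul_cancel₀ _ hl0]
        have hmem1 : F1 ∈ Ideal.span {q : MvPolynomial (Fin 8) K |
            aeval (fun i => t (s.succAbove i)) q = 0 ∧ q.IsHomogeneous 2} := by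
          by_cases h0 : F1 = 0
          · rw [h0]
            exact Ideal.zero_mem _
          · have h0' : rename s.succAbove F1 ≠ 0 := by
              intro h
              exact h0 (rename_injective _ hinj (by rw [h, map_zero]))
            have hlt : τ.toSyn (τ.degree (rename s.succAbove F1)) < a := by
              rw [← ha, hren]
              exact degree_sub_lt' τ hdeg hlc (by rw [← hren]; exact h0')
            exact ih _ hlt F1 hav1 rfl
        have hq0m : q0 ∈ Ideal.span {q : MvPolynomial (Fin 8) K |
            aeval (fun i => t (s.succAbove i)) q = 0 ∧ q.IsHomogeneous 2} :=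
          Ideal.subset_span ⟨hq00, hq02⟩
        have hFe : F = F1 + monomial (a0 - b0) (L / l) * q0 := by
          rw [hF1]; ring
        rw [hFe]
        exact Ideal.add_mem _ hmem1 (Ideal.mul_mem_left _ _ hq0m)
  intro F hF
  exact key _ F hF rfl

end Pool.Agent.BE
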