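import Pool.Agent.Work.MP_be705b_al.E.Main
import Pool.Agent.Work.MP_be705b_al.E.Order
import Pool.Agent.Work.MP_be705b_al.Change

set_option autoImplicit false
set_option linter.unusedSectionVars false
set_option linter.unusedVariables false

/-!
# MP_be705b_al, elimination: the theorem for the ideal of the pinched Veronese ring
-/

namespace Pool.Agent.BE

open MvPolynomial Submodule Module Pool.Agent.BR

variable {K : Type*} [Field K]

theorem final {A B : Matrix (Fin 9) (Fin 9) K} (hAB : A * B = 1) (hBA : B * A = 1) (τ : MonomialOrder (Fin 9))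
    (s : Fin 9)
    (hs : ∀ q ∈ (pvIdeal K).map (change B), q.IsHomogeneous 2 → τ.degree q s = 0 → ∀ m ∈ q.support, m s = 0)
    (hGB : ∀ F ∈ (pvIdeal K).map (change B), F ≠ 0 →
      ∃ q ∈ (pvIdeal K).map (change B), q ≠ 0 ∧ q.IsHomogeneous 2 ∧ τ.degree q ≤ τ.degree F) : False := by
  rw [map_change hAB hBA] at hs hGB
  exact main (order (newForms_li hBA) (newForms_mem A) τ s (fun q h1 h2 h3 => hs q h1 h2 h3) (fun F h1 h2 => by
    obtain ⟨q, h3, h4⟩ := hGB F h1 h2
    exact ⟨q, h3, h4⟩))

end Pool.Agent.BE
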