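import Pool.Agent.Work.MP_be705b_al.E.Defs

set_option autoImplicit false
set_option linter.unusedSectionVars false
set_option linter.unusedVariables false

/-!
# MP_be705b_al, elimination: the equation of `U v`

PROOF. `finrank (U v) = 8` (QV.finrank_U), `U v ≤ cubics K` (QV.le), `finrank (cubics K) = 9` (BR.finrank_cubics).  So there is
`w ∈ cubics K`, `w ∉ U v`, and a linear functional `g` with `g = 0` on `U v` and `g w = 1`
(e.g. `Submodule.exists_dual_map_eq_bot_of_notMem`, or `exists_le_ker_of_notMem`, rescaled).  Then `U v ≤ cubics K ⊓ ker g`, and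
`cubics K ⊓ ker g` is a proper subspace of `cubics K` (it does not contain `w`), so its dimension is at most 8; equality of
dimensions gives `U v = cubics K ⊓ ker g` (`Submodule.eq_of_le_of_finrank_le`).  All spaces are finite dimensional
(BR.fin_H, cubics_le : cubics K ≤ H K 3, `Submodule.finiteDimensional_of_le`).
-/

namespace Pool.Agent.BE

open MvPolynomial Submodule Module Pool.Agent.BR

variable {K : Type*} [Field K]

theorem exists_cut {v : Fin 8 → Pol K} (hv : QV v) :
    ∃ g : Pol K →ₗ[K] K, Cut v g ∧ ∃ w ∈ cubics K, g w = 1 := by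
  have : Module.Finite K ↥(cubics K) := Submodule.finiteDimensional_of_le cubics_le
  have h1 : ¬ cubics K ≤ U v := by
    intro h
    have : Module.Finite K ↥(U v) := Submodule.finiteDimensional_of_le hv.le
    have h2 := Submodule.finrank_mono h
    rw [finrank_cubics, hv.finrank_U] at h2
    omega
  obtain ⟨w, hw, hwU⟩ := Set.not_subset.1 h1
  obtain ⟨f, hf, hf2⟩ := Submodule.exists_le_ker_of_notMem hwU
  refine ⟨(f w)⁻¹ • f, ?_, w, hw, by simp [hf]⟩
  have h3 : U v ≤ cubics K ⊓ LinearMap.ker ((f w)⁻¹ • f) := by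
    refine le_inf hv.le fun x hx => ?_
    have := hf2 hx
    rw [LinearMap.mem_ker] at this ⊢
    rw [LinearMap.smul_apply, this, smul_zero]
  have : Module.Finite K ↥(cubics K ⊓ LinearMap.ker ((f w)⁻¹ • f)) :=
    Submodule.finiteDimensional_of_le inf_le_left
  refine Submodule.eq_of_le_of_finrank_le h3 ?_
  rw [hv.finrank_U]
  have h4 : cubics K ⊓ LinearMap.ker ((f w)⁻¹ • f) < cubics K := by
    refine lt_of_le_of_ne inf_le_left fun h => ?_
    have h5 : w ∈ cubics K ⊓ LinearMap.ker ((f w)⁻¹ • f) := by rw [h]; exact hw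
    have h6 := (LinearMap.mem_ker.1 h5.2)
    rw [LinearMap.smul_apply, smul_eq_mul, inv_mul_cancel₀ hf] at h6
    exact one_ne_zero h6
  have h7 := Submodule.finrank_lt_finrank_of_lt h4
  rw [finrank_cubics] at h7
  exact Nat.lt_succ_iff.1 h7
end Pool.Agent.BE
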