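import Pool.Agent.Work.MP_be705b_al.E.Defs

set_option autoImplicit false
set_option linter.unusedSectionVars false
set_option linter.unusedVariables false

/-!
# MP_be705b_al, elimination: the test principle
-/

namespace Pool.Agent.BE

open MvPolynomial Submodule Module Pool.Agent.BR

variable {K : Type*} [Field K]

/-- a form of degree two is `∑ i, ∑ j, c i j * X i * X j` -/
theorem quad_expand {n : ℕ} {q : MvPolynomial (Fin n) K} (hq : q.IsHomogeneous 2) :
    ∃ c : Fin n → Fin n → K, q = ∑ i, X i * ∑ j, C (c i j) * X j := by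
  classical
  suffices H : ∀ m ∈ q.support, ∃ i j : Fin n, m = Finsupp.single i 1 + Finsupp.single j 1 by
    have h1 : q ∈ span K (Set.range fun p : Fin n × Fin n => (X p.1 * X p.2 : MvPolynomial (Fin n) K)) := by
      rw [q.as_sum]
      refine sum_mem fun m hm => ?_
      obtain ⟨i, j, hij⟩ := H m hm
      have h2 : monomial m (coeff m q) = coeff m q • (X i * X j : MvPolynomial (Fin n) K) := by
        rw [hij, X, X, monomial_mul, smul_monomial]
        simp
      rw [h2]
      exact smul_mem _ _ (subset_span ⟨(i, j), rfl⟩)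
    obtain ⟨c, hc⟩ := (mem_span_range_iff_exists_fun K).1 h1
    refine ⟨fun i j => c (i, j), ?_⟩
    rw [← hc, Fintype.sum_prod_type]
    refine Finset.sum_congr rfl fun i _ => ?_
    rw [Finset.mul_sum]
    refine Finset.sum_congr rfl fun j _ => ?_
    rw [smul_eq_C_mul]
    ring
  intro m hm
  have hd : m.degree = 2 := by
    by_contra hcon
    exact (mem_support_iff.1 hm) (hq.coeff_eq_zero hcon)
  have hm0 : m ≠ 0 := by
    rintro rfl
    simp at hd
  obtain ⟨i, hi⟩ := Finsupp.ne_iff.1 hm0
  rw [Finsupp.zero_apply] at hi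
  have h1 : Finsupp.single i 1 ≤ m := Finsupp.single_le_iff.2 (Nat.one_le_iff_ne_zero.2 hi)
  have h2 : (m - Finsupp.single i 1).degree = 1 := by
    have h3 : (Finsupp.single i 1 + (m - Finsupp.single i 1)).degree = 2 := by
      rw [add_tsub_cancel_of_le h1, hd]
    rw [map_add, Finsupp.degree_single] at h3
    omega
  have hm1 : m - Finsupp.single i 1 ≠ 0 := by
    intro h
    rw [h] at h2
    simp at h2
  obtain ⟨j, hj⟩ := Finsupp.ne_iff.1 hm1
  rw [Finsupp.zero_apply] at hj
  have h4 : Finsupp.single j 1 ≤ m - Finsupp.single i 1 :=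
    Finsupp.single_le_iff.2 (Nat.one_le_iff_ne_zero.2 hj)
  have h5 : (m - Finsupp.single i 1 - Finsupp.single j 1).degree = 0 := by
    have h3 : (Finsupp.single j 1 + (m - Finsupp.single i 1 - Finsupp.single j 1)).degree = 1 := by
      rw [add_tsub_cancel_of_le h4, h2]
    rw [map_add, Finsupp.degree_single] at h3
    omega
  have h6 : m - Finsupp.single i 1 - Finsupp.single j 1 = 0 := (Finsupp.degree_eq_zero_iff _).1 h5
  refine ⟨i, j, ?_⟩
  rw [← add_tsub_cancel_of_le h1, ← add_tsub_cancel_of_le h4, h6, add_zero]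

/-- substitution of linear forms -/
theorem aeval_subst {n m : ℕ} (c : Fin m → Fin n → K) {B : Type*} [CommRing B] [Algebra K B] (w : Fin n → B)
    (P : MvPolynomial (Fin m) K) :
    aeval w (aeval (fun i => ∑ j, C (c i j) * X j) P : MvPolynomial (Fin n) K) =
      aeval (fun i => ∑ j, algebraMap K B (c i j) * w j) P := by
  have h7 : ((aeval w : MvPolynomial (Fin n) K →ₐ[K] B).comp
      (aeval (fun i => ∑ j, C (c i j) * X j) : MvPolynomial (Fin m) K →ₐ[K] MvPolynomial (Fin n) K)) =
      aeval (fun i => ∑ j, algebraMap K B (c i j) * w j) := by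
    apply algHom_ext
    intro i
    rw [AlgHom.comp_apply, aeval_X, aeval_X, map_sum]
    refine Finset.sum_congr rfl fun j _ => ?_
    rw [map_mul, aeval_X, aeval_C]
  exact DFunLike.congr_fun h7 P

/-- If the quadratic relations of `U v` are mapped into `J` by `lam`, then all relations are. -/
theorem t3 {v : Fin 8 → Pol K} (hq : Quad v) {A : Type*} [CommRing A] [Algebra K A] (lam : Pol K →ₗ[K] A)
    (J : Ideal A)
    (h : ∀ u' : Fin 8 → Pol K, (∀ i, u' i ∈ U v) → ∑ i, v i * u' i = 0 → ∑ i, lam (v i) * lam (u' i) ∈ J)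
    {m : ℕ} {u : Fin m → Pol K} (hu : ∀ i, u i ∈ U v) {P : MvPolynomial (Fin m) K} (hP : aeval u P = 0) :
    aeval (fun i => lam (u i)) P ∈ J := by
  -- relations of `v`
  have key : ∀ F : MvPolynomial (Fin 8) K, aeval v F = 0 → aeval (fun i => lam (v i)) F ∈ J := by
    intro F hF
    have h1 : Ideal.span {q : MvPolynomial (Fin 8) K | aeval v q = 0 ∧ q.IsHomogeneous 2} ≤
        J.comap (aeval (fun i => lam (v i)) : MvPolynomial (Fin 8) K →ₐ[K] A) := by
      rw [Ideal.span_le]
      rintro q ⟨hq0, hq2⟩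
      obtain ⟨c, hc⟩ := quad_expand hq2
      have h2 : ∀ i, (∑ j, C (c i j) * v j) ∈ U v := fun i => mem_U.2 ⟨c i, rfl⟩
      have h3 : ∑ i, v i * ∑ j, C (c i j) * v j = 0 := by
        rw [← hq0, hc, map_sum]
        refine Finset.sum_congr rfl fun i _ => ?_
        rw [map_mul, aeval_X, map_sum]
        congr 1
        refine Finset.sum_congr rfl fun j _ => ?_
        rw [map_mul, aeval_X, aeval_C]
        rfl
      have h4 := h _ h2 h3
      have h5 : aeval (fun i => lam (v i)) q = ∑ i, lam (v i) * lam (∑ j, C (c i j) * v j) := by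
        rw [hc, map_sum]
        refine Finset.sum_congr rfl fun i _ => ?_
        rw [map_mul, aeval_X, map_sum, map_sum]
        congr 1
        refine Finset.sum_congr rfl fun j _ => ?_
        rw [map_mul, aeval_X, aeval_C, ← smul_eq_C_mul, map_smul, Algebra.smul_def]
      rw [SetLike.mem_coe, Ideal.mem_comap]
      change aeval (fun i => lam (v i)) q ∈ J
      rw [h5]
      exact h4
    exact h1 (hq F hF)
  choose c hc using fun i => mem_U.1 (hu i)
  set F : MvPolynomial (Fin 8) K := aeval (fun i => ∑ j, C (c i j) * X j) P with hF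
  have h8 : aeval v F = 0 := by
    rw [hF, aeval_subst, ← hP]
    congr 1
    congr 1
    funext i
    rw [hc i]
    rfl
  have h9 := key F h8
  rw [hF, aeval_subst] at h9
  convert h9 using 3
  funext i
  rw [hc i, map_sum]
  refine Finset.sum_congr rfl fun j _ => ?_
  rw [← smul_eq_C_mul, map_smul, Algebra.smul_def]

/-- the case `J = 0` -/
theorem t30 {v : Fin 8 → Pol K} (hv : QV v) {L : Pol K →ₗ[K] (Fin 3 → K)} (h : Rel0 v L) {m : ℕ}
    {u : Fin m → Pol K} (hu : ∀ i, u i ∈ U v) {P : MvPolynomial (Fin m) K} (hP : aeval u P = 0) :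
    aeval (fun i => lin (L (u i))) P = 0 := by
  have h1 := t3 hv.quad (linL.comp L) ⊥ (fun u' h1 h2 => by
    simpa only [LinearMap.comp_apply, linL_apply, Ideal.mem_bot] using h u' h1 h2) hu hP
  simpa only [LinearMap.comp_apply, linL_apply, Ideal.mem_bot] using h1

end Pool.Agent.BE
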