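import Pool.Agent.Work.MP_be705b_al.E.AlgDep
import Pool.Agent.Work.MP_be705b_al.E.T3

set_option autoImplicit false
set_option linter.unusedSectionVars false
set_option linter.unusedVariables false

/-!
# MP_be705b_al, elimination: a surjection onto a three dimensional space

PROOF. `finrank (U v) = 8 > 3`, so there is `u0 ∈ U v`, `u0 ≠ 0`, `L u0 = 0`.  Choose `a j ∈ U v` with `L (a j) = Pi.single j 1`
(`j : Fin 3`), so `lin (L (a j)) = X j`, and put `u = ![u0, a 0, a 1, a 2]`.  By `alg_dep` there is `P` with `aeval u P = 0` and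
not `X 0 ∣ P`.  By `t30`, `aeval (fun i => lin (L (u i))) P = 0`, and `lin (L (u i)) = ![0, X 0, X 1, X 2] i`, so `X 0 ∣ P` by `X_dvd`.
-/

namespace Pool.Agent.BE

open MvPolynomial Submodule Module Pool.Agent.BR

variable {K : Type*} [Field K]

theorem plane {v : Fin 8 → Pol K} (hv : QV v) {L : Pol K →ₗ[K] (Fin 3 → K)}
    (hL : ∀ c : Fin 3 → K, ∃ u ∈ U v, L u = c) (h : Rel0 v L) : False := by
  have hfin := hv.finrank_U
  obtain ⟨u0, hu0, hL0, hne⟩ : ∃ u0 ∈ U v, L u0 = 0 ∧ u0 ≠ 0 := by
    have hfd : FiniteDimensional K ↥(U v) := by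
      apply FiniteDimensional.of_finrank_pos
      omega
    have hker : 0 < finrank K ↥(LinearMap.ker (L.domRestrict (U v))) := by
      have h1 := LinearMap.finrank_range_add_finrank_ker (L.domRestrict (U v))
      have h2 : finrank K ↥(LinearMap.range (L.domRestrict (U v))) ≤ finrank K (Fin 3 → K) :=
        Submodule.finrank_le _
      rw [Module.finrank_fin_fun] at h2
      omega
    have : Nontrivial ↥(LinearMap.ker (L.domRestrict (U v))) := Module.finrank_pos_iff.1 hker
    obtain ⟨⟨w, hw⟩, hw0⟩ := exists_ne (0 : ↥(LinearMap.ker (L.domRestrict (U v))))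
    refine ⟨w.1, w.2, ?_, ?_⟩
    · have := LinearMap.mem_ker.1 hw
      simpa using this
    · intro h0
      apply hw0
      apply Subtype.ext
      exact Subtype.ext h0
  choose a ha hLa using fun j : Fin 3 => hL (Pi.single j 1)
  obtain ⟨P, hP, hX⟩ := alg_dep (![u0, a 0, a 1, a 2] : Fin 4 → Pol K) (by simpa using hne)
  apply hX
  apply X_dvd
  have h1 := t30 hv h (u := ![u0, a 0, a 1, a 2]) (by
    intro i
    fin_cases i
    · exact hu0
    · exact ha 0
    · exact ha 1
    · exact ha 2) hP
  have h2 : (fun i : Fin 4 => lin (L ((![u0, a 0, a 1, a 2] : Fin 4 → Pol K) i))) =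
      (![0, X 0, X 1, X 2] : Fin 4 → Pol K) := by
    funext i
    fin_cases i
    · simp [hL0, lin]
    · simp [hLa, lin]
    · simp [hLa, lin]
    · simp [hLa, lin]
  rw [h2] at h1
  exact h1

end Pool.Agent.BE
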