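import Pool.Agent.Work.MP_be705b_al.E.Line
import Pool.Agent.Work.MP_be705b_al.E.Plane

set_option autoImplicit false
set_option linter.unusedSectionVars false
set_option linter.unusedVariables false

/-!
# MP_be705b_al, elimination: lines on which `U v` is three dimensional

PROOF. Let `V` be the space of all `f : Polynomial K` with `f.natDegree ≤ 3` and `∑ k, h k * f.coeff k = 0`; `e` is a basis of `V`.
For `u ∈ U v` (so `u ∈ cubics K`, `g u = 0`) we have `rs s r u ∈ V` (rs_natDegree, hh).  Choose a linear map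
`L' : Polynomial K →ₗ[K] (Fin 3 → K)` with `L' (e j) = Pi.single j 1` (e.g. `hli.repr`-like on the span, extended to `Polynomial K` by
`LinearMap.exists_extend`), so `f = ∑ j, C (L' f j) * e j` for all `f ∈ V`, and put `L = L' ∘ rs s r`.
 * `L` maps `U v` onto `Fin 3 → K`: for `c`, the polynomial `f = ∑ c j e j ∈ V` is `rs s r w` for some `w ∈ cubics K` (line_onto:
   all coefficients 0..3 agree, the others are zero by degree), and `g w = 0` by `hh`, so `w ∈ U v`.
 * `Rel0 v L`: if `∑ v i * u' i = 0`, apply `rs s r`: `∑ rs (v i) * rs (u' i) = 0`, i.e. `aeval e Q = 0` for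
   `Q = ∑ lin (L (v i)) * lin (L (u' i)) ∈ H K 2`, so `Q = 0` by `hq`.
 Now use `plane`.
-/

namespace Pool.Agent.BE

open MvPolynomial Submodule Module Pool.Agent.BR

variable {K : Type*} [Field K]

private theorem lf_aeval (e : Fin 3 → Polynomial K) (c : Fin 3 → K) :
    aeval e (lin c) = ∑ j, Polynomial.C (c j) * e j := by
  simp only [lin, map_add, map_mul, aeval_X, aeval_C, Fin.sum_univ_three]
  rfl

private theorem lf_rs_eq {s r : Fin 3 → K} {w : Pol K} {f : Polynomial K} (hw : w ∈ cubics K)
    (hf : f.natDegree ≤ 3) (h : ∀ k : Fin 4, (rs s r w).coeff k = f.coeff k) : rs s r w = f := by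
  ext n
  by_cases hn : n < 4
  · exact h ⟨n, hn⟩
  · rw [Polynomial.coeff_eq_zero_of_natDegree_lt
      (lt_of_le_of_lt (rs_natDegree s r (cubics_le hw)) (by omega)),
      Polynomial.coeff_eq_zero_of_natDegree_lt (lt_of_le_of_lt hf (by omega))]

theorem line_false {v : Fin 8 → Pol K} (hv : QV v) {g : Pol K →ₗ[K] K} (hg : Cut v g) {s r : Fin 3 → K}
    (hsr : LinearIndependent K ![s, r]) {h : Fin 4 → K}
    (hh : ∀ w ∈ cubics K, g w = ∑ k : Fin 4, h k * (rs s r w).coeff k)
    (e : Fin 3 → Polynomial K) (he : ∀ j, (e j).natDegree ≤ 3)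
    (he0 : ∀ j, ∑ k : Fin 4, h k * (e j).coeff k = 0) (hli : LinearIndependent K e)
    (hsp : ∀ f : Polynomial K, f.natDegree ≤ 3 → ∑ k : Fin 4, h k * f.coeff k = 0 →
      f ∈ span K (Set.range e))
    (hq : ∀ Q ∈ H K 2, aeval e Q = 0 → Q = 0) : False := by
  classical
  obtain ⟨L', hL'⟩ := LinearMap.exists_extend
    ((Basis.span hli).equivFun.toLinearMap : span K (Set.range e) →ₗ[K] (Fin 3 → K))
  have hmem : ∀ x : span K (Set.range e), L' (x : Polynomial K) = (Basis.span hli).equivFun x := by
    intro x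
    have := congrArg (fun φ : span K (Set.range e) →ₗ[K] (Fin 3 → K) => φ x) hL'
    simpa using this
  have hej : ∀ j, L' (e j) = Pi.single j 1 := by
    intro j
    have h1 := hmem (Basis.span hli j)
    have h2 : ((Basis.span hli j : span K (Set.range e)) : Polynomial K) = e j := by
      rw [Basis.span_apply]
    rw [h2] at h1
    rw [h1]
    ext i
    rw [Basis.equivFun_self, Pi.single_apply]
    simp only [eq_comm]
  have hexp : ∀ f : Polynomial K, f.natDegree ≤ 3 → ∑ k : Fin 4, h k * f.coeff k = 0 →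
      ∑ j, Polynomial.C (L' f j) * e j = f := by
    intro f hf hf0
    have h1 := (Basis.span hli).sum_equivFun ⟨f, hsp f hf hf0⟩
    have h2 := congrArg (Subtype.val) h1
    rw [← hmem] at h2
    simp only [AddSubmonoidClass.coe_finsetSum, SetLike.val_smul, Basis.span_apply] at h2
    rw [← h2]
    refine Finset.sum_congr rfl fun j _ => ?_
    rw [h2, Polynomial.smul_eq_C_mul]
  have hU : ∀ u ∈ U v, ∑ j, Polynomial.C (L' (rs s r u) j) * e j = rs s r u := by
    intro u hu
    obtain ⟨h1, h2⟩ := hg.mem.1 hu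
    exact hexp _ (rs_natDegree s r (cubics_le h1)) (by rw [← hh u h1, h2])
  refine plane hv (L := L' ∘ₗ (rs s r).toLinearMap) ?_ ?_
  · intro c
    set f : Polynomial K := ∑ j, c j • e j with hfdef
    have hfd : f.natDegree ≤ 3 := by
      rw [hfdef]
      refine Polynomial.natDegree_sum_le_of_forall_le _ _ fun j _ => ?_
      exact (Polynomial.natDegree_smul_le _ _).trans (he j)
    have hf0 : ∑ k : Fin 4, h k * f.coeff k = 0 := by
      have h1 : ∀ k : Fin 4, h k * f.coeff k = ∑ j, c j * (h k * (e j).coeff k) := by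
        intro k
        rw [hfdef, Polynomial.finsetSum_coeff, Finset.mul_sum]
        refine Finset.sum_congr rfl fun j _ => ?_
        rw [Polynomial.coeff_smul, smul_eq_mul]
        ring
      rw [Finset.sum_congr rfl fun k _ => h1 k, Finset.sum_comm]
      refine Finset.sum_eq_zero fun j _ => ?_
      rw [← Finset.mul_sum, he0 j, mul_zero]
    obtain ⟨w, hw, hwk⟩ := line_onto hsr (fun k => f.coeff k)
    have hwf : rs s r w = f := lf_rs_eq hw hfd hwk
    refine ⟨w, hg.mem.2 ⟨hw, ?_⟩, ?_⟩
    · rw [hh w hw, hwf, hf0]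
    · change L' (rs s r w) = c
      rw [hwf, hfdef, map_sum]
      simp only [map_smul, hej]
      ext i
      simp [Finset.sum_apply, Pi.single_apply]
  · intro u' hu' hsum
    apply hq
    · refine sum_mem fun i _ => ?_
      exact mul_mem_H (a := 1) (b := 1) (lin_mem _) (lin_mem _)
    · rw [map_sum]
      have h1 : ∀ i, aeval e (lin ((L' ∘ₗ (rs s r).toLinearMap) (v i)) *
          lin ((L' ∘ₗ (rs s r).toLinearMap) (u' i))) = rs s r (v i * u' i) := by
        intro i
        rw [map_mul, lf_aeval, lf_aeval, map_mul]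
        congr 1
        · exact hU _ (v_mem v i)
        · exact hU _ (hu' i)
      rw [Finset.sum_congr rfl fun i _ => h1 i, ← map_sum, hsum, map_zero]

end Pool.Agent.BE
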