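import Pool.Agent.Work.MP_be705b_al.E.MainAC
import Pool.Agent.Work.MP_be705b_al.E.Ext

set_option autoImplicit false
set_option linter.unusedSectionVars false
set_option linter.unusedVariables false

/-!
# MP_be705b_al, elimination: main theorem over all fields
-/

namespace Pool.Agent.BE

open MvPolynomial Submodule Module Pool.Agent.BR

variable {K : Type*} [Field K]

theorem main {v : Fin 8 → Pol K} (hv : QV v) : False :=
  main_ac (ext (L := AlgebraicClosure K) hv)

end Pool.Agent.BE
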