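import Pool.Agent.Work.MP_be705b_al.E.Defs

set_option autoImplicit false
set_option linter.unusedSectionVars false
set_option linter.unusedVariables false

/-!
# MP_be705b_al, elimination: Jordan form of a 2 x 2 matrix

PROOF. Let `M = [[x, y], [z, w]]`, an endomorphism of `span {a, b}`: `M a = x a + z b`, `M b = y a + w b`, so that
`P = (M a) ⊗ A + (M b) ⊗ B` and `c = - trace M`.  For an eigenvalue `t` of `M` (algebraically closed field; root of
`X^2 - (x + w) X + (x w - y z)`) replace `M` by `M - t`: `Bf c G P = Bf (c + 2 t) G (P - t G)`, and `trace (M - t) = -(c + 2 t)`.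
So we may assume `det M = 0`, `trace M = - c = κ`; `M ≠ 0` because otherwise `c = 0`, `P = 0` and `Bf = 0` against `h0`.
 - `κ ≠ 0`: `M` has the eigenvalues `0, κ` with eigenvectors `β, α`: `M α = κ α`, `M β = 0`.  Write `G = α ⊗ A' + β ⊗ γ` (change
   of basis in `span {a, b}`, with `A', γ` the corresponding combinations of `A, B`), then `P = κ α ⊗ A'`, `c = - κ` and
   `Bf i j k l = - κ (α_i A'_j + β_i γ_j)(α_k A'_l + β_k γ_l) + κ (α_i A'_j + β_i γ_j) α_k A'_l + κ α_i A'_j (α_k A'_l + β_k γ_l)
     = κ (α_i A'_j α_k A'_l - β_i γ_j β_k γ_l)`.   (first alternative)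
 - `κ = 0`: `M` nilpotent and nonzero; choose `β ∈ {a, b}` with `M β ≠ 0`, `α = M β`, `M α = 0`.  `G = β ⊗ A' + α ⊗ γ`,
   `P = α ⊗ A'`, `c = 0`, `Bf i j k l = (β_i A'_j + α_i γ_j) α_k A'_l + α_i A'_j (β_k A'_l + α_k γ_l)`.  (second alternative)
(Direct route without linear maps: as `det M = 0`, `M = [[m n, m n'], [m' n, m' n']]`, `κ = m n + m' n'`, `α = m a + m' b`,
`P = α ⊗ (n A + n' B)`; if `κ ≠ 0`, `β = -n' a + n b`, and `a, b` are combinations of `α, β` (determinant `m n + m' n' = κ`);
if `κ = 0`, take `β` = `a / n` if `n ≠ 0`, else `b / n'`.)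
-/

namespace Pool.Agent.BE

open MvPolynomial Submodule Module Pool.Agent.BR

variable {K : Type*} [Field K]

private theorem m2li {a b : Fin 3 → K} (hab : LinearIndependent K ![a, b]) {p q r s : K} (h : p * s - q * r ≠ 0) :
    LinearIndependent K ![p • a + q • b, r • a + s • b] := by
  rw [LinearIndependent.pair_iff] at hab ⊢
  intro u v huv
  have h1 := hab (u * p + v * r) (u * q + v * s) (by
    rw [← huv]
    module)
  constructor
  · have : u * (p * s - q * r) = 0 := by linear_combination s * h1.1 - r * h1.2
    exact (mul_eq_zero.1 this).resolve_right h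
  · have : v * (p * s - q * r) = 0 := by linear_combination p * h1.2 - q * h1.1
    exact (mul_eq_zero.1 this).resolve_right h

private theorem m2fac {x y z w : K} (h : x * w - y * z = 0) :
    ∃ m m' n n' : K, x = m * n ∧ y = m * n' ∧ z = m' * n ∧ w = m' * n' := by
  by_cases hx : x = 0
  · subst hx
    have hyz : y * z = 0 := by linear_combination -h
    rcases mul_eq_zero.1 hyz with hy | hz
    · subst hy
      exact ⟨0, 1, z, w, by ring, by ring, by ring, by ring⟩
    · subst hz
      exact ⟨y, w, 0, 1, by ring, by ring, by ring, by ring⟩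
  · refine ⟨1, z / x, x, y, by ring, by ring, by field_simp, ?_⟩
    field_simp
    linear_combination h

private theorem m2eig [IsAlgClosed K] (x y z w : K) : ∃ t : K, (x - t) * (w - t) - y * z = 0 := by
  obtain ⟨t, ht⟩ := IsAlgClosed.exists_root
    (Polynomial.C 1 * Polynomial.X ^ 2 + Polynomial.C (-(x + w)) * Polynomial.X + Polynomial.C (x * w - y * z) :
      Polynomial K) (by
      rw [Polynomial.degree_quadratic one_ne_zero]
      decide)
  refine ⟨t, ?_⟩
  simp only [Polynomial.IsRoot.def, Polynomial.eval_add, Polynomial.eval_mul, Polynomial.eval_pow, Polynomial.eval_C,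
    Polynomial.eval_X] at ht
  linear_combination ht

theorem mat2 [IsAlgClosed K] {c : K} {G P : Fin 3 → Fin 3 → K} {a b A B : Fin 3 → K} {x y z w : K}
    (hab : LinearIndependent K ![a, b]) (hAB : LinearIndependent K ![A, B])
    (hG : ∀ i j, G i j = a i * A j + b i * B j)
    (hP : ∀ i j, P i j = x * (a i * A j) + y * (a i * B j) + z * (b i * A j) + w * (b i * B j))
    (hc : c = -(x + w)) (h0 : ∃ i j k l, Bf c G P i j k l ≠ 0) :
    (∃ (α β A' γ : Fin 3 → K) (κ : K), κ ≠ 0 ∧ LinearIndependent K ![α, β] ∧ LinearIndependent K ![A', γ] ∧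
      (∀ i j, G i j = α i * A' j + β i * γ j) ∧
      ∀ i j k l, Bf c G P i j k l = κ * (α i * A' j * (α k * A' l) - β i * γ j * (β k * γ l))) ∨
    ∃ (α β A' γ : Fin 3 → K), LinearIndependent K ![α, β] ∧ LinearIndependent K ![A', γ] ∧
      (∀ i j, G i j = β i * A' j + α i * γ j) ∧
      ∀ i j k l, Bf c G P i j k l = A' j * A' l * (β i * α k + α i * β k) + α i * α k * (γ j * A' l + A' j * γ l) := by
  obtain ⟨t, ht⟩ := m2eig x y z w
  obtain ⟨m, m', n, n', hx, hy, hz, hw⟩ := m2fac ht
  -- the shifted expression
  have hB : ∀ i j k l, Bf c G P i j k l =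
      -(m * n + m' * n') * (G i j * G k l) +
        G i j * ((m * a k + m' * b k) * (n * A l + n' * B l)) +
        ((m * a i + m' * b i) * (n * A j + n' * B j)) * G k l := by
    intro i j k l
    have hx' : x = m * n + t := by linear_combination hx
    have hw' : w = m' * n' + t := by linear_combination hw
    rw [Bf, hP, hP, hc, hG, hG, hx', hw', hy, hz]
    ring
  by_cases hκ : m * n + m' * n' = 0
  · right
    have hmm : ¬ (m = 0 ∧ m' = 0) := by
      rintro ⟨e, e'⟩
      obtain ⟨i, j, k, l, h⟩ := h0
      apply h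
      rw [hB, e, e']
      ring
    have hnn : ¬ (n = 0 ∧ n' = 0) := by
      rintro ⟨e, e'⟩
      obtain ⟨i, j, k, l, h⟩ := h0
      apply h
      rw [hB, e, e']
      ring
    have hB' : ∀ i j k l, Bf c G P i j k l =
        G i j * ((m * a k + m' * b k) * (n * A l + n' * B l)) +
          ((m * a i + m' * b i) * (n * A j + n' * B j)) * G k l := by
      intro i j k l
      rw [hB, hκ]
      ring
    by_cases hn : n = 0
    · subst hn
      have hn' : n' ≠ 0 := fun e => hnn ⟨rfl, e⟩
      have hm' : m' = 0 := by
        have : m' * n' = 0 := by linear_combination hκ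
        exact (mul_eq_zero.1 this).resolve_right hn'
      subst hm'
      have hm : m ≠ 0 := fun e => hmm ⟨e, rfl⟩
      refine ⟨m • a + (0 : K) • b, (0 : K) • a + n'⁻¹ • b, (0 : K) • A + n' • B, m⁻¹ • A + (0 : K) • B,
        m2li hab (by simp [hm, hn']), m2li hAB (by simp [hm, hn']), ?_, ?_⟩
      · intro i j
        rw [hG]
        simp only [Pi.add_apply, Pi.smul_apply, smul_eq_mul]
        field_simp
        ring
      · intro i j k l
        rw [hB', hG, hG]
        simp only [Pi.add_apply, Pi.smul_apply, smul_eq_mul]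
        field_simp
        ring
    · have hm' : m' ≠ 0 := by
        intro e
        subst e
        have : m * n = 0 := by linear_combination hκ
        exact hmm ⟨(mul_eq_zero.1 this).resolve_right hn, rfl⟩
      have hm : m = -(m' * n') / n := by
        field_simp
        linear_combination hκ
      refine ⟨m • a + m' • b, n⁻¹ • a + (0 : K) • b, n • A + n' • B, (0 : K) • A + m'⁻¹ • B,
        m2li hab (by simp [hm', hn]), m2li hAB (by simp [hm', hn]), ?_, ?_⟩
      · intro i j
        rw [hG, hm]
        simp only [Pi.add_apply, Pi.smul_apply, smul_eq_mul]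
        field_simp
        ring
      · intro i j k l
        rw [hB', hG, hG, hm]
        simp only [Pi.add_apply, Pi.smul_apply, smul_eq_mul]
        field_simp
        ring
  · left
    set κ := m * n + m' * n' with hκd
    refine ⟨m • a + m' • b, (-n') • a + n • b, (n / κ) • A + (n' / κ) • B, (-m' / κ) • A + (m / κ) • B, κ, hκ,
      m2li hab ?_, m2li hAB ?_, ?_, ?_⟩
    · rw [show m * n - m' * -n' = κ by rw [hκd]; ring]
      exact hκ
    · have : n / κ * (m / κ) - n' / κ * (-m' / κ) = κ⁻¹ := by
        field_simp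
        rw [hκd]
        ring
      rw [this]
      exact inv_ne_zero hκ
    · intro i j
      rw [hG]
      simp only [Pi.add_apply, Pi.smul_apply, smul_eq_mul]
      field_simp
      rw [hκd]
      ring
    · intro i j k l
      rw [hB, hG, hG]
      simp only [Pi.add_apply, Pi.smul_apply, smul_eq_mul]
      field_simp
      rw [hκd]
      ring

end Pool.Agent.BE
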