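import Pool.Agent.Work.MP_be705b_al.E.Defs

set_option autoImplicit false
set_option linter.unusedSectionVars false
set_option linter.unusedVariables false

/-!
# MP_be705b_al, elimination: second symmetry, two points and tangent case

PROOF of mat3. `h` says `(α i ^ 2 * A j - α j ^ 2 * A i) * A l = (β i ^ 2 * γ j - β j ^ 2 * γ i) * γ l` for all `l`; as `A, γ` are
linearly independent both coefficients are zero.  `α ≠ 0`: pick `i` with `α i ≠ 0`, then `A j = θ * α j ^ 2` with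
`θ = A i / α i ^ 2`, and `θ ≠ 0` because `A ≠ 0`.  In the same way `γ j = θ' * β j ^ 2`, `θ' ≠ 0`.  So
`G i j = θ (α_i α_j ^ 2) + θ' (β_i β_j ^ 2)`, which is `A1 G`.

PROOF of mat4. `h` says `(2 α_i β_i A_j + α_i ^ 2 γ_j - 2 α_j β_j A_i - α_j ^ 2 γ_i) A_l + (α_i ^ 2 A_j - α_j ^ 2 A_i) γ_l = 0` for
all `l`, so both brackets vanish.  From the second one `A_j = θ α_j ^ 2`, `θ ≠ 0`.  Then the first one says
`α_i ^ 2 (γ_j - 2 θ α_j β_j) = α_j ^ 2 (γ_i - 2 θ α_i β_i)`, so `γ_j = 2 θ α_j β_j + ς α_j ^ 2` for some `ς`.  Therefore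
`G i j = β_i A_j + α_i γ_j = θ (β_i α_j ^ 2 + 2 α_i α_j β_j) + ς α_i α_j ^ 2`, which is `A2 G` with `s = α`, `r = β`.
-/

namespace Pool.Agent.BE

open MvPolynomial Submodule Module Pool.Agent.BR

variable {K : Type*} [Field K]

private theorem mat3_aux {α A : Fin 3 → K} (hα : α ≠ 0) (hA : A ≠ 0)
    (h : ∀ i j, α i ^ 2 * A j - α j ^ 2 * A i = 0) : ∃ θ : K, θ ≠ 0 ∧ ∀ j, A j = θ * α j ^ 2 := by
  obtain ⟨i, hi⟩ := Function.ne_iff.1 hα
  have hi' : α i ≠ 0 := by simpa using hi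
  have hf : ∀ j, A j = A i / α i ^ 2 * α j ^ 2 := by
    intro j
    have := h i j
    field_simp
    linear_combination this
  refine ⟨A i / α i ^ 2, ?_, hf⟩
  intro h0
  apply hA
  funext j
  rw [hf j, h0]
  simp

theorem mat3 {G : Fin 3 → Fin 3 → K} {α β A γ : Fin 3 → K} (hαβ : LinearIndependent K ![α, β])
    (hAγ : LinearIndependent K ![A, γ]) (hG : ∀ i j, G i j = α i * A j + β i * γ j)
    (h : ∀ i j l, α i * A j * (α i * A l) - β i * γ j * (β i * γ l) =
      α j * A i * (α j * A l) - β j * γ i * (β j * γ l)) : A1 G := by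
  have hα : α ≠ 0 := by simpa using hαβ.ne_zero 0
  have hβ : β ≠ 0 := by simpa using hαβ.ne_zero 1
  have hA : A ≠ 0 := by simpa using hAγ.ne_zero 0
  have hγ : γ ≠ 0 := by simpa using hAγ.ne_zero 1
  have key : ∀ i j, α i ^ 2 * A j - α j ^ 2 * A i = 0 ∧ -(β i ^ 2 * γ j - β j ^ 2 * γ i) = 0 := by
    intro i j
    apply LinearIndependent.pair_iff.1 hAγ
    funext l
    have := h i j l
    simp only [Pi.add_apply, Pi.smul_apply, smul_eq_mul, Pi.zero_apply]
    linear_combination this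
  obtain ⟨θ, hθ, h1⟩ := mat3_aux hα hA fun i j => (key i j).1
  obtain ⟨θ', hθ', h2⟩ := mat3_aux hβ hγ fun i j => by
    have := (key i j).2
    linear_combination -this
  refine ⟨α, β, θ, θ', hαβ, hθ, hθ', fun i j => ?_⟩
  rw [hG, h1 j, h2 j]
  ring

theorem mat4 {G : Fin 3 → Fin 3 → K} {α β A γ : Fin 3 → K} (hαβ : LinearIndependent K ![α, β])
    (hAγ : LinearIndependent K ![A, γ]) (hG : ∀ i j, G i j = β i * A j + α i * γ j)
    (h : ∀ i j l, A j * A l * (β i * α i + α i * β i) + α i * α i * (γ j * A l + A j * γ l) =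
      A i * A l * (β j * α j + α j * β j) + α j * α j * (γ i * A l + A i * γ l)) : A2 G := by
  have hα : α ≠ 0 := by simpa using hαβ.ne_zero 0
  have hA : A ≠ 0 := by simpa using hAγ.ne_zero 0
  have key : ∀ i j, 2 * α i * β i * A j + α i ^ 2 * γ j - 2 * α j * β j * A i - α j ^ 2 * γ i = 0 ∧
      α i ^ 2 * A j - α j ^ 2 * A i = 0 := by
    intro i j
    apply LinearIndependent.pair_iff.1 hAγ
    funext l
    have := h i j l
    simp only [Pi.add_apply, Pi.smul_apply, smul_eq_mul, Pi.zero_apply]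
    linear_combination this
  obtain ⟨θ, hθ, h1⟩ := mat3_aux hα hA fun i j => (key i j).2
  obtain ⟨i, hi⟩ := Function.ne_iff.1 hα
  have hi' : α i ≠ 0 := by simpa using hi
  have h2 : ∀ j, γ j = 2 * θ * α j * β j + (γ i - 2 * θ * α i * β i) / α i ^ 2 * α j ^ 2 := by
    intro j
    have := (key i j).1
    rw [h1 i, h1 j] at this
    field_simp
    linear_combination this
  refine ⟨α, β, θ, (γ i - 2 * θ * α i * β i) / α i ^ 2, hαβ, hθ, fun k j => ?_⟩
  rw [hG, h1 j, h2 j]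
  ring

end Pool.Agent.BE
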