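import Pool.Agent.Work.MP_be705b_al.E.Mat1
import Pool.Agent.Work.MP_be705b_al.E.Mat2
import Pool.Agent.Work.MP_be705b_al.E.Mat3

set_option autoImplicit false
set_option linter.unusedSectionVars false
set_option linter.unusedVariables false

/-!
# MP_be705b_al, elimination: classification of the matrices
-/

namespace Pool.Agent.BE

open MvPolynomial Submodule Module Pool.Agent.BR

variable {K : Type*} [Field K]

theorem mat [IsAlgClosed K] {c : K} {G P : Fin 3 → Fin 3 → K}
    (r1 : ∀ i j k l, Bf c G P i j k l = Bf c G P k j i l)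
    (r2 : ∀ i j l, Bf c G P i j i l = Bf c G P j i j l) (h0 : ∃ i j k l, Bf c G P i j k l ≠ 0) :
    A1 G ∨ A2 G ∨ ∃ p ν : Fin 3 → K, ∀ i j, G i j = p i * ν j := by
  rcases mat1 r1 h0 with h | ⟨a, b, A, B, x, y, z, w, hab, hAB, hG, hP, hc⟩
  · exact Or.inr (Or.inr h)
  · rcases mat2 hab hAB hG hP hc h0 with ⟨α, β, A', γ, κ, hκ, h1, h2, h3, h4⟩ | ⟨α, β, A', γ, h1, h2, h3, h4⟩
    · left
      refine mat3 h1 h2 h3 fun i j l => ?_
      have h5 := r2 i j l
      rw [h4, h4] at h5
      exact mul_left_cancel₀ hκ h5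
    · right
      left
      refine mat4 h1 h2 h3 fun i j l => ?_
      have h5 := r2 i j l
      rw [h4, h4] at h5
      exact h5

end Pool.Agent.BE
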