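import Pool.Agent.Work.MP_be705b_al.E.Exp

set_option autoImplicit false
set_option linter.unusedSectionVars false
set_option linter.unusedVariables false

/-!
# MP_be705b_al, elimination: consequences of `U v * U v ≠ H K 6`

PROOF. `U v * U v ≤ H K 6` (Cut gives `U v ≤ cubics K`, BR.cubics_mul_cubics : cubics K * cubics K = H K 6).  As it is not all
of `H K 6` there are `f ∈ H K 6` and a linear functional `Φ : Pol K →ₗ[K] K` with `Φ = 0` on `U v * U v` and `Φ f ≠ 0`.
Put `ψ y = Φ (y * w)` and `c = - Φ (w * w)`.  For `y, y' ∈ cubics K` the elements `y - g y • w`, `y' - g y' • w` are in `U v`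
(Cut.mem), so `0 = Φ ((y - g y • w) * (y' - g y' • w)) = Φ (y y') - g y' * ψ y - g y * ψ y' + g y * g y' * Φ (w w)`, i.e.
  `Φ (y * y') = c * (g y * g y') + g y * ψ y' + ψ y * g y'`.   (1)
With `P i j = ψ (X i * X j ^ 2)` this says `Bf c (GG g) P i j k l = Φ (X i * X j ^ 2 * (X k * X l ^ 2))` (XX_mem).  The two
symmetries hold because the monomials on both sides are equal (`ring`).  If all `Bf` were zero, `Φ` would vanish on all
products of two elements of `cubics K` (cubics_eq_span), hence on `H K 6 = cubics K * cubics K`, in particular at `f`.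
-/

namespace Pool.Agent.BE

open MvPolynomial Submodule Module Pool.Agent.BR

variable {K : Type*} [Field K]

theorem phi {v : Fin 8 → Pol K} {g : Pol K →ₗ[K] K} (hg : Cut v g) {w : Pol K} (hw : w ∈ cubics K)
    (hgw : g w = 1) (h : U v * U v ≠ H K 6) :
    ∃ (P : Fin 3 → Fin 3 → K) (c : K), (∀ i j k l, Bf c (GG g) P i j k l = Bf c (GG g) P k j i l) ∧
      (∀ i j l, Bf c (GG g) P i j i l = Bf c (GG g) P j i j l) ∧ ∃ i j k l, Bf c (GG g) P i j k l ≠ 0 := by
  have hle : U v ≤ cubics K := by
    intro y hy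
    exact (hg.mem.1 hy).1
  have hle2 : U v * U v ≤ H K 6 := by
    rw [← cubics_mul_cubics]
    exact mul_le_mul' hle hle
  obtain ⟨f, hfH, hfU⟩ := SetLike.exists_of_lt (lt_of_le_of_ne hle2 h)
  obtain ⟨Φ, hΦf, hΦU⟩ := Submodule.exists_le_ker_of_notMem hfU
  have key : ∀ y ∈ cubics K, ∀ y' ∈ cubics K, Φ (y * y') =
      -Φ (w * w) * (g y * g y') + g y * Φ (y' * w) + Φ (y * w) * g y' := by
    intro y hy y' hy'
    have m1 : ∀ z ∈ cubics K, z - g z • w ∈ U v := by
      intro z hz
      refine hg.mem.2 ⟨(cubics K).sub_mem hz ((cubics K).smul_mem _ hw), ?_⟩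
      rw [map_sub, map_smul, hgw, smul_eq_mul, mul_one, sub_self]
    have h0 : Φ ((y - g y • w) * (y' - g y' • w)) = 0 := by
      have := hΦU (Submodule.mul_mem_mul (m1 y hy) (m1 y' hy'))
      simpa using this
    have hexp : (y - g y • w) * (y' - g y' • w) =
        y * y' - g y' • (y * w) - g y • (y' * w) + (g y * g y') • (w * w) := by
      simp only [smul_eq_C_mul, C_mul]
      ring
    rw [hexp] at h0
    simp only [map_add, map_sub, map_smul, smul_eq_mul] at h0
    linear_combination h0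
  have hB : ∀ i j k l, Bf (-Φ (w * w)) (GG g) (fun i j => Φ ((X i * X j ^ 2) * w)) i j k l =
      Φ (X i * X j ^ 2 * (X k * X l ^ 2)) := by
    intro i j k l
    rw [key _ (XX_mem i j) _ (XX_mem k l)]
    rfl
  refine ⟨fun i j => Φ ((X i * X j ^ 2) * w), -Φ (w * w), ?_, ?_, ?_⟩
  · intro i j k l
    rw [hB, hB]
    congr 1
    ring
  · intro i j l
    rw [hB, hB]
    congr 1
    ring
  · by_contra hall
    push Not at hall
    apply hΦf
    have h1 : cubics K * cubics K ≤ LinearMap.ker Φ := by
      rw [cubics_eq_span, Submodule.span_mul_span, Submodule.span_le]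
      rintro _ ⟨_, ⟨⟨i, j⟩, rfl⟩, _, ⟨⟨k, l⟩, rfl⟩, rfl⟩
      have := hall i j k l
      rw [hB] at this
      exact this
    rw [cubics_mul_cubics] at h1
    exact h1 hfH

end Pool.Agent.BE
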