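import Pool.Agent.Work.MP_be705b_al.E.Exp

set_option autoImplicit false
set_option linter.unusedSectionVars false
set_option linter.unusedVariables false

/-!
# MP_be705b_al, elimination: the quadrics in `N` which vanish at `ν`

`Nn ν` is the space of all `sq a` with `dot a ν = 0`.

PROOF of finrank_Nn. Choose `i` with `ν i ≠ 0`; for `j ≠ i` the quadric `X j ^ 2 - C (ν j / ν i) * X i ^ 2` is in `Nn ν`.  So modulo
`Nn ν * H K 10` every monomial of degree 12 is a multiple of one of the four monomials `X i ^ (12 - e - e') * X j ^ e * X k ^ e'`,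
`e, e' ∈ {0, 1}`, `{i, j, k} = {0, 1, 2}` (replace `X j ^ 2` by a multiple of `X i ^ 2`, induction on the exponent of `X j`, `X k`).
Hence `H K 12 = Nn ν * H K 10 + (span of four monomials)` and `91 ≤ finrank (Nn ν * H K 10) + 4`.

PROOF of Nn_mul. `Nn ν * H K 1`: for `w = lin l * sq a` with `dot a ν = 0` we have `cm i j w = l i * a j` (all products
`X i * X j ^ 2` are different monomials), so `Ln ν w i = l i * dot a ν = 0`.
-/

namespace Pool.Agent.BE

open MvPolynomial Submodule Module Pool.Agent.BR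

variable {K : Type*} [Field K]

/-- the quadrics in `N K` which vanish at `ν` -/
def Nn (ν : Fin 3 → K) : Submodule K (Pol K) where
  carrier := {κ | ∃ a : Fin 3 → K, dot a ν = 0 ∧ κ = BR.sq a}
  add_mem' := by
    rintro _ _ ⟨a, ha, rfl⟩ ⟨b, hb, rfl⟩
    refine ⟨a + b, ?_, ?_⟩
    · have : dot (a + b) ν = dot a ν + dot b ν := by
        simp only [dot, Pi.add_apply]
        ring
      rw [this, ha, hb, add_zero]
    · simp only [BR.sq, Pi.add_apply, map_add]
      ring
  zero_mem' := ⟨0, by simp [dot], by simp [BR.sq]⟩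
  smul_mem' := by
    rintro k _ ⟨a, ha, rfl⟩
    refine ⟨k • a, ?_, ?_⟩
    · have : dot (k • a) ν = k * dot a ν := by
        simp only [dot, Pi.smul_apply, smul_eq_mul]
        ring
      rw [this, ha, mul_zero]
    · simp only [BR.sq, Pi.smul_apply, smul_eq_mul, smul_eq_C_mul, C_mul]
      ring

private theorem lin_eq_sum (l : Fin 3 → K) : lin l = ∑ i, C (l i) * X i := by
  rw [Fin.sum_univ_three, lin]

private theorem sq_eq_sum (a : Fin 3 → K) : BR.sq a = ∑ i, C (a i) * X i ^ 2 := by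
  rw [Fin.sum_univ_three, BR.sq]

private theorem dot_eq_sum (a b : Fin 3 → K) : dot a b = ∑ i, a i * b i := by
  rw [Fin.sum_univ_three, dot]

theorem cm_lin_sq (l a : Fin 3 → K) (i j : Fin 3) : cm i j (lin l * BR.sq a) = l i * a j := by
  have h1 : lin l * BR.sq a = ∑ k, ∑ m, (l k * a m) • (X k * X m ^ 2 : Pol K) := by
    rw [lin_eq_sum, sq_eq_sum, Finset.sum_mul]
    refine Finset.sum_congr rfl fun k _ => ?_
    rw [Finset.mul_sum]
    refine Finset.sum_congr rfl fun m _ => ?_
    rw [smul_eq_C_mul, C_mul]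
    ring
  rw [h1, map_sum]
  simp only [map_sum, map_smul, cm_XX, smul_eq_mul]
  rw [Finset.sum_eq_single i]
  · rw [Finset.sum_eq_single j]
    · simp
    · intro m _ hm
      rw [if_neg, mul_zero]
      rintro ⟨_, h⟩
      exact hm h.symm
    · intro h
      exact absurd (Finset.mem_univ _) h
  · intro k _ hk
    refine Finset.sum_eq_zero fun m _ => ?_
    rw [if_neg, mul_zero]
    rintro ⟨h, _⟩
    exact hk h.symm
  · intro h
    exact absurd (Finset.mem_univ _) h

private theorem sq_mem_Nn {ν : Fin 3 → K} {i j : Fin 3} (hij : j ≠ i) (hν : ν i ≠ 0) :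
    (X j ^ 2 - C (ν j / ν i) * X i ^ 2 : Pol K) ∈ Nn ν := by
  refine ⟨Pi.single j 1 - (ν j / ν i) • Pi.single i 1, ?_, ?_⟩
  · rw [dot_eq_sum]
    simp only [Pi.sub_apply, Pi.smul_apply, smul_eq_mul, sub_mul, Finset.sum_sub_distrib]
    rw [Finset.sum_eq_single j, Finset.sum_eq_single i]
    · rw [Pi.single_eq_same, Pi.single_eq_same, mul_one, one_mul, div_mul_cancel₀ _ hν, sub_self]
    · intro k _ hk
      rw [Pi.single_eq_of_ne hk]
      simp
    · intro h
      exact absurd (Finset.mem_univ _) h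
    · intro k _ hk
      rw [Pi.single_eq_of_ne hk]
      simp
    · intro h
      exact absurd (Finset.mem_univ _) h
  · rw [sq_eq_sum]
    simp only [Pi.sub_apply, Pi.smul_apply, smul_eq_mul, map_sub, map_mul, sub_mul, Finset.sum_sub_distrib]
    rw [Finset.sum_eq_single j, Finset.sum_eq_single i]
    · rw [Pi.single_eq_same, Pi.single_eq_same, map_one, one_mul, mul_one]
    · intro k _ hk
      rw [Pi.single_eq_of_ne hk]
      simp
    · intro h
      exact absurd (Finset.mem_univ _) h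
    · intro k _ hk
      rw [Pi.single_eq_of_ne hk]
      simp
    · intro h
      exact absurd (Finset.mem_univ _) h

private theorem mon_mem (i j k : Fin 3) {a b c d : ℕ} (h : a + b + c = d) :
    (X i ^ a * X j ^ b * X k ^ c : Pol K) ∈ H K d := by
  rw [← h, mem_H]
  have h1 := (((isHomogeneous_X K i).pow a).mul ((isHomogeneous_X K j).pow b)).mul
    ((isHomogeneous_X K k).pow c)
  simpa only [one_mul] using h1

private theorem red {ν : Fin 3 → K} {i j k : Fin 3} (hj : j ≠ i) (hk : k ≠ i) (hν : ν i ≠ 0) (n : ℕ) :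
    ∀ a b c : ℕ, a + b + c = 12 → b + c ≤ n → (X i ^ a * X j ^ b * X k ^ c : Pol K) ∈
      Nn ν * H K 10 ⊔ span K (Set.range fun p : Fin 2 × Fin 2 =>
        (X i ^ (12 - (p.1 : ℕ) - (p.2 : ℕ)) * X j ^ (p.1 : ℕ) * X k ^ (p.2 : ℕ) : Pol K)) := by
  induction n using Nat.strong_induction_on with
  | _ n ih =>
    intro a b c habc hn
    by_cases hb : 2 ≤ b
    · obtain ⟨b', rfl⟩ := Nat.exists_eq_add_of_le' hb
      have h1 : (X i ^ a * X j ^ (b' + 2) * X k ^ c : Pol K) =
          (X j ^ 2 - C (ν j / ν i) * X i ^ 2) * (X i ^ a * X j ^ b' * X k ^ c) +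
            (ν j / ν i) • (X i ^ (a + 2) * X j ^ b' * X k ^ c) := by
        rw [smul_eq_C_mul]
        ring
      rw [h1]
      refine add_mem (mem_sup_left (mul_mem_mul (sq_mem_Nn hj hν) (mon_mem _ _ _ (by omega)))) ?_
      exact smul_mem _ _ (ih (b' + c) (by omega) _ _ _ (by omega) le_rfl)
    · by_cases hc : 2 ≤ c
      · obtain ⟨c', rfl⟩ := Nat.exists_eq_add_of_le' hc
        have h1 : (X i ^ a * X j ^ b * X k ^ (c' + 2) : Pol K) =
            (X k ^ 2 - C (ν k / ν i) * X i ^ 2) * (X i ^ a * X j ^ b * X k ^ c') +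
              (ν k / ν i) • (X i ^ (a + 2) * X j ^ b * X k ^ c') := by
          rw [smul_eq_C_mul]
          ring
        rw [h1]
        refine add_mem (mem_sup_left (mul_mem_mul (sq_mem_Nn hk hν) (mon_mem _ _ _ (by omega)))) ?_
        exact smul_mem _ _ (ih (b + c') (by omega) _ _ _ (by omega) le_rfl)
      · refine mem_sup_right (subset_span ⟨(⟨b, by omega⟩, ⟨c, by omega⟩), ?_⟩)
        have ha : 12 - b - c = a := by omega
        simp only [ha]

private theorem exists_perm (i : Fin 3) : ∃ j k : Fin 3, j ≠ i ∧ k ≠ i ∧ ∀ a b c : ℕ, ∃ a' b' c' : ℕ,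
    a' + b' + c' = a + b + c ∧ (X 0 ^ a * X 1 ^ b * X 2 ^ c : Pol K) = X i ^ a' * X j ^ b' * X k ^ c' := by
  fin_cases i
  · exact ⟨1, 2, by decide, by decide, fun a b c => ⟨a, b, c, rfl, rfl⟩⟩
  · exact ⟨0, 2, by decide, by decide, fun a b c => ⟨b, a, c, by omega, by
      show _ = (X 1 ^ b * X 0 ^ a * X 2 ^ c : Pol K)
      ring⟩⟩
  · exact ⟨0, 1, by decide, by decide, fun a b c => ⟨c, a, b, by omega, by
      show _ = (X 2 ^ c * X 0 ^ a * X 1 ^ b : Pol K)
      ring⟩⟩

theorem finrank_Nn {ν : Fin 3 → K} (hν : ν ≠ 0) : 87 ≤ finrank K ↥(Nn ν * H K 10) := by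
  obtain ⟨i, hi⟩ := Function.ne_iff.1 hν
  rw [Pi.zero_apply] at hi
  obtain ⟨j, k, hj, hk, hp⟩ := exists_perm (K := K) i
  set S := span K (Set.range fun p : Fin 2 × Fin 2 =>
    (X i ^ (12 - (p.1 : ℕ) - (p.2 : ℕ)) * X j ^ (p.1 : ℕ) * X k ^ (p.2 : ℕ) : Pol K)) with hS
  have hN : Nn ν ≤ H K 2 := by
    rintro _ ⟨a, _, rfl⟩
    exact sq_mem a
  have hle : Nn ν * H K 10 ≤ H K 12 := (mul_le_mul_left hN _).trans (H_mul_le 2 10)
  have h1 : H K 12 ≤ Nn ν * H K 10 ⊔ S := by
    refine H_le fun a b c h => ?_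
    obtain ⟨a', b', c', h2, h3⟩ := hp a b c
    rw [h3]
    exact red hj hk hi _ a' b' c' (by omega) le_rfl
  have f1 : Module.Finite K ↥(Nn ν * H K 10) := Module.Finite.of_injective _ (inclusion_injective hle)
  have f2 : Module.Finite K ↥S := Module.Finite.span_of_finite K (Set.finite_range _)
  have h4 := Submodule.finrank_mono h1
  have h5 := Submodule.finrank_add_le_finrank_add_finrank (Nn ν * H K 10) S
  have h6 : finrank K ↥S ≤ 4 := (finrank_range_le_card _).trans (by simp)
  rw [finrank_H12] at h4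
  omega

theorem Nn_mul_le (ν : Fin 3 → K) : Nn ν * H K 1 ≤ cubics K := by
  rw [← N_mul_H1]
  refine mul_le_mul_left ?_ _
  rintro _ ⟨a, _, rfl⟩
  exact sq_mem_N a

theorem Nn_mul {ν : Fin 3 → K} {w : Pol K} (hw : w ∈ Nn ν * H K 1) : Ln ν w = 0 := by
  refine Submodule.mul_induction_on hw ?_ ?_
  · rintro _ ⟨a, ha, rfl⟩ n hn
    funext i
    rw [← lin_lc hn, mul_comm, Ln_apply, Pi.zero_apply]
    simp only [cm_lin_sq]
    have h1 : ∑ j, ν j * (lc n i * a j) = lc n i * dot a ν := by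
      rw [dot_eq_sum, Finset.mul_sum]
      exact Finset.sum_congr rfl fun j _ => by ring
    rw [h1, ha, mul_zero]
  · intro x y hx hy
    rw [map_add, hx, hy, add_zero]

end Pool.Agent.BE
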