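import Pool.Agent.Work.MP_be705b_al.E.Exp

/-!
# MP_be705b_al, elimination: the product of `U v` with the linear forms

PROOF. `H K 1 * cubics K = H K 4` (BR.H_mul_cubics 0).  Suppose `H K 1 * U v ≠ H K 4`; it is contained in `H K 4`, so there is a
linear functional `χ : Pol K →ₗ[K] K`, zero on `H K 1 * U v` and not zero on `H K 4`.  Take `w0 ∈ cubics K` with `g w0 = 1` and
`c l = χ (l * w0)`.  For `w ∈ cubics K`, `w - g w • w0 ∈ U v`, so `χ (l * w) = c l * g w` for all `l ∈ H K 1`.  With `c k = c (X k)`: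
`χ (X k * (X i * X j ^ 2)) = c k * (p i * ν j)`.  Symmetry in `k, i` and some `ν j ≠ 0`: `c k * p i = c i * p k`, so
`c k = ε * p k` (some `p i ≠ 0` because `GG g ≠ 0`), `ε ≠ 0` as `χ ≠ 0` on `H K 4 = H K 1 * cubics K`.  Finally
`X i * (X i * X j ^ 2) = X j * (X j * X i ^ 2)` gives `ε p i ^ 2 ν j = ε p j ^ 2 ν i` for all `i, j`, against `hn`.
(`p ≠ 0` and `ν ≠ 0` because `g w0 = 1`, g_expand.)
-/

set_option autoImplicit false
set_option linter.unusedSectionVars false
set_option linter.unusedVariables false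

/-!
# MP_be705b_al, elimination: the product of `U v` with the linear forms

PROOF. `H K 1 * cubics K = H K 4` (BR.H_mul_cubics 0).  Suppose `H K 1 * U v ≠ H K 4`; it is contained in `H K 4`, so there is a
linear functional `χ : Pol K →ₗ[K] K`, zero on `H K 1 * U v` and not zero on `H K 4`.  Take `w0 ∈ cubics K` with `g w0 = 1` and
`c l = χ (l * w0)`.  For `w ∈ cubics K`, `w - g w • w0 ∈ U v`, so `χ (l * w) = c l * g w` for all `l ∈ H K 1`.  With `c k = c (X k)`:
`χ (X k * (X i * X j ^ 2)) = c k * (p i * ν j)`.  Symmetry in `k, i` and some `ν j ≠ 0`: `c k * p i = c i * p k`, so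
`c k = ε * p k` (some `p i ≠ 0` because `GG g ≠ 0`), `ε ≠ 0` as `χ ≠ 0` on `H K 4 = H K 1 * cubics K`.  Finally
`X i * (X i * X j ^ 2) = X j * (X j * X i ^ 2)` gives `ε p i ^ 2 ν j = ε p j ^ 2 ν i` for all `i, j`, against `hn`.
(`p ≠ 0` and `ν ≠ 0` because `g w0 = 1`, g_expand.)
-/

namespace Pool.Agent.BE

open MvPolynomial Submodule Module Pool.Agent.BR

variable {K : Type*} [Field K]

theorem s1u {v : Fin 8 → Pol K} {g : Pol K →ₗ[K] K} (hg : Cut v g) (h1 : ∃ w ∈ cubics K, g w = 1)
    {p ν : Fin 3 → K} (hG : ∀ i j, GG g i j = p i * ν j) (hn : ¬ ∀ i j, p i ^ 2 * ν j = p j ^ 2 * ν i) :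
    H K 1 * U v = H K 4 := by
  obtain ⟨w0, hw0, hgw0⟩ := h1
  have hHC : H K 1 * cubics K = H K 4 := H_mul_cubics 0
  have hUle : U v ≤ cubics K := by
    rw [show U v = cubics K ⊓ LinearMap.ker g from hg]
    exact inf_le_left
  refine le_antisymm (hHC ▸ mul_le_mul' le_rfl hUle) ?_
  by_contra hcon
  obtain ⟨x, hx, hxn⟩ := SetLike.not_le_iff_exists.1 hcon
  obtain ⟨χ, hχx, hχ⟩ := Submodule.exists_le_ker_of_notMem hxn
  have key : ∀ l ∈ H K 1, ∀ w ∈ cubics K, χ (l * w) = g w * χ (l * w0) := by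
    intro l hl w hw
    have hm : w - g w • w0 ∈ U v := by
      rw [hg.mem]
      refine ⟨sub_mem hw (smul_mem _ _ hw0), ?_⟩
      rw [map_sub, map_smul, hgw0, smul_eq_mul, mul_one, sub_self]
    have h2 := hχ (Submodule.mul_mem_mul hl hm)
    rw [LinearMap.mem_ker, mul_sub, mul_smul_comm, map_sub, map_smul, smul_eq_mul, sub_eq_zero] at h2
    exact h2
  have hX : ∀ k : Fin 3, (X k : Pol K) ∈ H K 1 := fun k => isHomogeneous_X K k
  set c : Fin 3 → K := fun k => χ (X k * w0) with hc
  have e : ∀ k i j, χ (X k * (X i * X j ^ 2)) = p i * ν j * c k := by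
    intro k i j
    rw [key _ (hX k) _ (XX_mem i j)]
    have : g (X i * X j ^ 2) = p i * ν j := hG i j
    rw [this]
  have hsum : ∑ i, ∑ j, cm i j w0 * (p i * ν j) = 1 := by
    rw [← hgw0, g_expand hw0 g]
    simp_rw [hG]
  have hp : ∃ i, p i ≠ 0 := by
    by_contra h
    push Not at h
    simp [h] at hsum
  have hν : ∃ j, ν j ≠ 0 := by
    by_contra h
    push Not at h
    simp [h] at hsum
  obtain ⟨i0, hi0⟩ := hp
  obtain ⟨j0, hj0⟩ := hν
  have hcp : ∀ k i, c k * p i = c i * p k := by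
    intro k i
    have h2 : (X k * (X i * X j0 ^ 2) : Pol K) = X i * (X k * X j0 ^ 2) := by ring
    have h3 := e k i j0
    rw [h2, e i k j0] at h3
    apply mul_left_cancel₀ hj0
    linear_combination -h3
  have hce : ∀ k, c k = c i0 / p i0 * p k := by
    intro k
    have := hcp k i0
    field_simp
    linear_combination this
  have hε : c i0 / p i0 ≠ 0 := by
    intro h0
    apply hχx
    have hc0 : ∀ k, χ (X k * w0) = 0 := by
      intro k
      have := hce k
      rw [h0, zero_mul] at this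
      exact this
    have hl0 : ∀ l ∈ H K 1, χ (l * w0) = 0 := by
      intro l hl
      rw [← lin_lc hl, lin_mul, map_add, map_add, ← smul_eq_C_mul, ← smul_eq_C_mul, ← smul_eq_C_mul,
        map_smul, map_smul, map_smul, hc0, hc0, hc0]
      simp
    have hle : H K 1 * cubics K ≤ LinearMap.ker χ := by
      rw [Submodule.mul_le]
      intro l hl w hw
      rw [LinearMap.mem_ker, key l hl w hw, hl0 l hl, mul_zero]
    rw [hHC] at hle
    exact hle hx
  apply hn
  intro i j
  have h2 : (X i * (X i * X j ^ 2) : Pol K) = X j * (X j * X i ^ 2) := by ring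
  have h3 := e i i j
  rw [h2, e j j i, hce i, hce j] at h3
  apply mul_left_cancel₀ hε
  linear_combination -h3

end Pool.Agent.BE
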