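import Pool.Agent.Work.MP_be705b_al.E.RelP
import Pool.Agent.Work.MP_be705b_al.E.Cnt4
import Pool.Agent.Work.MP_be705b_al.E.Nn
import Pool.Agent.Work.MP_be705b_al.E.S1U

set_option autoImplicit false
set_option linter.unusedSectionVars false
set_option linter.unusedVariables false

/-!
# MP_be705b_al, elimination: rank one matrices in characteristic different from two

PROOF. Let `L = Ln ν`.  For `u ∈ U v` we have `∑ j, p j * L u j = g u = 0` (g_expand, Ln_apply).
(1) `Rel0 v L`: for a relation `∑ v i * u' i = 0` let `D a = ∑ i, L (v i) a * L (u' i) a`.  `D a = 0` for `p a ≠ 0` (diag_zero).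
  By `h3` there is at most one `a` with `p a = 0`, and for it `ν a * D a = 0` by the second part of relQ (the other `D`'s are
  zero), so `D a = 0` by `h4`.  Now form_zero.
(2) `L` maps `U v` onto `{l | ∑ p j l j = 0}`: choose `n` with `dot n ν = 1` (`ν ≠ 0`: otherwise `hn` fails); `u = lin l * sq n ∈ cubics K`
  has `cm i j u = l i * n j` (cm_lin_sq), so `g u = ∑ l i p i * dot n ν = 0` and `L u = l`.  Take two linearly independent `a, b`
  in this plane (`p` is one linear equation in three dimensions).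
(3) `U0 = Nn ν * H K 1 ≤ U v` (Nn_mul_le, g u = ∑ p j L u j = 0 by Nn_mul), and `L = 0` on `U0`.
(4) `U0 * U v ^ 3 = Nn ν * (H K 1 * U v ^ 3) = Nn ν * H K 10`: by s1u `H K 1 * U v = H K 4`, hence (BR.H_mul)
  `H K 4 * U v = H K 3 * (H K 1 * U v) = H K 7`, `H K 7 * U v = H K 6 * (H K 1 * U v) = H K 10`.
(5) cnt4 gives `finrank (Nn ν * H K 10) + 5 ≤ 91`, against finrank_Nn: `87 + 5 = 92`.
-/

namespace Pool.Agent.BE

open MvPolynomial Submodule Module Pool.Agent.BR

variable {K : Type*} [Field K]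

private theorem r1_g {g : Pol K →ₗ[K] K} {p ν : Fin 3 → K} (hG : ∀ i j, GG g i j = p i * ν j) {w : Pol K}
    (hw : w ∈ cubics K) : ∑ j, p j * Ln ν w j = g w := by
  rw [g_expand hw g]
  refine Finset.sum_congr rfl fun i _ => ?_
  rw [Ln_apply, Finset.mul_sum]
  refine Finset.sum_congr rfl fun j _ => ?_
  rw [hG]
  ring

private theorem r1_rel {v : Fin 8 → Pol K} (hv : QV v) {g : Pol K →ₗ[K] K} (hg : Cut v g)
    {p ν : Fin 3 → K} (h2 : (2 : K) ≠ 0) (hG : ∀ i j, GG g i j = p i * ν j)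
    (h3 : ∃ a, ∀ b, b ≠ a → p b ≠ 0) (h4 : ∀ a, p a = 0 → ν a ≠ 0) : Rel0 v (Ln ν) := by
  intro u' hu' h
  have hc : ∀ i, u' i ∈ cubics K := fun i => hv.le (hu' i)
  have e1 : ∀ i, ∑ j, p j * Ln ν (v i) j = 0 := fun i => by
    rw [r1_g hG (hv.mem i)]
    exact (hg.mem.1 (v_mem v i)).2
  have e2 : ∀ i, ∑ j, p j * Ln ν (u' i) j = 0 := fun i => by
    rw [r1_g hG (hc i)]
    exact (hg.mem.1 (hu' i)).2
  have hd : ∀ a, p a ≠ 0 → ∑ i, Ln ν (v i) a * Ln ν (u' i) a = 0 := fun a ha =>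
    diag_zero hv.mem hc h h2 e1 e2 ha
  refine form_zero hv.mem hc h fun a => ?_
  by_cases ha : p a = 0
  · obtain ⟨a0, h3⟩ := h3
    have haa : a = a0 := by
      by_contra hne
      exact h3 a hne ha
    subst haa
    have e3 := (relQ hv.mem hc h ν).2
    rw [Finset.sum_eq_single a] at e3
    · exact (mul_eq_zero.1 e3).resolve_left (h4 a ha)
    · intro b _ hb
      rw [hd b (h3 b hb), mul_zero]
    · intro hb
      exact absurd (Finset.mem_univ a) hb
  · exact hd a ha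

private theorem r1_onto {v : Fin 8 → Pol K} {g : Pol K →ₗ[K] K} (hg : Cut v g)
    {p ν : Fin 3 → K} (hG : ∀ i j, GG g i j = p i * ν j) (hν : ν ≠ 0) {l : Fin 3 → K}
    (hl : ∑ j, p j * l j = 0) : ∃ u ∈ U v, Ln ν u = l := by
  obtain ⟨k, hk⟩ : ∃ k, ν k ≠ 0 := by
    by_contra hcon
    push Not at hcon
    exact hν (funext hcon)
  obtain ⟨n, hn⟩ : ∃ n : Fin 3 → K, ∑ j, ν j * n j = 1 := by
    refine ⟨Pi.single k (ν k)⁻¹, ?_⟩
    rw [Finset.sum_eq_single k]
    · rw [Pi.single_eq_same, mul_inv_cancel₀ hk]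
    · intro b _ hb
      rw [Pi.single_eq_of_ne hb, mul_zero]
    · intro hb
      exact absurd (Finset.mem_univ k) hb
  have hu : lin l * BR.sq n ∈ cubics K := by
    rw [mul_comm, ← N_mul_H1]
    exact Submodule.mul_mem_mul (sq_mem_N n) (lin_mem l)
  have hL : Ln ν (lin l * BR.sq n) = l := by
    funext i
    rw [Ln_apply]
    have : ∀ j, ν j * cm i j (lin l * BR.sq n) = l i * (ν j * n j) := fun j => by
      rw [cm_lin_sq]
      ring
    simp only [this]
    rw [← Finset.mul_sum, hn, mul_one]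
  refine ⟨lin l * BR.sq n, hg.mem.2 ⟨hu, ?_⟩, hL⟩
  rw [← r1_g hG hu, hL, hl]

private theorem r1_two {p : Fin 3 → K} (hp : p ≠ 0) : ∃ a b : Fin 3 → K, LinearIndependent K ![a, b] ∧
    ∑ j, p j * a j = 0 ∧ ∑ j, p j * b j = 0 := by
  obtain ⟨k, hk⟩ : ∃ k, p k ≠ 0 := by
    by_contra hcon
    push Not at hcon
    exact hp (funext hcon)
  fin_cases k
  · refine ⟨![p 1, - p 0, 0], ![p 2, 0, - p 0], ?_, ?_, ?_⟩
    · rw [LinearIndependent.pair_iff]
      intro s t h
      have h1 := congrFun h 1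
      have h2 := congrFun h 2
      simp at h1 h2 hk
      exact ⟨h1.resolve_right hk, h2.resolve_right hk⟩
    · simp [Fin.sum_univ_three]
      ring
    · simp [Fin.sum_univ_three]
      ring
  · refine ⟨![p 1, - p 0, 0], ![0, p 2, - p 1], ?_, ?_, ?_⟩
    · rw [LinearIndependent.pair_iff]
      intro s t h
      have h1 := congrFun h 0
      have h2 := congrFun h 2
      simp at h1 h2 hk
      exact ⟨h1.resolve_right hk, h2.resolve_right hk⟩
    · simp [Fin.sum_univ_three]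
      ring
    · simp [Fin.sum_univ_three]
      ring
  · refine ⟨![p 2, 0, - p 0], ![0, p 2, - p 1], ?_, ?_, ?_⟩
    · rw [LinearIndependent.pair_iff]
      intro s t h
      have h1 := congrFun h 0
      have h2 := congrFun h 1
      simp at h1 h2 hk
      exact ⟨h1.resolve_right hk, h2.resolve_right hk⟩
    · simp [Fin.sum_univ_three]
      ring
    · simp [Fin.sum_univ_three]
      ring

theorem r1 {v : Fin 8 → Pol K} (hv : QV v) {g : Pol K →ₗ[K] K} (hg : Cut v g) (h1 : ∃ w ∈ cubics K, g w = 1)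
    {p ν : Fin 3 → K} (h2 : (2 : K) ≠ 0) (hG : ∀ i j, GG g i j = p i * ν j)
    (hn : ¬ ∀ i j, p i ^ 2 * ν j = p j ^ 2 * ν i) (h3 : ∃ a, ∀ b, b ≠ a → p b ≠ 0)
    (h4 : ∀ a, p a = 0 → ν a ≠ 0) : False := by
  have hν : ν ≠ 0 := by
    rintro rfl
    exact hn fun i j => by simp
  have hp : p ≠ 0 := by
    rintro rfl
    exact hn fun i j => by simp
  obtain ⟨a, b, hab, ha, hb⟩ := r1_two hp
  have hU0 : Nn ν * H K 1 ≤ U v := by
    intro w hw
    have hc := Nn_mul_le ν hw
    refine hg.mem.2 ⟨hc, ?_⟩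
    rw [← r1_g hG hc, Nn_mul hw]
    simp
  have hc := cnt4 hv (r1_rel hv hg h2 hG h3 h4) hab (r1_onto hg hG hν ha) (r1_onto hg hG hν hb) hU0
    (fun u hu => Nn_mul hu)
  have hs := s1u hg h1 hG hn
  have e4 : H K 4 * U v = H K 7 := by
    rw [← H_mul 3 1, mul_assoc, hs, H_mul]
  have e7 : H K 7 * U v = H K 10 := by
    rw [← H_mul 6 1, mul_assoc, hs, H_mul]
  have e : Nn ν * H K 1 * U v ^ 3 = Nn ν * H K 10 := by
    rw [pow_succ, pow_succ, pow_one, mul_assoc (Nn ν), ← mul_assoc (H K 1), ← mul_assoc (H K 1), hs, e4, e7]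
  rw [e] at hc
  have := finrank_Nn hν
  omega

end Pool.Agent.BE
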