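import Pool.Agent.Work.MP_be705b_al.E.Base
import Pool.Agent.Work.MP_be705b_al.E.Bin
import Pool.Agent.Work.MP_be705b_al.E.A12
import Pool.Agent.Work.MP_be705b_al.E.R1

set_option autoImplicit false
set_option linter.unusedSectionVars false
set_option linter.unusedVariables false

/-!
# MP_be705b_al, elimination: rank one

PROOF. `p ≠ 0` and `ν ≠ 0` because `g w = 1` for some `w ∈ cubics K` (g_expand).
 * If `p i ^ 2 * ν j = p j ^ 2 * ν i` for all `i, j`: `ν j = t * p j ^ 2`, so `BP (GG g)`: bp_false.
 * Whenever `GG g` is a functional on a line (hypothesis `hG` of `bin`): `bin` and a1_false, a2_false, bp_false.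
 * `2 = 0`: choose `q j` with `q j ^ 2 = ν j`.  If `p, q` are linearly independent: line `s = p`, `r = q`, `h = ![0, 0, 1, 0]`
   (`GG g i j = p i * q j ^ 2 + 2 * (...)`).  If not, `q = t p` (`p ≠ 0`), so `ν j = t^2 p j ^ 2` and we are in the first case.
 * `2 ≠ 0`.  If exactly one `p i ≠ 0`: let `s = Pi.single i 1`, `r i = 0`, `r j ^ 2 = ν j` for `j ≠ i`.  If `r = 0`: BP with the point `s`
   (`GG g k l = p i * ν i * (s k * s l ^ 2)`).  Otherwise `s, r` are linearly independent and `h = ![p i * ν i, 0, p i, 0]`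
   (`s l * r l = 0` for all `l`).
   If exactly two, `p i, p j ≠ 0`, `p k = 0` and `ν k = 0`: `s = Pi.single i 1`, `r = Pi.single j 1`,
   `h = ![p i * ν i, p j * ν i, p i * ν j, p j * ν j]`.
   Otherwise (at least two nonzero coordinates and `p a = 0 → ν a ≠ 0`): r1 or the first case.
-/

namespace Pool.Agent.BE

open MvPolynomial Submodule Module Pool.Agent.BR

variable {K : Type*} [Field K]

private theorem third (k : Fin 3) : ∃ i j : Fin 3, i ≠ j ∧ i ≠ k ∧ j ≠ k ∧ ∀ a, a = i ∨ a = j ∨ a = k := by
  revert k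
  decide

private theorem others (i b c j : Fin 3) (h1 : b ≠ i) (h2 : c ≠ b) (h3 : c ≠ i) (h4 : j ≠ i) :
    j = b ∨ j = c := by
  revert i b c j
  decide

theorem rank1 [IsAlgClosed K] {v : Fin 8 → Pol K} (hv : QV v) {g : Pol K →ₗ[K] K} (hg : Cut v g)
    (h1 : ∃ w ∈ cubics K, g w = 1) {p ν : Fin 3 → K} (hG : ∀ i j, GG g i j = p i * ν j) : False := by
  classical
  obtain ⟨i0, hi0⟩ : ∃ i, p i ≠ 0 := by
    by_contra hne
    push Not at hne
    obtain ⟨w, hw, h1⟩ := h1
    rw [g_expand hw] at h1
    simp [hG, hne] at h1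
  have line : ∀ (s r : Fin 3 → K) (h : Fin 4 → K), LinearIndependent K ![s, r] →
      (∀ i j, GG g i j = h 0 * (s i * s j ^ 2) + h 1 * (r i * s j ^ 2 + 2 * (s i * s j * r j)) +
      h 2 * (s i * r j ^ 2 + 2 * (r i * s j * r j)) + h 3 * (r i * r j ^ 2)) → False := by
    intro s r h hsr hh
    rcases bin hsr h hh with h' | h' | h'
    · exact a1_false hv hg h'
    · exact a2_false hv hg h'
    · exact bp_false hv hg h1 h'
  by_cases hA : ∀ i j, p i ^ 2 * ν j = p j ^ 2 * ν i
  · refine bp_false hv hg h1 ⟨p, ν i0 / p i0 ^ 2, fun i j => ?_⟩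
    have h2 := hA i0 j
    rw [hG]
    field_simp
    linear_combination p i * h2
  by_cases h2 : (2 : K) = 0
  · have hq : ∀ j, ∃ q, q ^ 2 = ν j := fun j => IsAlgClosed.exists_pow_nat_eq (ν j) two_pos
    choose q hq using hq
    by_cases hli : LinearIndependent K ![p, q]
    · refine line p q ![0, 0, 1, 0] hli fun i j => ?_
      rw [hG, ← hq j]
      simp [h2]
    · have hp0 : p ≠ 0 := fun h => hi0 (by rw [h]; rfl)
      rw [LinearIndependent.pair_iff' hp0] at hli
      push Not at hli
      obtain ⟨t, ht⟩ := hli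
      apply hA
      intro i j
      rw [← hq, ← hq, ← ht]
      simp only [Pi.smul_apply, smul_eq_mul]
      ring
  by_cases hC : ∃ a, ∀ b, b ≠ a → p b ≠ 0
  · by_cases h4 : ∀ a, p a = 0 → ν a ≠ 0
    · exact r1 hv hg h1 h2 hG hA hC h4
    · push Not at h4
      obtain ⟨k, hk, hk'⟩ := h4
      obtain ⟨i, j, hij, hik, hjk, hall⟩ := third k
      refine line (Pi.single i 1) (Pi.single j 1) ![p i * ν i, p j * ν i, p i * ν j, p j * ν j] ?_ ?_
      · rw [LinearIndependent.pair_iff]
        intro s t hst
        have e1 := congrFun hst i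
        have e2 := congrFun hst j
        simp [hij, Ne.symm hij] at e1 e2
        exact ⟨e1, e2⟩
      · intro a b
        rw [hG]
        rcases hall a with rfl | rfl | rfl <;> rcases hall b with rfl | rfl | rfl <;>
          simp [hij, Ne.symm hij, hik, Ne.symm hik, hjk, Ne.symm hjk, hk, hk']
  · push Not at hC
    obtain ⟨b, hb, hpb⟩ := hC i0
    obtain ⟨c, hc, hpc⟩ := hC b
    have hci : c ≠ i0 := fun h => hi0 (h ▸ hpc)
    have hz : ∀ j, j ≠ i0 → p j = 0 := by
      intro j hj
      rcases others i0 b c j hb hc hci hj with rfl | rfl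
      · exact hpb
      · exact hpc
    have hq : ∀ j, ∃ q, q ^ 2 = if j = i0 then 0 else ν j :=
      fun j => IsAlgClosed.exists_pow_nat_eq _ two_pos
    choose q hq using hq
    have hq0 : q i0 = 0 := by
      have := hq i0
      rw [if_pos rfl] at this
      exact pow_eq_zero_iff (two_ne_zero) |>.1 this
    have hqj : ∀ j, j ≠ i0 → q j ^ 2 = ν j := fun j hj => by rw [hq, if_neg hj]
    by_cases hq1 : ∃ j, q j ≠ 0
    · obtain ⟨j0, hj0⟩ := hq1
      have hji : j0 ≠ i0 := fun h => hj0 (h ▸ hq0)
      refine line (Pi.single i0 1) q ![p i0 * ν i0, 0, p i0, 0] ?_ ?_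
      · rw [LinearIndependent.pair_iff]
        intro s t hst
        have e1 := congrFun hst i0
        have e2 := congrFun hst j0
        simp [hq0, hji, hj0] at e1 e2
        exact ⟨e1, e2⟩
      · intro a b
        rw [hG]
        by_cases ha : a = i0
        · subst ha
          by_cases hb : b = a
          · subst hb
            simp [hq0]
          · simp [hb, hqj b hb]
        · rw [hz a ha]
          by_cases hb : b = i0
          · subst hb
            simp [hq0, ha]
          · simp [hb, ha]
    · push Not at hq1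
      apply hA
      intro i j
      have hν : ∀ j, j ≠ i0 → ν j = 0 := fun j hj => by rw [← hqj j hj, hq1]; simp
      by_cases hi : i = i0
      · by_cases hj : j = i0
        · rw [hi, hj]
        · rw [hν j hj, hz j hj]
          simp
      · by_cases hj : j = i0
        · rw [hz i hi, hν i hi]
          simp
        · rw [hz i hi, hz j hj]
          simp

end Pool.Agent.BE
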