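import Pool.Agent.Work.MP_be705b_al.E.Hyp
import Pool.Agent.Work.MP_be705b_al.E.Cnt2
import Pool.Agent.Work.MP_be705b_al.E.Phi
import Pool.Agent.Work.MP_be705b_al.E.Mat
import Pool.Agent.Work.MP_be705b_al.E.Rank1

set_option autoImplicit false
set_option linter.unusedSectionVars false
set_option linter.unusedVariables false

/-!
# MP_be705b_al, elimination: main theorem over algebraically closed fields
-/

namespace Pool.Agent.BE

open MvPolynomial Submodule Module Pool.Agent.BR

variable {K : Type*} [Field K]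

theorem main_ac [IsAlgClosed K] {v : Fin 8 → Pol K} (hv : QV v) : False := by
  obtain ⟨g, hg, h1⟩ := exists_cut hv
  obtain ⟨w, hw, hgw⟩ := h1
  obtain ⟨P, c, r1, r2, h0⟩ := phi hg hw hgw (cnt2 hv)
  rcases mat r1 r2 h0 with h | h | ⟨p, ν, h⟩
  · exact a1_false hv hg h
  · exact a2_false hv hg h
  · exact rank1 hv hg ⟨w, hw, hgw⟩ h

end Pool.Agent.BE
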