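import Pool.Agent.Work.MP_be705b_al.E.Defs

set_option autoImplicit false
set_option linter.unusedSectionVars false
set_option linter.unusedVariables false

/-!
# MP_be705b_al, elimination: matrices with the first symmetry

PROOF. (a) Transformation: for matrices `S, T` put `G' = S G T`, `P' = S P T` (as 3 x 3 matrices).  Then
`Bf c G' P' i j k l = ∑ S i i' T j' j S k k' T l' l * Bf c G P i' j' k' l'`, hence `r1` and (for invertible S, T) `h0` hold for
`G', P'` as well.  Choose `S, T` invertible with `G'` diagonal, `G' = diag (d 0, d 1, d 2)` (Mathlib: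
`Matrix.Pivot.exists_list_transvec_mul_mul_list_transvec_eq_diagonal`).
(b) In the diagonal case `r1` says, for distinct `i, k, l`:
   * (i,i,k,k): `c d_i d_k + d_i P_kk + P_ii d_k = 0`;
   * (i,i,k,l): `d_i P_kl = 0`.
 - all `d_i ≠ 0`: `P_kl = 0` for `k ≠ l`, and with `t_i = P_ii / d_i` we have `t_i + t_k = - c` for `i ≠ k`, so all `t_i` are
   equal to some `t` with `2 t = - c` (t0 + t1 = t0 + t2 = t1 + t2), hence `Bf c G P i j k l = (c + 2 t) G i j G k l = 0`,
   against `h0`.
 - exactly two nonzero, say (after renaming, or treat the three cases) `d_2 = 0`: `P_12 = P_21 = P_02 = P_20 = 0`, `P_22 = 0`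
   (from (i,k) = (0,2): `d_0 P_22 = 0`) and `P_00 / d_0 + P_11 / d_1 = - c`.  So
   `G = d_0 e0 e0^t + d_1 e1 e1^t`, `P` is supported on the upper left 2 x 2 block.  Transform back with `S^-1, T^-1`:
   `a = S^-1 e0`, `b = S^-1 e1`, `A = d_0 e0^t T^-1`, `B = d_1 e1^t T^-1`, `x = P_00/d_0`, `y = P_01/d_1`, `z = P_10/d_0`,
   `w = P_11/d_1`.
 - at most one nonzero: `G` has rank at most one (first alternative).
-/

namespace Pool.Agent.BE

open MvPolynomial Submodule Module Pool.Agent.BR

variable {K : Type*} [Field K]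

private theorem m1diag (G : Matrix (Fin 3) (Fin 3) K) :
    ∃ (S T U V : Matrix (Fin 3) (Fin 3) K) (d : Fin 3 → K), U * S = 1 ∧ S * U = 1 ∧ T * V = 1 ∧ V * T = 1 ∧
      G = S * Matrix.diagonal d * T := by
  obtain ⟨L, L', D, h⟩ := Matrix.Pivot.exists_list_transvec_mul_diagonal_mul_list_transvec G
  exact ⟨_, _, _, _, D, Matrix.TransvectionStruct.reverse_inv_prod_mul_prod L,
    Matrix.TransvectionStruct.prod_mul_reverse_inv_prod L,
    Matrix.TransvectionStruct.prod_mul_reverse_inv_prod L',
    Matrix.TransvectionStruct.reverse_inv_prod_mul_prod L', h⟩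

private theorem m1col {c : K} {G P : Fin 3 → Fin 3 → K} (V : Fin 3 → Fin 3 → K)
    (r : ∀ i j k l, Bf c G P i j k l = Bf c G P k j i l) (i j k l : Fin 3) :
    Bf c (fun i j => ∑ n, G i n * V n j) (fun i j => ∑ n, P i n * V n j) i j k l =
      Bf c (fun i j => ∑ n, G i n * V n j) (fun i j => ∑ n, P i n * V n j) k j i l := by
  simp only [Bf, Fin.sum_univ_three] at r ⊢
  linear_combination V 0 j * V 0 l * r i 0 k 0 + V 0 j * V 1 l * r i 0 k 1 + V 0 j * V 2 l * r i 0 k 2 +
    V 1 j * V 0 l * r i 1 k 0 + V 1 j * V 1 l * r i 1 k 1 + V 1 j * V 2 l * r i 1 k 2 +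
    V 2 j * V 0 l * r i 2 k 0 + V 2 j * V 1 l * r i 2 k 1 + V 2 j * V 2 l * r i 2 k 2

private theorem m1row {c : K} {G P : Fin 3 → Fin 3 → K} (U : Fin 3 → Fin 3 → K)
    (r : ∀ i j k l, Bf c G P i j k l = Bf c G P k j i l) (i j k l : Fin 3) :
    Bf c (fun i j => ∑ n, U i n * G n j) (fun i j => ∑ n, U i n * P n j) i j k l =
      Bf c (fun i j => ∑ n, U i n * G n j) (fun i j => ∑ n, U i n * P n j) k j i l := by
  simp only [Bf, Fin.sum_univ_three] at r ⊢
  linear_combination U i 0 * U k 0 * r 0 j 0 l + U i 0 * U k 1 * r 0 j 1 l + U i 0 * U k 2 * r 0 j 2 l +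
    U i 1 * U k 0 * r 1 j 0 l + U i 1 * U k 1 * r 1 j 1 l + U i 1 * U k 2 * r 1 j 2 l +
    U i 2 * U k 0 * r 2 j 0 l + U i 2 * U k 1 * r 2 j 1 l + U i 2 * U k 2 * r 2 j 2 l

private theorem m1sum {p q r : Fin 3} (hpq : p ≠ q) (hpr : p ≠ r) (hqr : q ≠ r) (f : Fin 3 → K) :
    ∑ i, f i = f p + f q + f r := by
  have h : (Finset.univ : Finset (Fin 3)) = {p, q, r} := by
    revert p q r
    decide
  rw [h, Finset.sum_insert (by simp [hpq, hpr]), Finset.sum_insert (by simp [hqr]), Finset.sum_singleton, add_assoc]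

private theorem m1li {S U : Matrix (Fin 3) (Fin 3) K} (h : U * S = 1) {p q : Fin 3} (hpq : p ≠ q) {e f : K}
    (he : e ≠ 0) (hf : f ≠ 0) :
    LinearIndependent K ![fun i => e * S i p, fun i => f * S i q] := by
  have key : ∀ m n, ∑ i, U m i * S i n = (1 : Matrix (Fin 3) (Fin 3) K) m n := by
    intro m n
    rw [← h, Matrix.mul_apply]
  rw [LinearIndependent.pair_iff]
  intro s t hst
  have h1 : ∀ m, s * e * (1 : Matrix (Fin 3) (Fin 3) K) m p + t * f * (1 : Matrix (Fin 3) (Fin 3) K) m q = 0 := by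
    intro m
    rw [← key, ← key, Finset.mul_sum, Finset.mul_sum, ← Finset.sum_add_distrib]
    refine Finset.sum_eq_zero fun i _ => ?_
    have := congrFun hst i
    simp only [Pi.add_apply, Pi.smul_apply, smul_eq_mul, Pi.zero_apply] at this
    linear_combination U m i * this
  have h2 := h1 p
  have h3 := h1 q
  rw [Matrix.one_apply_eq, Matrix.one_apply_ne hpq, mul_one, mul_zero, add_zero] at h2
  rw [Matrix.one_apply_eq, Matrix.one_apply_ne hpq.symm, mul_one, mul_zero, zero_add] at h3
  exact ⟨(mul_eq_zero.1 h2).resolve_right he, (mul_eq_zero.1 h3).resolve_right hf⟩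

private theorem m1two {c : K} {G P : Fin 3 → Fin 3 → K} {S T U V : Matrix (Fin 3) (Fin 3) K} {d : Fin 3 → K}
    {Q : Fin 3 → Fin 3 → K} (hUS : U * S = 1) (hTV : V.transpose * T.transpose = 1)
    (hG : ∀ i j, G i j = ∑ m, S i m * d m * T m j) (hP : ∀ i j, P i j = ∑ m, ∑ n, S i m * Q m n * T n j)
    (h1 : ∀ m k, m ≠ k → c * (d m * d k) + d m * Q k k + Q m m * d k = 0)
    (h2 : ∀ m k l, m ≠ k → m ≠ l → k ≠ l → d m * Q k l = 0)
    {p q r : Fin 3} (hpq : p ≠ q) (hpr : p ≠ r) (hqr : q ≠ r) (hp : d p ≠ 0) (hq : d q ≠ 0) (hr : d r = 0) :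
    ∃ (a b A B : Fin 3 → K) (x y z w : K), LinearIndependent K ![a, b] ∧ LinearIndependent K ![A, B] ∧
      (∀ i j, G i j = a i * A j + b i * B j) ∧
      (∀ i j, P i j = x * (a i * A j) + y * (a i * B j) + z * (b i * A j) + w * (b i * B j)) ∧
      c = -(x + w) := by
  have e1 : Q q r = 0 := (mul_eq_zero.1 (h2 p q r hpq hpr hqr)).resolve_left hp
  have e2 : Q r q = 0 := (mul_eq_zero.1 (h2 p r q hpr hpq hqr.symm)).resolve_left hp
  have e3 : Q p r = 0 := (mul_eq_zero.1 (h2 q p r hpq.symm hqr hpr)).resolve_left hq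
  have e4 : Q r p = 0 := (mul_eq_zero.1 (h2 q r p hqr hpq.symm hpr.symm)).resolve_left hq
  have e5 : Q r r = 0 := by
    have := h1 p r hpr
    rw [hr, mul_zero, mul_zero, mul_zero, zero_add, add_zero] at this
    exact (mul_eq_zero.1 this).resolve_left hp
  have e6 := h1 p q hpq
  refine ⟨fun i => 1 * S i p, fun i => 1 * S i q, fun j => d p * T.transpose j p, fun j => d q * T.transpose j q,
    Q p p / d p, Q p q / d q, Q q p / d p, Q q q / d q, m1li hUS hpq one_ne_zero one_ne_zero, m1li hTV hpq hp hq,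
    ?_, ?_, ?_⟩
  · intro i j
    rw [hG, m1sum hpq hpr hqr, hr]
    simp only [Matrix.transpose_apply]
    ring
  · intro i j
    rw [hP, m1sum hpq hpr hqr, m1sum hpq hpr hqr, m1sum hpq hpr hqr, m1sum hpq hpr hqr, e1, e2, e3, e4, e5]
    simp only [Matrix.transpose_apply]
    field_simp
    ring
  · field_simp
    linear_combination e6

theorem mat1 {c : K} {G P : Fin 3 → Fin 3 → K} (r1 : ∀ i j k l, Bf c G P i j k l = Bf c G P k j i l)
    (h0 : ∃ i j k l, Bf c G P i j k l ≠ 0) :
    (∃ p ν : Fin 3 → K, ∀ i j, G i j = p i * ν j) ∨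
    ∃ (a b A B : Fin 3 → K) (x y z w : K), LinearIndependent K ![a, b] ∧ LinearIndependent K ![A, B] ∧
      (∀ i j, G i j = a i * A j + b i * B j) ∧
      (∀ i j, P i j = x * (a i * A j) + y * (a i * B j) + z * (b i * A j) + w * (b i * B j)) ∧
      c = -(x + w) := by
  obtain ⟨S, T, U, V, d, hUS, hSU, hTV, hVT, hG⟩ := m1diag (Matrix.of G)
  have hG' : ∀ i j, G i j = ∑ m, S i m * d m * T m j := by
    intro i j
    have h := congrFun (congrFun hG i) j
    rw [Matrix.of_apply, Matrix.mul_apply] at h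
    rw [h]
    refine Finset.sum_congr rfl fun m _ => ?_
    rw [Matrix.mul_diagonal]
  set Q : Matrix (Fin 3) (Fin 3) K := U * Matrix.of P * V with hQ
  have hPQ : Matrix.of P = S * Q * T := by
    rw [hQ]
    calc Matrix.of P = (S * U) * Matrix.of P * (V * T) := by rw [hSU, hVT, one_mul, mul_one]
      _ = S * (U * Matrix.of P * V) * T := by simp only [Matrix.mul_assoc]
  have hP' : ∀ i j, P i j = ∑ m, ∑ n, S i m * Q m n * T n j := by
    intro i j
    have h := congrFun (congrFun hPQ i) j
    rw [Matrix.of_apply, Matrix.mul_apply] at h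
    rw [h, Finset.sum_comm]
    refine Finset.sum_congr rfl fun m _ => ?_
    rw [Matrix.mul_apply, Finset.sum_mul]
  have hGD : U * Matrix.of G * V = Matrix.diagonal d := by
    rw [hG]
    calc U * (S * Matrix.diagonal d * T) * V = (U * S) * Matrix.diagonal d * (T * V) := by
          simp only [Matrix.mul_assoc]
      _ = Matrix.diagonal d := by rw [hUS, hTV, one_mul, mul_one]
  have R := m1row (fun i j => U i j) (m1col (fun i j => V i j) r1)
  have R' : ∀ i j k l, Bf c (fun i j => Matrix.diagonal d i j) (fun i j => Q i j) i j k l =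
      Bf c (fun i j => Matrix.diagonal d i j) (fun i j => Q i j) k j i l := by
    have t1 : (fun i j => ∑ n, U i n * ∑ m, G n m * V m j) = fun i j => Matrix.diagonal d i j := by
      funext i j
      rw [← hGD, Matrix.mul_assoc, Matrix.mul_apply]
      refine Finset.sum_congr rfl fun n _ => ?_
      rw [Matrix.mul_apply]
      rfl
    have t2 : (fun i j => ∑ n, U i n * ∑ m, P n m * V m j) = fun i j => Q i j := by
      funext i j
      rw [hQ, Matrix.mul_assoc, Matrix.mul_apply]
      refine Finset.sum_congr rfl fun n _ => ?_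
      rw [Matrix.mul_apply]
      rfl
    intro i j k l
    have := R i j k l
    rw [t1, t2] at this
    exact this
  have h1 : ∀ m k, m ≠ k → c * (d m * d k) + d m * Q k k + Q m m * d k = 0 := by
    intro m k hmk
    have := R' m m k k
    simp only [Bf, Matrix.diagonal_apply_eq, Matrix.diagonal_apply_ne _ hmk, Matrix.diagonal_apply_ne _ hmk.symm] at this
    linear_combination this
  have h2 : ∀ m k l, m ≠ k → m ≠ l → k ≠ l → d m * Q k l = 0 := by
    intro m k l hmk hml hkl
    have := R' m m k l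
    simp only [Bf, Matrix.diagonal_apply_eq, Matrix.diagonal_apply_ne _ hmk.symm, Matrix.diagonal_apply_ne _ hml,
      Matrix.diagonal_apply_ne _ hkl] at this
    linear_combination this
  have hTV' : V.transpose * T.transpose = 1 := by
    rw [← Matrix.transpose_mul, hTV, Matrix.transpose_one]
  have one : ∀ p q r : Fin 3, p ≠ q → p ≠ r → q ≠ r → d q = 0 → d r = 0 →
      ∃ p ν : Fin 3 → K, ∀ i j, G i j = p i * ν j := by
    intro p q r hpq hpr hqr hq hr
    refine ⟨fun i => S i p, fun j => d p * T p j, fun i j => ?_⟩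
    rw [hG', m1sum hpq hpr hqr, hq, hr]
    ring
  have two : ∀ p q r : Fin 3, p ≠ q → p ≠ r → q ≠ r → d p ≠ 0 → d q ≠ 0 → d r = 0 → _ :=
    fun p q r hpq hpr hqr hp hq hr => m1two hUS hTV' hG' hP' h1 h2 hpq hpr hqr hp hq hr
  by_cases c0 : d 0 = 0
  · by_cases c1 : d 1 = 0
    · exact Or.inl (one 2 0 1 (by decide) (by decide) (by decide) c0 c1)
    · by_cases c2 : d 2 = 0
      · exact Or.inl (one 1 0 2 (by decide) (by decide) (by decide) c0 c2)
      · exact Or.inr (two 1 2 0 (by decide) (by decide) (by decide) c1 c2 c0)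
  · by_cases c1 : d 1 = 0
    · by_cases c2 : d 2 = 0
      · exact Or.inl (one 0 1 2 (by decide) (by decide) (by decide) c1 c2)
      · exact Or.inr (two 0 2 1 (by decide) (by decide) (by decide) c0 c2 c1)
    · by_cases c2 : d 2 = 0
      · exact Or.inr (two 0 1 2 (by decide) (by decide) (by decide) c0 c1 c2)
      · exfalso
        have a01 := h1 0 1 (by decide)
        have a02 := h1 0 2 (by decide)
        have a12 := h1 1 2 (by decide)
        have b1 : Q 0 1 = 0 := (mul_eq_zero.1 (h2 2 0 1 (by decide) (by decide) (by decide))).resolve_left c2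
        have b2 : Q 1 0 = 0 := (mul_eq_zero.1 (h2 2 1 0 (by decide) (by decide) (by decide))).resolve_left c2
        have b3 : Q 0 2 = 0 := (mul_eq_zero.1 (h2 1 0 2 (by decide) (by decide) (by decide))).resolve_left c1
        have b4 : Q 2 0 = 0 := (mul_eq_zero.1 (h2 1 2 0 (by decide) (by decide) (by decide))).resolve_left c1
        have b5 : Q 1 2 = 0 := (mul_eq_zero.1 (h2 0 1 2 (by decide) (by decide) (by decide))).resolve_left c0
        have b6 : Q 2 1 = 0 := (mul_eq_zero.1 (h2 0 2 1 (by decide) (by decide) (by decide))).resolve_left c0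
        obtain ⟨t, ht⟩ : ∃ t, Q 0 0 = t * d 0 := ⟨Q 0 0 / d 0, by field_simp⟩
        obtain ⟨t1, ht1⟩ : ∃ t, Q 1 1 = t * d 1 := ⟨Q 1 1 / d 1, by field_simp⟩
        obtain ⟨t2, ht2⟩ : ∃ t, Q 2 2 = t * d 2 := ⟨Q 2 2 / d 2, by field_simp⟩
        rw [ht, ht1] at a01
        rw [ht, ht2] at a02
        rw [ht1, ht2] at a12
        have e01 : c + t + t1 = 0 := by
          have : d 0 * d 1 * (c + t + t1) = 0 := by linear_combination a01
          exact (mul_eq_zero.1 this).resolve_left (mul_ne_zero c0 c1)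
        have e02 : c + t + t2 = 0 := by
          have : d 0 * d 2 * (c + t + t2) = 0 := by linear_combination a02
          exact (mul_eq_zero.1 this).resolve_left (mul_ne_zero c0 c2)
        have e12 : c + t1 + t2 = 0 := by
          have : d 1 * d 2 * (c + t1 + t2) = 0 := by linear_combination a12
          exact (mul_eq_zero.1 this).resolve_left (mul_ne_zero c1 c2)
        have f1 : t1 = t := by linear_combination e12 - e02
        have f2 : t2 = t := by linear_combination e12 - e01
        rw [f1] at e01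
        have hPG : ∀ i j, P i j = t * G i j := by
          intro i j
          rw [hP', hG']
          simp only [Fin.sum_univ_three, b1, b2, b3, b4, b5, b6, ht, ht1, ht2, f1, f2]
          ring
        obtain ⟨i, j, k, l, h⟩ := h0
        apply h
        rw [Bf, hPG, hPG]
        linear_combination G i j * G k l * e01

end Pool.Agent.BE
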