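import Pool.Agent.Work.MP_be705b_al.E.Exp

set_option autoImplicit false
set_option linter.unusedSectionVars false
set_option linter.unusedVariables false

/-!
# MP_be705b_al, elimination: relations of degree two

PROOF. For `w, w' ∈ cubics K` write `L = Ln ν`, `m i j = cm i j w`, `m' i j = cm i j w'`, so `L w i = ∑ j, m i j * ν j`.
For `i ≠ k` let `χ_ik : Pol K →ₗ[K] K` be the functional `f ↦ ∑ (j ≤ l) ν_j ν_l * (coefficient of X_i X_k X_j^2 X_l^2 in f)` (six terms),
e.g. `χ_01 = ν_0^2 cf 5 1 0 + ν_1^2 cf 1 5 0 + ν_2^2 cf 1 1 4 + ν_0 ν_1 cf 3 3 0 + ν_0 ν_2 cf 3 1 2 + ν_1 ν_2 cf 1 3 2`, and let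
`χ = ν_0^3 cf 6 0 0 + ν_0^2 ν_1 cf 4 2 0 + ... ` (all ten monomials `X_0^(2a) X_1^(2b) X_2^(2c)`, `a + b + c = 3`, with the factor
`ν_0^a ν_1^b ν_2^c`).  Then for `w, w' ∈ cubics K`
   `χ_ik (w * w') = L w i * L w' k + L w k * L w' i`,     `χ (w * w') = ∑ i, ν i * (L w i * L w' i)`
because the monomial `X_a X_b^2 * X_c X_d^2` has odd exponents exactly at `a, c` if `a ≠ c`, and no odd exponent if `a = c`
(expand `w, w'` with `cubics_expand`; both sides are bilinear, so it is enough to check it for `w = X_a X_b^2`,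
`w' = X_c X_d^2`).  Sum over the relation.
(Other proof: modulo the ideal spanned by `X_j^2 - C (ν j)` every `w ∈ cubics K` is congruent to `lin (Ln ν w)`; so
`Q ∈ H K 2` below lies in this ideal, and a form of degree two in this ideal has no cross terms and satisfies `∑ ν_j q_jj = 0`.)
Here `(hat Q) = ![coefficient of yz, of xz, of xy]`, `dg Q = ![of x^2, of y^2, of z^2]` for
`Q = ∑ i, lin (Ln ν (u i)) * lin (Ln ν (u' i))`, and `lin a * lin b` has cross coefficients `a_i b_k + a_k b_i` (BR.hat_lin_mul).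
-/

namespace Pool.Agent.BE

open MvPolynomial Submodule Module Pool.Agent.BR

variable {K : Type*} [Field K]

/-- the coordinate with parity `ε` modulo the polynomials `X a ^ 2 - ν a` -/
private noncomputable def par (ν : Fin 3 → K) (ε : Fin 3 → ℕ) : Pol K →ₗ[K] K :=
  (basisMonomials (Fin 3) K).constr K
    (fun m => if ∀ a, m a % 2 = ε a then ∏ a, ν a ^ (m a / 2) else 0)

private theorem par_monomial (ν : Fin 3 → K) (ε : Fin 3 → ℕ) (m : Fin 3 →₀ ℕ) :
    par ν ε (monomial m 1) = if ∀ a, m a % 2 = ε a then ∏ a, ν a ^ (m a / 2) else 0 := by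
  have := (basisMonomials (Fin 3) K).constr_basis K
    (fun m => if ∀ a, m a % 2 = ε a then ∏ a, ν a ^ (m a / 2) else 0) m
  rwa [coe_basisMonomials] at this

/-- the structure constants -/
private noncomputable def cc (ν : Fin 3 → K) (ε : Fin 3 → ℕ) (i k : Fin 3) : K :=
  if ∀ a, ((Finsupp.single i 1 + Finsupp.single k 1 : Fin 3 →₀ ℕ) a) % 2 = ε a then
    (if i = k then ν i else 1) else 0

private theorem par_mon (ν : Fin 3 → K) (ε : Fin 3 → ℕ) (i j k l : Fin 3) :
    par ν ε (X i * X j ^ 2 * (X k * X l ^ 2)) = cc ν ε i k * (ν j * ν l) := by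
  have h1 : (X i * X j ^ 2 * (X k * X l ^ 2) : Pol K) =
      monomial ((Finsupp.single i 1 + Finsupp.single k 1) +
        (Finsupp.single j 2 + Finsupp.single l 2)) 1 := by
    rw [X_pow_eq_monomial, X_pow_eq_monomial]
    simp only [X, monomial_mul, mul_one]
    rw [add_add_add_comm]
  have h2 : ∀ a, ((Finsupp.single i 1 + Finsupp.single k 1) +
      (Finsupp.single j 2 + Finsupp.single l 2) : Fin 3 →₀ ℕ) a % 2 =
      ((Finsupp.single i 1 + Finsupp.single k 1 : Fin 3 →₀ ℕ) a) % 2 := by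
    intro a
    simp only [Finsupp.add_apply, Finsupp.single_apply]
    split_ifs <;> simp
  have h3 : ∏ a, ν a ^ (((Finsupp.single i 1 + Finsupp.single k 1) +
      (Finsupp.single j 2 + Finsupp.single l 2) : Fin 3 →₀ ℕ) a / 2) = (if i = k then ν i else 1) * (ν j * ν l) := by
    have h4 : ∀ a, ((Finsupp.single i 1 + Finsupp.single k 1) +
      (Finsupp.single j 2 + Finsupp.single l 2) : Fin 3 →₀ ℕ) a / 2 =
      ((Finsupp.single i 1 + Finsupp.single k 1 : Fin 3 →₀ ℕ) a) / 2 +
        ((if j = a then 1 else 0) + (if l = a then 1 else 0)) := by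
      intro a
      simp only [Finsupp.add_apply, Finsupp.single_apply]
      split_ifs <;> simp
    simp only [h4, pow_add, Finset.prod_mul_distrib]
    congr 1
    · fin_cases i <;> fin_cases k <;> simp [Fin.prod_univ_three, Finsupp.single_apply]
    · congr 1
      · rw [Finset.prod_eq_single j]
        · simp
        · intro b _ hb
          simp [Ne.symm hb]
        · simp
      · rw [Finset.prod_eq_single l]
        · simp
        · intro b _ hb
          simp [Ne.symm hb]
        · simp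
  rw [h1, par_monomial, h3, cc]
  simp only [h2]
  split_ifs <;> simp

private theorem par_mul (ν : Fin 3 → K) (ε : Fin 3 → ℕ) {w w' : Pol K} (hw : w ∈ cubics K)
    (hw' : w' ∈ cubics K) : par ν ε (w * w') = ∑ i, ∑ k, cc ν ε i k * (Ln ν w i * Ln ν w' k) := by
  conv_lhs => rw [cubics_expand hw, cubics_expand hw']
  simp only [Finset.sum_mul_sum, map_sum, Ln_apply]
  refine Finset.sum_congr rfl fun i _ => Finset.sum_congr rfl fun k _ => ?_
  simp only [Finset.mul_sum]
  refine Finset.sum_congr rfl fun j _ => Finset.sum_congr rfl fun l _ => ?_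
  have h1 : (C (cm i j w) * (X i * X j ^ 2) * (C (cm k l w') * (X k * X l ^ 2)) : Pol K) =
      (cm i j w * cm k l w') • (X i * X j ^ 2 * (X k * X l ^ 2)) := by
    rw [smul_eq_C_mul, C_mul]
    ring
  rw [h1, map_smul, par_mon, smul_eq_mul]
  ring

theorem relQ {n : ℕ} {u u' : Fin n → Pol K} (hu : ∀ i, u i ∈ cubics K) (hu' : ∀ i, u' i ∈ cubics K)
    (h : ∑ i, u i * u' i = 0) (ν : Fin 3 → K) :
    (∀ a b : Fin 3, a ≠ b → ∑ i, (Ln ν (u i) a * Ln ν (u' i) b + Ln ν (u i) b * Ln ν (u' i) a) = 0) ∧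
      ∑ a, ν a * ∑ i, Ln ν (u i) a * Ln ν (u' i) a = 0 := by
  have key : ∀ ε, ∑ t, ∑ i, ∑ k, cc ν ε i k * (Ln ν (u t) i * Ln ν (u' t) k) = 0 := by
    intro ε
    have h1 := congrArg (par ν ε) h
    rw [map_sum, map_zero] at h1
    rw [← h1]
    exact Finset.sum_congr rfl fun t _ => (par_mul ν ε (hu t) (hu' t)).symm
  constructor
  · intro a b hab
    have h1 := key (fun c => (Finsupp.single a 1 + Finsupp.single b 1 : Fin 3 →₀ ℕ) c)
    rw [← h1]
    refine Finset.sum_congr rfl fun t _ => ?_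
    fin_cases a <;> fin_cases b <;>
      simp [cc, Fin.sum_univ_three, Fin.forall_fin_succ, Finsupp.single_apply] at hab ⊢ <;> ring
  · have h1 := key (fun _ => 0)
    rw [← h1]
    simp only [Finset.mul_sum]
    rw [Finset.sum_comm]
    refine Finset.sum_congr rfl fun t _ => ?_
    simp [cc, Fin.sum_univ_three, Fin.forall_fin_succ, Finsupp.single_apply]

end Pool.Agent.BE
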