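import Pool.Agent.Work.MP_be705b_al.E.BDefs
import Pool.Agent.Work.MP_be705b_al.E.Exp

set_option autoImplicit false
set_option linter.unusedSectionVars false
set_option linter.unusedVariables false

/-!
# MP_be705b_al, elimination: linear substitutions

PROOF of QV.map. `aeval (fun i => σ (v i)) F = σ (aeval v F)`.

PROOF of BPt.map. `U (fun i => σ (v i)) = (U v).map σ` and the hypotheses.

PROOF of base_vertex. If `p i ≠ 0` and `p j = 0` for `j ≠ i`, let `σ = rename (Equiv.swap 0 i)` (`renameEquiv`); it maps the monomials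
`X a * X b ^ 2` to monomials of the same kind (cubics_eq_span, XX_mem), and for `w ∈ cubics K`:
`eval p (σ w) = eval (p ∘ swap) w`; with `p' = p ∘ swap 0 i = ![p i, 0, 0]` and homogeneity `eval p' w = (p i)^3 * eval ![1,0,0] w`.
Use BPt.map with `σ⁻¹ = σ` and base3.

PROOF of base_char2. `2 = 0`.  For linear forms `l, m`: `l * m ^ 2 ∈ cubics K` (coefficient of `x y z` of `lin a * lin b * lin b` is
`TT a b b = 2 (...) = 0`, BR.cf111_lin3).  Choose an invertible matrix with first column `p` (`p ≠ 0`): `σ (X i) = p i * X 0 + (...)`,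
an algebra automorphism of `Pol K` (linear substitution) which maps `cubics K` into itself (cubics_eq_span), and
`eval ![1,0,0] (σ w) = eval p w`.  Explicitly if `p 0 ≠ 0`: `σ (X 0) = p 0 X 0`, `σ (X 1) = p 1 X 0 + X 1`, `σ (X 2) = p 2 X 0 + X 2`, and
similarly in the other cases.  So `QV (σ ∘ v)` and `BPt (σ ∘ v) ![1,0,0]`, use base3.
-/

namespace Pool.Agent.BE

open MvPolynomial Submodule Module Pool.Agent.BR

variable {K : Type*} [Field K]

theorem aeval_map' (v : Fin 8 → Pol K) (σ : Pol K ≃ₐ[K] Pol K) (F : MvPolynomial (Fin 8) K) :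
    aeval (fun i => σ (v i)) F = σ (aeval v F) := by
  have h : (aeval (fun i => σ (v i)) : MvPolynomial (Fin 8) K →ₐ[K] Pol K) = (σ : Pol K →ₐ[K] Pol K).comp (aeval v) := by
    apply algHom_ext
    intro i
    rw [aeval_X, AlgHom.comp_apply, aeval_X]
    rfl
  exact DFunLike.congr_fun h F

theorem QV.map {v : Fin 8 → Pol K} (hv : QV v) (σ : Pol K ≃ₐ[K] Pol K) (hσ : ∀ w ∈ cubics K, σ w ∈ cubics K) :
    QV (fun i => σ (v i)) := by
  refine ⟨?_, fun i => hσ _ (hv.mem i), ?_⟩
  · exact hv.li.map' (σ.toLinearMap) (LinearMap.ker_eq_bot.2 σ.injective)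
  · intro F hF
    have e : {q : MvPolynomial (Fin 8) K | aeval (fun i => σ (v i)) q = 0 ∧ q.IsHomogeneous 2} =
        {q : MvPolynomial (Fin 8) K | aeval v q = 0 ∧ q.IsHomogeneous 2} := by
      ext q
      simp only [Set.mem_ofPred_eq, aeval_map', EmbeddingLike.map_eq_zero_iff]
    rw [e]
    rw [aeval_map'] at hF
    exact hv.quad F (by simpa using hF)

theorem BPt.map {v : Fin 8 → Pol K} (hv : QV v) {p q : Fin 3 → K} (hp : BPt v p) (σ : Pol K ≃ₐ[K] Pol K)
    (hσ : ∀ w ∈ cubics K, σ w ∈ cubics K) (hσ' : ∀ w ∈ cubics K, σ.symm w ∈ cubics K)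
    (h : ∀ w ∈ cubics K, eval q (σ w) = 0 ↔ eval p w = 0) : BPt (fun i => σ (v i)) q := by
  have e : ∀ u, u ∈ U (fun i => σ (v i)) ↔ σ.symm u ∈ U v := by
    intro u
    rw [mem_U, mem_U]
    constructor
    · rintro ⟨c, rfl⟩
      refine ⟨c, ?_⟩
      rw [map_sum]
      refine Finset.sum_congr rfl fun i _ => ?_
      rw [map_mul, AlgEquiv.symm_apply_apply]
      congr 1
      exact σ.symm.commutes (c i)
    · rintro ⟨c, hc⟩
      refine ⟨c, ?_⟩
      have h1 : u = σ (σ.symm u) := (σ.apply_symm_apply u).symm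
      rw [h1, hc, map_sum]
      refine Finset.sum_congr rfl fun i _ => ?_
      rw [map_mul]
      congr 1
      exact σ.commutes (c i)
  intro u
  rw [e, hp]
  constructor
  · rintro ⟨h1, h2⟩
    have h3 := (h _ h1).2 h2
    have h4 := hσ _ h1
    rw [AlgEquiv.apply_symm_apply] at h3 h4
    exact ⟨h4, h3⟩
  · rintro ⟨h1, h2⟩
    refine ⟨hσ' _ h1, (h _ (hσ' _ h1)).1 ?_⟩
    rwa [AlgEquiv.apply_symm_apply]
end Pool.Agent.BE
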